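import Mathlib
import Pool.Agent.Lib.MP_8f66f0_al_Uni.Phase

/-! # Sums over free orbits of a cyclic group. -/

set_option autoImplicit false
set_option linter.unusedSectionVars false
set_option linter.unusedVariables false

namespace Pool.Agent.Lib.MP_8f66f0_al_Mixed

theorem orbit_minimal {X : Type*} (σ : X → X) (Q : ℕ) (hQ : 0 < Q) (x : X) (h : σ^[Q] x = x)
    (free : ∀ i, 0 < i → i < Q → σ^[i] x ≠ x) : Function.minimalPeriod σ x = Q := by
  have h1 : Function.IsPeriodicPt σ Q x := h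
  refine le_antisymm (h1.minimalPeriod_le hQ) ?_
  by_contra hlt
  exact free _ (h1.minimalPeriod_pos hQ) (not_le.1 hlt) Function.iterate_minimalPeriod

/-- The induction: the sum of `φ` over an invariant set is congruent to the sum of `γ` over
representatives. -/
theorem orbit_aux {X : Type*} (σ : X → X) (Q : ℕ) (hQ : 0 < Q) (M : ℤ) (φ γ : X → ℤ) :
    ∀ (n : ℕ) (Xs : Finset X), Xs.card = n → (∀ x ∈ Xs, σ x ∈ Xs) → (∀ x ∈ Xs, σ^[Q] x = x) →
      (∀ x ∈ Xs, ∀ i, 0 < i → i < Q → σ^[i] x ≠ x) → (∀ x ∈ Xs, γ (σ x) = γ x) →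
      (∀ x ∈ Xs, M ∣ ∑ t ∈ Finset.range Q, φ (σ^[t] x) - γ x) →
      ∃ g : ℤ, (Q : ℤ) * g = ∑ x ∈ Xs, γ x ∧ M ∣ ∑ x ∈ Xs, φ x - g := by
  classical
  intro n
  induction n using Nat.strong_induction_on with
  | _ n ih =>
  intro Xs hn maps hσ free hγ h
  rcases Xs.eq_empty_or_nonempty with rfl | ⟨x, hx⟩
  · exact ⟨0, by simp, by simp⟩
  have hit : ∀ t, σ^[t] x ∈ Xs := by
    intro t
    induction t with
    | zero => exact hx
    | succ t iht =>
      rw [Function.iterate_succ_apply']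
      exact maps _ iht
  have hγt : ∀ t, γ (σ^[t] x) = γ x := by
    intro t
    induction t with
    | zero => rfl
    | succ t iht => rw [Function.iterate_succ_apply', hγ _ (hit t), iht]
  have hmin : Function.minimalPeriod σ x = Q := orbit_minimal σ Q hQ x (hσ x hx) (free x hx)
  have hinj : Set.InjOn (fun t => σ^[t] x) (Finset.range Q : Set ℕ) := by
    intro a ha b hb hab
    have ha' : a < Function.minimalPeriod σ x := by
      rw [hmin]
      simpa using ha
    have hb' : b < Function.minimalPeriod σ x := by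
      rw [hmin]
      simpa using hb
    exact (Function.iterate_eq_iterate_iff_of_lt_minimalPeriod ha' hb').1 hab
  set O : Finset X := (Finset.range Q).image (fun t => σ^[t] x) with hO
  have hOX : O ⊆ Xs := by
    intro y hy
    obtain ⟨t, -, rfl⟩ := Finset.mem_image.1 hy
    exact hit t
  have hmod : ∀ t, σ^[t] x ∈ O := by
    intro t
    rw [hO, Finset.mem_image]
    refine ⟨t % Q, Finset.mem_range.2 (Nat.mod_lt _ hQ), ?_⟩
    have h1 := Function.iterate_mod_minimalPeriod_eq (f := σ) (x := x) (n := t)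
    rw [hmin] at h1
    exact h1
  have hxO : x ∈ O := hmod 0
  have hsumφ : ∑ y ∈ O, φ y = ∑ t ∈ Finset.range Q, φ (σ^[t] x) := by
    rw [hO, Finset.sum_image hinj]
  have hsumγ : ∑ y ∈ O, γ y = (Q : ℤ) * γ x := by
    rw [hO, Finset.sum_image hinj, Finset.sum_congr rfl (fun t _ => hγt t), Finset.sum_const,
      Finset.card_range, nsmul_eq_mul]
  have hcard : (Xs \ O).card < n := by
    rw [← hn]
    refine Finset.card_lt_card ?_
    refine ⟨Finset.sdiff_subset, fun hsub => ?_⟩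
    exact (Finset.mem_sdiff.1 (hsub hx)).2 hxO
  have hmaps : ∀ y ∈ Xs \ O, σ y ∈ Xs \ O := by
    intro y hy
    obtain ⟨hyX, hyO⟩ := Finset.mem_sdiff.1 hy
    refine Finset.mem_sdiff.2 ⟨maps y hyX, fun hyσ => hyO ?_⟩
    obtain ⟨t, -, ht⟩ := Finset.mem_image.1 hyσ
    have h1 : y = σ^[Q - 1 + t] x := by
      rw [Function.iterate_add_apply]
      have h2 : σ^[t] x = σ y := ht
      rw [h2, ← Function.iterate_succ_apply, Nat.succ_eq_add_one, Nat.sub_add_cancel hQ,
        hσ y hyX]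
    rw [h1]
    exact hmod _
  obtain ⟨g, hg1, hg2⟩ := ih _ hcard (Xs \ O) rfl hmaps
    (fun y hy => hσ y (Finset.mem_sdiff.1 hy).1) (fun y hy => free y (Finset.mem_sdiff.1 hy).1)
    (fun y hy => hγ y (Finset.mem_sdiff.1 hy).1) (fun y hy => h y (Finset.mem_sdiff.1 hy).1)
  refine ⟨g + γ x, ?_, ?_⟩
  · rw [← Finset.sum_sdiff hOX, hsumγ, ← hg1]
    ring
  · rw [← Finset.sum_sdiff hOX, hsumφ]
    have h3 := h x hx
    have h4 : ∑ y ∈ Xs \ O, φ y + ∑ t ∈ Finset.range Q, φ (σ^[t] x) - (g + γ x)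
        = (∑ y ∈ Xs \ O, φ y - g) + (∑ t ∈ Finset.range Q, φ (σ^[t] x) - γ x) := by ring
    rw [h4]
    exact dvd_add hg2 h3

/-- PROOF. Let `Y` be a set of representatives of the orbits (all of size `Q`). Then
`Σ_{x ∈ Xs} φ x = Σ_{y ∈ Y} Σ_{t < Q} φ (σ^t y) ≡ Σ_{y ∈ Y} γ y`, and `Q * Σ_{y ∈ Y} γ y = Σ_{x ∈ Xs} γ x = 0`. -/
theorem orbit_dvd {X : Type*} (Xs : Finset X) (σ : X → X) (Q : ℕ) (hQ : 0 < Q)
    (maps : ∀ x ∈ Xs, σ x ∈ Xs) (hσ : ∀ x ∈ Xs, σ^[Q] x = x)
    (free : ∀ x ∈ Xs, ∀ i, 0 < i → i < Q → σ^[i] x ≠ x) (M : ℤ) (φ γ : X → ℤ)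
    (hγ : ∀ x ∈ Xs, γ (σ x) = γ x)
    (h : ∀ x ∈ Xs, M ∣ ∑ t ∈ Finset.range Q, φ (σ^[t] x) - γ x)
    (h0 : ∑ x ∈ Xs, γ x = 0) : M ∣ ∑ x ∈ Xs, φ x := by
  obtain ⟨g, hg1, hg2⟩ := orbit_aux σ Q hQ M φ γ Xs.card Xs rfl maps hσ free hγ h
  rw [h0] at hg1
  have hg : g = 0 := by
    rcases mul_eq_zero.1 hg1 with h1 | h1
    · exact absurd (by exact_mod_cast h1) hQ.ne'
    · exact h1
  rw [hg, sub_zero] at hg2
  exact hg2

/-- PROOF. The rotations fixing `l` are the multiples of some divisor of `p^k`; if it is not `p^k` it divides `p^(k-1)`. -/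
theorem rotate_free {X : Type*} (p k : ℕ) (hp : p.Prime) (hk : 0 < k) (l : List X)
    (hl : l.length = p ^ k) (h : l.rotate (p ^ (k - 1)) ≠ l) (i : ℕ) (h0 : 0 < i)
    (hi : i < p ^ k) : l.rotate i ≠ l := by
  intro hrot
  apply h
  have hlt : Nat.gcd i (p ^ k) < p ^ k := lt_of_le_of_lt (Nat.gcd_le_left _ h0) hi
  obtain ⟨j, hj, hjg⟩ := (Nat.dvd_prime_pow hp).1 (Nat.gcd_dvd_right i (p ^ k))
  have hjk : j < k := by
    rw [hjg] at hlt
    exact (Nat.pow_lt_pow_iff_right hp.one_lt).1 hlt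
  obtain ⟨m, -, hm⟩ := Nat.exists_mul_mod_eq_gcd hlt
  have h1 : l.rotate (p ^ j) = l := by
    rw [← hjg, ← hm, ← hl, List.rotate_mod]
    exact Pool.Agent.Lib.MP_8f66f0_al_Uni.phase_rotate_mul l i hrot m
  have h2 : p ^ (k - 1) = p ^ j * p ^ (k - 1 - j) := by
    rw [← pow_add]
    congr 1
    omega
  rw [h2]
  exact Pool.Agent.Lib.MP_8f66f0_al_Uni.phase_rotate_mul l _ h1 _

/-- PROOF. `l.rotate m = l` and `l.length = p * m` give `l = (replicate p (l.take m)).flatten`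
(see `phase_repeat`). -/
theorem rotate_repeat {X : Type*} (p m : ℕ) (hm : 0 < m) (l : List X) (hl : l.length = p * m)
    (h : l.rotate m = l) : l = (List.replicate p (l.take m)).flatten := by
  rcases Nat.eq_zero_or_pos p with rfl | hp
  · rw [zero_mul, List.length_eq_zero_iff] at hl
    rw [hl]
    rfl
  · exact Pool.Agent.Lib.MP_8f66f0_al_Uni.phase_repeat l (g := m) (m := p)
      (by rw [hl]; exact Nat.le_mul_of_pos_left _ hp) hl h

theorem repeat_rotate {X : Type*} (p : ℕ) (l : List X) :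
    ((List.replicate p l).flatten).rotate l.length = (List.replicate p l).flatten := by
  rcases p with _ | p
  · simp
  · conv_lhs => rw [List.replicate_succ, List.flatten_cons, List.rotate_append_length_eq]
    rw [List.replicate_succ', List.flatten_append]
    simp

end Pool.Agent.Lib.MP_8f66f0_al_Mixed
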