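import Mathlib

namespace Pool.Agent.Lib.MP_8f66f0_al_ChernS
end Pool.Agent.Lib.MP_8f66f0_al_ChernS
namespace Pool.Agent.Lib.MP_8f66f0_al_FinQ
end Pool.Agent.Lib.MP_8f66f0_al_FinQ
namespace Pool.Agent.Lib.MP_8f66f0_al_Uni
end Pool.Agent.Lib.MP_8f66f0_al_Uni

/-! # Sums over words as sums over closed walks. -/

set_option autoImplicit false
set_option linter.unusedSectionVars false
set_option linter.unusedVariables false

namespace Pool.Agent.Lib.MP_8f66f0_al_Mixed

open Pool.Agent.Lib.MP_8f66f0_al_FinQ Pool.Agent.Lib.MP_8f66f0_al_Uni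
  Pool.Agent.Lib.MP_8f66f0_al_ChernS

universe u

/-- A finite directed graph on `Fin n` whose edges carry two letters and a sign. -/
structure Gr (n : ℕ) (Γ : Type u) where
  U : Type u
  [fin : Fintype U]
  [dec : DecidableEq U]
  s : U → Fin n
  t : U → Fin n
  h : U → Γ
  g : U → Γ
  sg : U → ℤ
  sg_sq : ∀ u, sg u * sg u = 1

attribute [instance] Gr.fin Gr.dec

namespace Gr

variable {n : ℕ} {Γ : Type u} (W : Gr n Γ)

/-- paths from `i` to `j` -/
def Path (W : Gr n Γ) : Fin n → Fin n → List W.U → Prop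
  | i, j, [] => i = j
  | i, j, u :: l => W.s u = i ∧ Path W (W.t u) j l

/-- closed walks -/
def Closed (l : List W.U) : Prop := ∃ i, W.Path i i l

/-- the word of a walk -/
def wl (l : List W.U) : List Γ := l.flatMap fun u => [W.h u, W.g u]

/-- the sign of a walk -/
def sgn (l : List W.U) : ℤ := (l.map W.sg).prod

/-- the lists of length `Q` -/
noncomputable def LL (Q : ℕ) : Finset (List W.U) := (List.finite_length_eq W.U Q).toFinset

theorem mem_LL (Q : ℕ) (l : List W.U) : l ∈ W.LL Q ↔ l.length = Q := by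
  unfold LL
  rw [Set.Finite.mem_toFinset]
  rfl

end Gr

end Pool.Agent.Lib.MP_8f66f0_al_Mixed
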