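import Mathlib
import Pool.Agent.Lib.MP_8f66f0_al_Mixed.Walk

namespace Pool.Agent.Lib.MP_8f66f0_al_ChernS
end Pool.Agent.Lib.MP_8f66f0_al_ChernS
namespace Pool.Agent.Lib.MP_8f66f0_al_FinQ
end Pool.Agent.Lib.MP_8f66f0_al_FinQ
namespace Pool.Agent.Lib.MP_8f66f0_al_Uni
end Pool.Agent.Lib.MP_8f66f0_al_Uni

/-! # Lists and closed walks. -/

set_option autoImplicit false
set_option linter.unusedSectionVars false
set_option linter.unusedVariables false

namespace Pool.Agent.Lib.MP_8f66f0_al_Mixed

open Pool.Agent.Lib.MP_8f66f0_al_FinQ Pool.Agent.Lib.MP_8f66f0_al_Uni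
  Pool.Agent.Lib.MP_8f66f0_al_ChernS

universe u

namespace Gr

variable {n : ℕ} {Γ : Type u} (W : Gr n Γ)

theorem walkA_path_append (i j : Fin n) (l l' : List W.U) :
    W.Path i j (l ++ l') ↔ ∃ k, W.Path i k l ∧ W.Path k j l' := by
  induction l generalizing i with
  | nil =>
    constructor
    · intro h
      exact ⟨i, rfl, h⟩
    · rintro ⟨k, hk, h⟩
      have hk' : i = k := hk
      subst hk'
      exact h
  | cons u l ih =>
    constructor
    · rintro ⟨h1, h2⟩
      obtain ⟨k, h3, h4⟩ := (ih (W.t u)).1 h2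
      exact ⟨k, ⟨h1, h3⟩, h4⟩
    · rintro ⟨k, ⟨h1, h3⟩, h4⟩
      exact ⟨h1, (ih (W.t u)).2 ⟨k, h3, h4⟩⟩

theorem walkA_closed_comm (l l' : List W.U) : W.Closed (l ++ l') ↔ W.Closed (l' ++ l) := by
  have h : ∀ a b : List W.U, W.Closed (a ++ b) → W.Closed (b ++ a) := by
    rintro a b ⟨i, hi⟩
    obtain ⟨k, h1, h2⟩ := (W.walkA_path_append i i a b).1 hi
    exact ⟨k, (W.walkA_path_append k k b a).2 ⟨i, h2, h1⟩⟩
  exact ⟨h l l', h l' l⟩

/-- PROOF: induction on the list. -/
theorem closed_rotate (l : List W.U) (m : ℕ) : W.Closed (l.rotate m) ↔ W.Closed l := by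
  rw [List.rotate_eq_drop_append_take_mod, walkA_closed_comm, List.take_append_drop]

theorem walkA_start (i j : Fin n) (u : W.U) (l : List W.U) (h : W.Path i j (u :: l)) :
    W.s u = i := h.1

theorem closed_repeat (l : List W.U) (hl : l ≠ []) (p : ℕ) (hp : 0 < p) :
    W.Closed (List.replicate p l).flatten ↔ W.Closed l := by
  constructor
  · rintro ⟨i, hi⟩
    obtain ⟨p, rfl⟩ : ∃ k, p = k + 1 := ⟨p - 1, by omega⟩
    rw [List.replicate_succ, List.flatten_cons] at hi
    obtain ⟨k, h1, h2⟩ := (W.walkA_path_append i i _ _).1 hi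
    cases p with
    | zero =>
      have h3 : k = i := h2
      subst h3
      exact ⟨k, h1⟩
    | succ p =>
      obtain ⟨u, l', rfl⟩ := List.exists_cons_of_ne_nil hl
      rw [List.replicate_succ, List.flatten_cons, List.cons_append] at h2
      have h3 := W.walkA_start _ _ _ _ h1
      have h4 := W.walkA_start _ _ _ _ h2
      have h5 : k = i := h4.symm.trans h3
      subst h5
      exact ⟨k, h1⟩
  · rintro ⟨i, hi⟩
    refine ⟨i, ?_⟩
    clear hp
    induction p with
    | zero => rfl
    | succ p ih =>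
      rw [List.replicate_succ, List.flatten_cons]
      exact (W.walkA_path_append i i _ _).2 ⟨i, hi, ih⟩

theorem sgn_rotate (l : List W.U) (m : ℕ) : W.sgn (l.rotate m) = W.sgn l :=
  ((l.rotate_perm m).map W.sg).prod_eq

theorem walkA_sgn_append (l l' : List W.U) : W.sgn (l ++ l') = W.sgn l * W.sgn l' := by
  unfold sgn
  rw [List.map_append, List.prod_append]

theorem walkA_sgn_sq (l : List W.U) : W.sgn l * W.sgn l = 1 := by
  induction l with
  | nil => rfl
  | cons u l ih =>
    have h : W.sgn (u :: l) = W.sg u * W.sgn l := by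
      unfold sgn
      rw [List.map_cons, List.prod_cons]
    rw [h]
    calc W.sg u * W.sgn l * (W.sg u * W.sgn l)
        = (W.sg u * W.sg u) * (W.sgn l * W.sgn l) := by ring
      _ = 1 := by rw [W.sg_sq, ih, one_mul]

theorem walkA_sgn_pow (l : List W.U) (p : ℕ) :
    W.sgn (List.replicate p l).flatten = W.sgn l ^ p := by
  induction p with
  | zero =>
    rw [pow_zero]
    rfl
  | succ p ih => rw [List.replicate_succ, List.flatten_cons, walkA_sgn_append, ih, pow_succ']

theorem sgn_repeat (l : List W.U) (p : ℕ) (hp : Odd p) :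
    W.sgn (List.replicate p l).flatten = W.sgn l := by
  obtain ⟨k, rfl⟩ := hp
  rw [walkA_sgn_pow, pow_succ, pow_mul, pow_two, walkA_sgn_sq, one_pow, one_mul]

theorem walkA_wl_append (l l' : List W.U) : W.wl (l ++ l') = W.wl l ++ W.wl l' := by
  unfold wl
  rw [List.flatMap_append]

theorem walkA_wl_cons (u : W.U) (l : List W.U) : W.wl (u :: l) = W.h u :: W.g u :: W.wl l := by
  unfold wl
  rw [List.flatMap_cons]
  rfl

theorem walkA_wl_length (l : List W.U) : (W.wl l).length = 2 * l.length := by
  induction l with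
  | nil => rfl
  | cons u l ih =>
    rw [walkA_wl_cons, List.length_cons, List.length_cons, ih, List.length_cons]
    ring

theorem wl_rotate (l : List W.U) (m : ℕ) (hm : m ≤ l.length) :
    W.wl (l.rotate m) = (W.wl l).rotate (2 * m) := by
  rw [List.rotate_eq_drop_append_take hm, walkA_wl_append]
  have h1 : W.wl l = W.wl (l.take m) ++ W.wl (l.drop m) := by
    rw [← walkA_wl_append, List.take_append_drop]
  have h2 : 2 * m = (W.wl (l.take m)).length := by
    rw [walkA_wl_length, List.length_take, min_eq_left hm]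
  rw [h1, h2, List.rotate_append_length_eq]

theorem wl_repeat (l : List W.U) (p : ℕ) :
    W.wl (List.replicate p l).flatten = (List.replicate p (W.wl l)).flatten := by
  induction p with
  | zero => rfl
  | succ p ih =>
    rw [List.replicate_succ, List.flatten_cons, walkA_wl_append, ih, List.replicate_succ,
      List.flatten_cons]

theorem wl_length (l : List W.U) : (W.wl l).length = 2 * l.length := W.walkA_wl_length l

end Gr

end Pool.Agent.Lib.MP_8f66f0_al_Mixed
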