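import Mathlib
import Pool.Agent.Lib.MP_8f66f0_al_Mixed.Walk
import Pool.Agent.Lib.MP_8f66f0_al_Uni.WordSum

namespace Pool.Agent.Lib.MP_8f66f0_al_ChernS
end Pool.Agent.Lib.MP_8f66f0_al_ChernS

/-! # Sums over words as sums over closed walks. -/

set_option autoImplicit false
set_option linter.unusedSectionVars false
set_option linter.unusedVariables false

namespace Pool.Agent.Lib.MP_8f66f0_al_Mixed

open Pool.Agent.Lib.MP_8f66f0_al_FinQ Pool.Agent.Lib.MP_8f66f0_al_Uni
  Pool.Agent.Lib.MP_8f66f0_al_ChernS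

universe u

namespace Gr

variable {n : ℕ} {Γ : Type u} (W : Gr n Γ)

/-- finite signed sums of words with two letters -/
def walkB_Rp (x : MonoidAlgebra ℤ (FreeMonoid Γ)) : Prop :=
  ∃ (U : Type u) (_ : Fintype U) (_ : DecidableEq U) (h g : U → Γ) (sg : U → ℤ),
    (∀ u, sg u * sg u = 1) ∧
      x = ∑ u, MonoidAlgebra.single (FreeMonoid.of (h u) * FreeMonoid.of (g u)) (sg u)

theorem walkB_zero : walkB_Rp (0 : MonoidAlgebra ℤ (FreeMonoid Γ)) :=
  ⟨PEmpty, inferInstance, inferInstance, fun u => u.elim, fun u => u.elim, fun u => u.elim,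
    fun u => u.elim, by simp⟩

theorem walkB_add {x y : MonoidAlgebra ℤ (FreeMonoid Γ)} (hx : walkB_Rp x) (hy : walkB_Rp y) :
    walkB_Rp (x + y) := by
  obtain ⟨U, fU, dU, h, g, sg, h1, h2⟩ := hx
  obtain ⟨V, fV, dV, h', g', sg', h1', h2'⟩ := hy
  refine ⟨U ⊕ V, inferInstance, inferInstance, Sum.elim h h', Sum.elim g g', Sum.elim sg sg', ?_, ?_⟩
  · rintro (u | u)
    · exact h1 u
    · exact h1' u
  · rw [Fintype.sum_sum_type, h2, h2']
    rfl

theorem walkB_sum {ι : Type*} (s : Finset ι) (x : ι → MonoidAlgebra ℤ (FreeMonoid Γ))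
    (hx : ∀ i ∈ s, walkB_Rp (x i)) : walkB_Rp (∑ i ∈ s, x i) := by
  classical
  induction s using Finset.induction_on with
  | empty =>
    rw [Finset.sum_empty]
    exact walkB_zero
  | insert a s ha ih =>
    rw [Finset.sum_insert ha]
    exact walkB_add (hx a (Finset.mem_insert_self a s))
      (ih fun i hi => hx i (Finset.mem_insert_of_mem hi))

theorem walkB_single (a b : Γ) (c : ℤ) :
    walkB_Rp (MonoidAlgebra.single (FreeMonoid.of a * FreeMonoid.of b) c) := by
  refine ⟨ULift.{u} (Fin c.natAbs), inferInstance, inferInstance, fun _ => a, fun _ => b,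
    fun _ => if c < 0 then -1 else 1, ?_, ?_⟩
  · intro _
    split_ifs <;> norm_num
  · rw [Finset.sum_const, Finset.card_univ, Fintype.card_ulift, Fintype.card_fin,
      MonoidAlgebra.smul_single]
    congr 1
    rw [nsmul_eq_mul]
    split_ifs with h
    · have := Int.natCast_natAbs c
      rw [this, abs_of_neg h]
      ring
    · have := Int.natCast_natAbs c
      rw [this, abs_of_nonneg (not_lt.mp h)]
      ring

theorem walkB_mul [Group Γ] (x y : MonoidAlgebra ℤ Γ) :
    walkB_Rp (letter ℤ Γ x * letter ℤ Γ y) := by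
  induction x using MonoidAlgebra.induction_linear with
  | zero =>
    rw [map_zero, zero_mul]
    exact walkB_zero
  | add x x' hx hx' =>
    rw [map_add, add_mul]
    exact walkB_add hx hx'
  | single a c =>
    induction y using MonoidAlgebra.induction_linear with
    | zero =>
      rw [map_zero, mul_zero]
      exact walkB_zero
    | add x x' hx hx' =>
      rw [map_add, mul_add]
      exact walkB_add hx hx'
    | single b d =>
      rw [letter_single, letter_single, MonoidAlgebra.single_mul_single]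
      exact walkB_single a b _

theorem walkB_LL_zero : W.LL 0 = {[]} := by
  ext l
  rw [mem_LL, Finset.mem_singleton, List.length_eq_zero_iff]

theorem walkB_sum_LL {M : Type*} [AddCommMonoid M] (Q : ℕ) (f : List W.U → M) :
    ∑ l ∈ W.LL (Q + 1), f l = ∑ u : W.U, ∑ l ∈ W.LL Q, f (u :: l) := by
  rw [← Finset.sum_product' Finset.univ (W.LL Q) (fun u l => f (u :: l))]
  symm
  refine Finset.sum_bij (fun p _ => p.1 :: p.2) ?_ ?_ ?_ ?_
  · rintro ⟨u, l⟩ hp
    rw [Finset.mem_product, mem_LL] at hp
    rw [mem_LL, List.length_cons, hp.2]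
  · rintro ⟨u, l⟩ _ ⟨u', l'⟩ _ h
    simp only [List.cons.injEq] at h
    exact Prod.ext h.1 h.2
  · intro l hl
    rw [mem_LL] at hl
    cases l with
    | nil => simp at hl
    | cons u l =>
      refine ⟨(u, l), ?_, rfl⟩
      rw [Finset.mem_product, mem_LL]
      refine ⟨Finset.mem_univ _, ?_⟩
      simpa using hl
  · intro p _
    rfl

open Classical in
theorem walkB_pow (M : Matrix (Fin n) (Fin n) (MonoidAlgebra ℤ (FreeMonoid Γ)))
    (hM : ∀ i k, M i k = ∑ u : W.U, if W.s u = i ∧ W.t u = k then
      MonoidAlgebra.single (FreeMonoid.of (W.h u) * FreeMonoid.of (W.g u)) (W.sg u) else 0) (Q : ℕ) :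
    ∀ i k, (M ^ Q) i k = ∑ l ∈ W.LL Q, if W.Path i k l then
      MonoidAlgebra.single (FreeMonoid.ofList (W.wl l)) (W.sgn l) else 0 := by
  induction Q with
  | zero =>
    intro i k
    rw [walkB_LL_zero, Finset.sum_singleton, pow_zero, Matrix.one_apply]
    by_cases h : i = k
    · have h' : W.Path i k [] := h
      rw [if_pos h, if_pos h']
      rfl
    · have h' : ¬ W.Path i k [] := h
      rw [if_neg h, if_neg h']
  | succ Q ih =>
    intro i k
    rw [pow_succ', Matrix.mul_apply, walkB_sum_LL]
    have h1 : ∀ j, M i j * (M ^ Q) j k = ∑ u : W.U, ∑ l ∈ W.LL Q,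
        if j = W.t u then (if W.Path i k (u :: l) then
          MonoidAlgebra.single (FreeMonoid.ofList (W.wl (u :: l))) (W.sgn (u :: l)) else 0)
        else 0 := by
      intro j
      rw [hM, ih, Finset.sum_mul_sum]
      refine Finset.sum_congr rfl fun u _ => Finset.sum_congr rfl fun l _ => ?_
      by_cases hj : j = W.t u
      · rw [if_pos hj]
        have h2 : W.Path i k (u :: l) ↔ (W.s u = i ∧ W.t u = j) ∧ W.Path j k l := by
          subst hj
          simp [Path]
        by_cases h3 : W.s u = i ∧ W.t u = j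
        · rw [if_pos h3]
          by_cases h4 : W.Path j k l
          · rw [if_pos h4, if_pos (h2.mpr ⟨h3, h4⟩), MonoidAlgebra.single_mul_single]
            rfl
          · rw [if_neg h4, if_neg (fun h => h4 (h2.mp h).2), mul_zero]
        · rw [if_neg h3, if_neg (fun h => h3 (h2.mp h).1), zero_mul]
      · rw [if_neg hj, if_neg (fun h => hj h.2.symm), zero_mul]
    rw [Finset.sum_congr rfl fun j _ => h1 j, Finset.sum_comm]
    refine Finset.sum_congr rfl fun u _ => ?_
    rw [Finset.sum_comm]
    refine Finset.sum_congr rfl fun l _ => ?_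
    rw [Finset.sum_ite_eq' Finset.univ (W.t u), if_pos (Finset.mem_univ _)]

open Classical in
/-- PROOF. `U = Σ (x : Fin n × Fin n × Fin n × T × T), Fin (natAbs (coefficient))` where `T` is the finite set
(as a subtype of `Γ`) of all letters in the supports of the entries, the coefficient of `(i, j, k, h, g)` is
`B_{ij}(h) A_{jk}(g)`, and the sign is its sign (`Int.sign`). `s = i`, `t = k`. Then
`(letM B * letM A) i k = Σ_{u : U, s u = i, t u = k} single (of (h u) * of (g u)) (sg u)`, and
`((letM B * letM A)^Q) i k = Σ_{l ∈ LL Q, Path i k l} single (ofList (wl l)) (sgn l)` by induction on `Q`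
(`pow_succ'`; the lists of length `Q + 1` are the `u :: l`). For `Q > 0` a closed walk has exactly one base point
(the source of its first edge), so `Σ_i [Path i i l] = [Closed l]`. -/
theorem exists_gr {Γ : Type u} [Group Γ] {n : ℕ} (B A : Matrix (Fin n) (Fin n) (MonoidAlgebra ℤ Γ)) :
    ∃ W : Gr n Γ, ∀ (Q : ℕ) (F : List Γ → ℤ), 0 < Q →
      wsum B A Q F = ∑ l ∈ W.LL Q, if W.Closed l then W.sgn l * F (W.wl l) else 0 := by
  have h0 : ∀ p : Fin n × Fin n, walkB_Rp ((letM B * letM A) p.1 p.2) := by
    intro p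
    rw [Matrix.mul_apply]
    exact walkB_sum _ _ fun j _ => walkB_mul (B p.1 j) (A j p.2)
  choose U fU dU h g sg hsg hx using h0
  let W : Gr n Γ :=
    { U := Σ p : Fin n × Fin n, U p
      fin := inferInstance
      dec := inferInstance
      s := fun u => u.1.1
      t := fun u => u.1.2
      h := fun u => h u.1 u.2
      g := fun u => g u.1 u.2
      sg := fun u => sg u.1 u.2
      sg_sq := fun u => hsg u.1 u.2 }
  have hM : ∀ i k, (letM B * letM A) i k = ∑ u : W.U, if W.s u = i ∧ W.t u = k then
      MonoidAlgebra.single (FreeMonoid.of (W.h u) * FreeMonoid.of (W.g u)) (W.sg u) else 0 := by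
    intro i k
    show _ = ∑ u : (Σ p : Fin n × Fin n, U p), if u.1.1 = i ∧ u.1.2 = k then
      MonoidAlgebra.single (FreeMonoid.of (h u.1 u.2) * FreeMonoid.of (g u.1 u.2)) (sg u.1 u.2) else 0
    rw [Fintype.sum_sigma, Finset.sum_eq_single ((i, k) : Fin n × Fin n)]
    · rw [hx (i, k)]
      refine Finset.sum_congr rfl fun u _ => ?_
      rw [if_pos ⟨rfl, rfl⟩]
    · rintro ⟨a, b⟩ _ hab
      refine Finset.sum_eq_zero fun u _ => ?_
      rw [if_neg]
      rintro ⟨rfl, rfl⟩
      exact hab rfl
    · intro h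
      exact absurd (Finset.mem_univ _) h
  refine ⟨W, fun Q F hQ => ?_⟩
  unfold wsum
  rw [Matrix.trace, map_sum]
  have h1 : ∀ i, lin (fun w : FreeMonoid Γ => F w.toList) (((letM B * letM A) ^ Q) i i) =
      ∑ l ∈ W.LL Q, if W.Path i i l then W.sgn l * F (W.wl l) else 0 := by
    intro i
    rw [walkB_pow W _ hM, map_sum]
    refine Finset.sum_congr rfl fun l _ => ?_
    split_ifs
    · rw [lin_single]
      rfl
    · rw [map_zero]
  simp only [Matrix.diag_apply]
  rw [Finset.sum_congr rfl fun i _ => h1 i, Finset.sum_comm]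
  refine Finset.sum_congr rfl fun l hl => ?_
  rw [mem_LL] at hl
  cases l with
  | nil =>
    rw [List.length_nil] at hl
    omega
  | cons u l =>
    rw [Finset.sum_eq_single (W.s u)]
    · by_cases hc : W.Path (W.s u) (W.s u) (u :: l)
      · rw [if_pos hc, if_pos ⟨_, hc⟩]
      · rw [if_neg hc, if_neg]
        rintro ⟨i, hi⟩
        apply hc
        have h2 : W.s u = i := hi.1
        rw [h2]
        exact hi
    · intro i _ hi
      rw [if_neg]
      intro hc
      exact hi hc.1.symm
    · intro h
      exact absurd (Finset.mem_univ _) h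

end Gr

end Pool.Agent.Lib.MP_8f66f0_al_Mixed
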