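import Mathlib
import Pool.Agent.Lib.MP_8f66f0_al_ChernS.Core
import Pool.Agent.Lib.MP_8f66f0_al_Mixed.Orbit
import Pool.Agent.Lib.MP_8f66f0_al_Mixed.WalkA
import Pool.Agent.Lib.MP_8f66f0_al_Mixed.WalkB

/-! # The congruence between the sums over the words of lengths `2 p^k` and `2 p^(k-1)`. -/

set_option autoImplicit false
set_option linter.unusedSectionVars false
set_option linter.unusedVariables false

namespace Pool.Agent.Lib.MP_8f66f0_al_Mixed

open Pool.Agent.Lib.MP_8f66f0_al_FinQ Pool.Agent.Lib.MP_8f66f0_al_Uni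
  Pool.Agent.Lib.MP_8f66f0_al_ChernS

variable {Γ : Type*} [Group Γ] {n : ℕ}

theorem coreM_iter {X : Type*} (l : List X) (t : ℕ) :
    (fun x : List X => x.rotate 1)^[t] l = l.rotate t := by
  induction t generalizing l with
  | zero => simp
  | succ t ih => rw [Function.iterate_succ_apply, ih, List.rotate_rotate, add_comm]

theorem coreM_S_rot {Γ : Type*} [Group Γ] {ε : List Γ → ℤ} {Q : ℕ} (x : List Γ)
    (hx : x.length = Q) (P1 : (Q : ℤ) ∣ ∑ t ∈ Finset.range Q, ε (x.rotate t)) :
    (Q : ℤ) ∣ core_S ε Q (x.rotate 1) - core_S ε Q x := by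
  have h1 := core_abel (fun t => ε (x.rotate t)) Q
  have h2 : x.rotate Q = x := by rw [← hx, List.rotate_length]
  rw [h2, List.rotate_zero] at h1
  have h3 : ∀ t : ℕ, (x.rotate 1).rotate t = x.rotate (t + 1) := by
    intro t
    rw [List.rotate_rotate, add_comm]
  unfold core_S
  simp only [h3]
  simp only [mul_sub] at h1
  rw [Finset.sum_sub_distrib] at h1
  have h4 : (∑ t ∈ Finset.range Q, (t : ℤ) * ε (x.rotate (t + 1))) -
      ∑ t ∈ Finset.range Q, (t : ℤ) * ε (x.rotate t) =
      Q * ε x - ∑ t ∈ Finset.range Q, ε (x.rotate t) := by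
    linear_combination h1
  rw [h4]
  exact dvd_sub (dvd_mul_right _ _) P1

theorem coreM_comm {X : Type*} (u v : List X) (p : ℕ) :
    u ++ (List.replicate p (v ++ u)).flatten = (List.replicate p (u ++ v)).flatten ++ u := by
  induction p with
  | zero => simp
  | succ p ih =>
    rw [List.replicate_succ, List.replicate_succ, List.flatten_cons, List.flatten_cons,
      List.append_assoc v u, ih]
    simp only [List.append_assoc]

theorem coreM_rot_gen {X : Type*} (u v : List X) (p : ℕ) :
    ((List.replicate p (u ++ v)).flatten).rotate u.length =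
      (List.replicate p (v ++ u)).flatten := by
  cases p with
  | zero => simp
  | succ p =>
    rw [List.replicate_succ, List.replicate_succ, List.flatten_cons, List.flatten_cons,
      List.append_assoc u v, List.rotate_append_length_eq, List.append_assoc v u,
      List.append_assoc, ← coreM_comm u v p]

theorem coreM_rot_one {X : Type*} (f : List X) (p : ℕ) :
    ((List.replicate p f).flatten).rotate 1 = (List.replicate p (f.rotate 1)).flatten := by
  cases f with
  | nil => simp
  | cons a f =>
    have h := coreM_rot_gen [a] f p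
    have h2 : (a :: f).rotate 1 = f ++ [a] := by simp
    rw [h2]
    exact h

theorem coreM_len {X : Type*} (f : List X) (p : ℕ) :
    ((List.replicate p f).flatten).length = p * f.length := by
  simp [List.length_flatten, List.map_replicate, List.sum_replicate]

theorem coreM_d0 {G : Type*} [Group G] (Q : ℕ) (f : List G) (hf : f.length = 2 * Q) (p : ℕ) :
    d0 (List.replicate p f).flatten = (List.replicate p (d0 f)).flatten := by
  induction p with
  | zero => simp [d0]
  | succ p ih =>
    rw [List.replicate_succ, List.replicate_succ, List.flatten_cons, List.flatten_cons,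
      d0_append Q f _ hf, ih]

theorem coreM_take {X : Type*} (f : List X) (p : ℕ) (hp : 0 < p) :
    ((List.replicate p f).flatten).take f.length = f := by
  obtain ⟨q, rfl⟩ : ∃ q, p = q + 1 := ⟨p - 1, by omega⟩
  rw [List.replicate_succ, List.flatten_cons, List.take_left]

open Classical in
/-- the difference of the two sums is a sum over the walks which are not repetitions -/
theorem coreM_split {Γ : Type*} [Group Γ] {n : ℕ} {A B : Matrix (Fin n) (Fin n) (MonoidAlgebra ℤ Γ)}
    (W : Gr n Γ) (hW : ∀ (Q : ℕ) (F : List Γ → ℤ), 0 < Q →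
      wsum B A Q F = ∑ l ∈ W.LL Q, if W.Closed l then W.sgn l * F (W.wl l) else 0)
    (p R : ℕ) (hp : Odd p) (hR : 0 < R) (F : List Γ → ℤ) :
    wsum B A (p * R) F - wsum B A R (fun f => F (List.replicate p f).flatten) =
      ∑ l ∈ ((W.LL (p * R)).filter W.Closed).filter (fun l => l.rotate R ≠ l),
        W.sgn l * F (W.wl l) := by
  have hp0 : 0 < p := hp.pos
  rw [hW (p * R) F (Nat.mul_pos hp0 hR), hW R _ hR, ← Finset.sum_filter, ← Finset.sum_filter,
    ← Finset.sum_filter_add_sum_filter_not ((W.LL (p * R)).filter W.Closed)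
      (fun l => l.rotate R ≠ l) (fun l => W.sgn l * F (W.wl l)), add_sub_assoc]
  have h : ∑ l ∈ ((W.LL (p * R)).filter W.Closed).filter (fun l => ¬ l.rotate R ≠ l),
      W.sgn l * F (W.wl l) = ∑ l ∈ (W.LL R).filter W.Closed,
        W.sgn l * F (List.replicate p (W.wl l)).flatten := by
    symm
    refine Finset.sum_nbij' (fun l => (List.replicate p l).flatten) (fun l => l.take R) ?_ ?_ ?_
      ?_ ?_
    · intro l hl
      rw [Finset.mem_filter, W.mem_LL] at hl
      have hne : l ≠ [] := by
        intro h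
        rw [h] at hl
        simp at hl
        omega
      rw [Finset.mem_filter, Finset.mem_filter, W.mem_LL, coreM_len, hl.1, W.closed_repeat l hne p hp0]
      refine ⟨⟨rfl, hl.2⟩, not_not.2 ?_⟩
      have := repeat_rotate p l
      rwa [hl.1] at this
    · intro l hl
      rw [Finset.mem_filter, Finset.mem_filter, W.mem_LL, not_not] at hl
      obtain ⟨⟨h1, h2⟩, h3⟩ := hl
      have h4 := rotate_repeat p R hR l h1 h3
      have h5 : (l.take R).length = R := by
        rw [List.length_take, h1, min_eq_left (Nat.le_mul_of_pos_left R hp0)]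
      rw [Finset.mem_filter, W.mem_LL]
      refine ⟨h5, ?_⟩
      rw [h4] at h2
      have hne : l.take R ≠ [] := by
        intro h
        rw [h] at h5
        simp at h5
        omega
      exact (W.closed_repeat _ hne p hp0).1 h2
    · intro l hl
      rw [Finset.mem_filter, W.mem_LL] at hl
      have := coreM_take l p hp0
      rwa [hl.1] at this
    · intro l hl
      rw [Finset.mem_filter, Finset.mem_filter, W.mem_LL, not_not] at hl
      exact (rotate_repeat p R hR l hl.1.1 hl.2).symm
    · intro l hl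
      rw [W.sgn_repeat l p hp, W.wl_repeat]
  rw [h]
  simp

/-- PROOF. `Q = p^k`, `M = p^k`. `W` from `exists_gr`. `Xs` = closed walks `l` of length `Q` with
`l.rotate (p^(k-1)) ≠ l`. The other closed walks of length `Q` are the `p`-fold repetitions of the closed
walks of length `p^(k-1)` (`rotate_repeat`, `repeat_rotate`, `closed_repeat`), with the same sign, so
`wsum B A Q F = Σ_{Xs} sgn l F (wl l) + wsum B A (p^(k-1)) (fun f => F (f repeated))`.
`S x = Σ_{t<Q} t ε (x.rotate t)`; by P1 `S (x.rotate 1) ≡ S x mod M`, so `S' x = S x % M` is invariant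
under the rotation. `φ l = sgn l F (wl l)`, `γ l = sgn l (S' (d0 (wl l)) - S' (d0 ((wl l).rotate 1)))`.
`Σ_t F (e.rotate (2t)) = Q F e - S (d0 (e.rotate 1)) + S (d0 e)` (`core_F`).
`Σ_{Xs} γ = wsum B A Q (..) - wsum B A (p^(k-1)) (..) = 0` by `core_d0` (for `S' ∘ d0` and for
`e ↦ S' (d0 (e repeated)) = S' ((d0 e) repeated)`), and `wsum_rotate_one` for the second term; `S' (1, .., 1) = 0`. Now `orbit_dvd`. -/
theorem coreM (A B : Matrix (Fin n) (Fin n) (MonoidAlgebra ℤ Γ)) (hAB : A * B = 1)
    (hBA : B * A = 1) (p k : ℕ) (hp : p.Prime) (hodd : Odd p) (hk : 0 < k) (ε F : List Γ → ℤ)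
    (P1 : ∀ x : List Γ, x.length = p ^ k → ((p : ℤ) ^ k) ∣ ∑ t ∈ Finset.range (p ^ k), ε (x.rotate t))
    (P2 : ∀ e : List Γ, e.length = 2 * p ^ k →
      F (e.rotate 2) - F e = ε (d0 (e.rotate 1)) - ε (d0 e))
    (h1 : ε (List.replicate (p ^ k) 1) = 0) :
    ((p : ℤ) ^ k) ∣ wsum B A (p ^ k) F -
      wsum B A (p ^ (k - 1)) (fun f => F (List.replicate p f).flatten) := by
  classical
  obtain ⟨W, hW⟩ := Gr.exists_gr B A
  have hQR : p ^ k = p * p ^ (k - 1) := by
    rw [← pow_succ', Nat.sub_add_cancel hk]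
  have hR0 : 0 < p ^ (k - 1) := pow_pos hp.pos _
  have hQ0 : 0 < p ^ k := pow_pos hp.pos _
  have hcast : ((p : ℤ) ^ k) = ((p ^ k : ℕ) : ℤ) := by push_cast; rfl
  rw [hcast]
  rw [hcast] at P1
  -- the reduced weighted sum
  set Q : ℕ := p ^ k with hQ
  set R : ℕ := p ^ (k - 1) with hR
  set S' : List Γ → ℤ := fun x => core_S ε Q x % (Q : ℤ) with hS'
  have hS1 : ∀ x : List Γ, x.length = Q → S' (x.rotate 1) = S' x := by
    intro x hx
    have h2 := coreM_S_rot x hx (P1 x hx)
    simp only [hS']
    exact ((Int.modEq_iff_dvd).2 h2).symm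
  have hS0 : S' (List.replicate Q 1) = 0 := by
    simp only [hS']
    have h2 : core_S ε Q (List.replicate Q (1 : Γ)) = 0 := by
      unfold core_S
      refine Finset.sum_eq_zero fun t _ => ?_
      rw [List.rotate_replicate, h1, mul_zero]
    rw [h2, Int.zero_emod]
  have hSd : ∀ x : List Γ, (Q : ℤ) ∣ core_S ε Q x - S' x := by
    intro x
    simp only [hS']
    exact Int.dvd_self_sub_of_emod_eq rfl
  set G : List Γ → ℤ := fun e => S' (d0 e) - S' (d0 (e.rotate 1)) with hG
  have hG0 : ∀ (Q' : ℕ) (T : List Γ → ℤ), T (List.replicate Q' 1) = 0 →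
      wsum B A Q' (fun e => T (d0 e) - T (d0 (e.rotate 1))) = 0 := by
    intro Q' T hT
    have e1 : (fun e : List Γ => T (d0 e) - T (d0 (e.rotate 1))) =
        fun e => T (d0 e) + (-1) * T (d0 (e.rotate 1)) := by
      funext e
      ring
    rw [e1, wsum_add B A Q' (fun e => T (d0 e)) (fun e => (-1) * T (d0 (e.rotate 1))),
      wsum_smul B A Q' (-1) (fun e => T (d0 (e.rotate 1))),
      wsum_rotate_one B A Q' (fun e => T (d0 e)), core_d0 A B hBA Q' T hT,
      core_d0 B A hAB Q' T hT]
    ring
  -- the sum of `γ`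
  have hGsum : ∑ l ∈ ((W.LL Q).filter W.Closed).filter (fun l => l.rotate R ≠ l),
      W.sgn l * G (W.wl l) = 0 := by
    have h2 := coreM_split W hW p R hodd hR0 G
    rw [← hQR] at h2
    rw [← h2]
    have h3 : wsum B A Q G = 0 := hG0 Q S' hS0
    have h4 : wsum B A R (fun f => G (List.replicate p f).flatten) = 0 := by
      have h5 := hG0 R (fun x => S' (List.replicate p x).flatten) (by
        have h6 : (List.replicate p (List.replicate R (1 : Γ))).flatten = List.replicate Q 1 := by
          rw [hQR, List.flatten_replicate_replicate]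
        change S' (List.replicate p (List.replicate R (1 : Γ))).flatten = 0
        rw [h6, hS0])
      rw [← h5]
      refine wsum_congr B A R fun f hf => ?_
      simp only [hG]
      rw [coreM_rot_one, coreM_d0 R f hf, coreM_d0 R (f.rotate 1) (by rw [List.length_rotate, hf])]
    rw [h3, h4, sub_zero]
  have hmain := coreM_split W hW p R hodd hR0 F
  rw [← hQR] at hmain
  rw [hmain]
  have hwl : ∀ l : List W.U, l.length = Q → (W.wl l).length = 2 * Q := by
    intro l hl
    rw [W.wl_length, hl]
  refine orbit_dvd _ (fun l => l.rotate 1) Q hQ0 ?_ ?_ ?_ (Q : ℤ) (fun l => W.sgn l * F (W.wl l))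
    (fun l => W.sgn l * G (W.wl l)) ?_ ?_ hGsum
  · intro l hl
    rw [Finset.mem_filter, Finset.mem_filter, W.mem_LL] at hl ⊢
    refine ⟨⟨by rw [List.length_rotate, hl.1.1], (W.closed_rotate l 1).2 hl.1.2⟩, ?_⟩
    intro h
    apply hl.2
    rw [List.rotate_rotate, add_comm, ← List.rotate_rotate] at h
    exact List.rotate_injective 1 h
  · intro l hl
    rw [Finset.mem_filter, Finset.mem_filter, W.mem_LL] at hl
    rw [coreM_iter, ← hl.1.1, List.rotate_length]
  · intro l hl i h0 hi
    rw [Finset.mem_filter, Finset.mem_filter, W.mem_LL] at hl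
    rw [coreM_iter]
    exact rotate_free p k hp hk l hl.1.1 hl.2 i h0 hi
  · intro l hl
    rw [Finset.mem_filter, Finset.mem_filter, W.mem_LL] at hl
    have hlen := hwl l hl.1.1
    rw [W.sgn_rotate, W.wl_rotate l 1 (by rw [hl.1.1]; exact hQ0)]
    congr 1
    simp only [hG]
    have h3 : ((W.wl l).rotate (2 * 1)).rotate 1 = ((W.wl l).rotate 1).rotate (2 * 1) := by
      rw [List.rotate_rotate, List.rotate_rotate]
    rw [h3, d0_rotate Q (W.wl l) hlen 1,
      d0_rotate Q ((W.wl l).rotate 1) (by rw [List.length_rotate, hlen]) 1,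
      hS1 _ (MP_8f66f0_al_ChernS.length_d0 Q _ hlen),
      hS1 _ (MP_8f66f0_al_ChernS.length_d0 Q _ (by rw [List.length_rotate, hlen]))]
  · intro l hl
    rw [Finset.mem_filter, Finset.mem_filter, W.mem_LL] at hl
    have hlen := hwl l hl.1.1
    have h3 : ∑ t ∈ Finset.range Q, W.sgn ((fun l => l.rotate 1)^[t] l) *
        F (W.wl ((fun l => l.rotate 1)^[t] l)) =
        W.sgn l * ∑ t ∈ Finset.range Q, F ((W.wl l).rotate (2 * t)) := by
      rw [Finset.mul_sum]
      refine Finset.sum_congr rfl fun t ht => ?_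
      rw [coreM_iter, W.sgn_rotate, W.wl_rotate l t (by
        rw [hl.1.1]; exact (Finset.mem_range.1 ht).le)]
    rw [h3, core_F P2 (W.wl l) hlen]
    have h4 : W.sgn l * ((Q : ℤ) * F (W.wl l) - core_S ε Q (d0 ((W.wl l).rotate 1)) +
        core_S ε Q (d0 (W.wl l))) - W.sgn l * G (W.wl l) =
        (Q : ℤ) * (W.sgn l * F (W.wl l)) +
        W.sgn l * ((core_S ε Q (d0 (W.wl l)) - S' (d0 (W.wl l))) -
          (core_S ε Q (d0 ((W.wl l).rotate 1)) - S' (d0 ((W.wl l).rotate 1)))) := by
      simp only [hG]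
      ring
    rw [h4]
    exact dvd_add (dvd_mul_right _ _)
      (dvd_mul_of_dvd_right (dvd_sub (hSd _) (hSd _)) _)

end Pool.Agent.Lib.MP_8f66f0_al_Mixed
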