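import Mathlib
import Pool.Agent.Lib.MP_8f66f0_al_ChernS.Defs

/-! # The mixed (negative cyclic) Chern character away from the class of `1`: definitions.

A mixed cocycle `b` of level `k` is a family of alternating equivariant cochains `b (c; u)` on lists
`u` of even length `≤ 2k` with `b (c; c a, u) - b (c; a, u) = - (∂ b) (c; u)`. It pairs with the
negative cyclic Chern character of `K_1`. -/

set_option autoImplicit false
set_option linter.unusedSectionVars false

namespace Pool.Agent.Lib.MP_8f66f0_al_Mixed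

open Pool.Agent.Lib.MP_8f66f0_al_FinQ Pool.Agent.Lib.MP_8f66f0_al_Uni
  Pool.Agent.Lib.MP_8f66f0_al_ChernS

section cochains

variable {Γ : Type*} [Group Γ] {S : Type*} [CommRing S]

/-- Alternating equivariant cochains with `r` arguments. -/
structure IsAlt (r : ℕ) (ω : Γ → List Γ → S) : Prop where
  len : ∀ (c : Γ) (u : List Γ), u.length ≠ r → ω c u = 0
  equivariant : ∀ (x c : Γ) (u : List Γ), ω (x * c * x⁻¹) (u.map (x * ·)) = ω c u
  alternating : ∀ (c : Γ) (u : List Γ) (a b : Γ) (v : List Γ),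
    ω c (u ++ a :: b :: v) = - ω c (u ++ b :: a :: v)
  diag : ∀ (c : Γ) (u : List Γ) (a : Γ) (v : List Γ), ω c (u ++ a :: a :: v) = 0

/-- Mixed cocycles of level `k`: functions `b c u` of a group element `c` and a list `u` of group
elements, zero if the length of `u` is odd or larger than `2 k`, equivariant, alternating in `u`,
such that replacing the first argument `a` by `c a` subtracts the coboundary. -/
structure IsMixed (k : ℕ) (b : Γ → List Γ → S) : Prop where
  len : ∀ (c : Γ) (u : List Γ), 2 * k < u.length → b c u = 0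
  odd : ∀ (c : Γ) (u : List Γ), Odd u.length → b c u = 0
  equivariant : ∀ (x c : Γ) (u : List Γ), b (x * c * x⁻¹) (u.map (x * ·)) = b c u
  alternating : ∀ (c : Γ) (u : List Γ) (a a' : Γ) (v : List Γ),
    b c (u ++ a :: a' :: v) = - b c (u ++ a' :: a :: v)
  diag : ∀ (c : Γ) (u : List Γ) (a : Γ) (v : List Γ), b c (u ++ a :: a :: v) = 0
  mixed : ∀ (c a : Γ) (u : List Γ), b c (c * a :: u) =
    b c (a :: u) - ∑ i ∈ Finset.range u.length, (-1) ^ i * b c (u.eraseIdx i)

/-- The component of `b` on the lists of length `r`. -/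
def comp (r : ℕ) (b : Γ → List Γ → S) (c : Γ) (u : List Γ) : S := if u.length = r then b c u else 0

/-- Alternating rings: the letters anticommute, and the functional only sees the degree `r`. -/
structure AltRing (r : ℕ) (ω : Γ → List Γ → S) (c : Γ) (K : Type*) [Ring K]
    (f : MonoidAlgebra S (FreeMonoid Γ) →+* K) (L : K →+ S) (deg : ℕ → AddSubgroup K) : Prop where
  L_f : ∀ x, L (f x) = Lc ω c x
  anti : ∀ a b, f (nn a) * f (nn b) = - (f (nn b) * f (nn a))
  sq : ∀ a, f (nn a) * f (nn a) = 0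
  one_deg : 1 ∈ deg 0
  mul_deg : ∀ a b x y, x ∈ deg a → y ∈ deg b → x * y ∈ deg (a + b)
  nn_deg : ∀ a, f (nn a) ∈ deg 1
  L_deg : ∀ d x, x ∈ deg d → d ≠ r → L x = 0

/-- Mixed rings: `ρ` is the difference of the letters `c a` and `a`. -/
structure SupRing (k : ℕ) (b : Γ → List Γ → S) (c : Γ) (K : Type*) [Ring K]
    (f : MonoidAlgebra S (FreeMonoid Γ) →+* K) (α : K →+* K) (D : K →+ K) (L : K →+ S) (ρ : K)
    (deg : ℕ → AddSubgroup K) : Prop where
  L_f : ∀ x, L (f x) = Lc b c x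
  anti : ∀ a a', f (nn a) * f (nn a') = - (f (nn a') * f (nn a))
  sq : ∀ a, f (nn a) * f (nn a) = 0
  period : ∀ a, f (nn (c * a)) = f (nn a) + ρ
  α_nn : ∀ a, α (f (nn a)) = - f (nn a)
  D_mul : ∀ x y, D (x * y) = D x * y + α x * D y
  D_nn : ∀ a, D (f (nn a)) = 1
  L_D : ∀ x, L (D x) + L (ρ * x) = 0
  one_deg : 1 ∈ deg 0
  mul_deg : ∀ a b x y, x ∈ deg a → y ∈ deg b → x * y ∈ deg (a + b)
  nn_deg : ∀ a, f (nn a) ∈ deg 1
  L_deg : ∀ d x, x ∈ deg d → 2 * k < d → L x = 0

end cochains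

section expr

variable {K : Type*} [Ring K]

/-- `Σ_{i + j = n - 1} x^i y^j` -/
def hh (n : ℕ) (x y : K) : K := ∑ i ∈ Finset.range n, x ^ i * y ^ (n - 1 - i)

/-- the triangle and the chord at the pair `t` -/
def ta (N : ℕ → K) (t : ℕ) : K := N (2 * t) * N (2 * t + 1) * N (2 * t + 2)

def ch (N : ℕ → K) (t : ℕ) : K := N (2 * t) * N (2 * t + 2)

/-- The antisymmetrised product of the triangles and the chords. -/
def Om (Q : ℕ) (N : ℕ → K) : K :=
  ∑ t ∈ Finset.range Q, ∑ s ∈ Finset.range Q, (Int.sign ((s : ℤ) - (t : ℤ))) • (ta N t * ch N s)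

/-- The correction term (with `ρ = N (2 Q) - N 0`). -/
def exV (m Q : ℕ) (N : ℕ → K) : K :=
  (N (2 * Q) - N 0) * (Om Q N * hh (m - 1) (pg (fun j => N (2 * j)) Q) (pg N (2 * Q)) -
    N 0 * ((pg N (2 * Q)) ^ m - (pg (fun j => N (2 * j)) Q) ^ m))

/-- Twice the symmetrised expression. -/
def exG (m Q : ℕ) (N : ℕ → K) : K :=
  2 * exF m Q N + (exV m Q N - exV m Q fun j => N (j + 1))

end expr

section words

variable {Γ : Type*} [Group Γ]

/-- The coefficients: `(2m+1) G_m + G_{m-1} = 0` for `1 ≤ m < k`. -/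
def GG (k m : ℕ) : ℤ := (-1) ^ (m + 1) * ∏ j ∈ Finset.Ico (m + 1) k, (2 * (j : ℤ) + 1)

/-- `ε (x)` -/
noncomputable def epsM (k : ℕ) (b : Γ → List Γ → ℤ) (x : List Γ) : ℤ :=
  2 * ∑ m ∈ Finset.range k, GG k m * Lc b x.prod (exE m x.length fun j => nn (vx x j))

/-- `F (e)` for `e` of length `2 Q` -/
noncomputable def FM (k : ℕ) (b : Γ → List Γ → ℤ) (Q : ℕ) (e : List Γ) : ℤ :=
  ∑ m ∈ Finset.range k, GG k m * Lc b e.prod (exG m Q fun j => nn (vx e j))

/-- The pairing of the mixed Chern character of `A` with `b` (up to the sign and with the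
denominators removed). -/
noncomputable def mixedChern {n : ℕ} (k : ℕ) (A B : Matrix (Fin n) (Fin n) (MonoidAlgebra ℤ Γ))
    (b : Γ → List Γ → ℤ) : ℤ :=
  ∑ m ∈ Finset.range k, (m.factorial : ℤ) * (∏ j ∈ Finset.Ico (m + 1) k, (2 * (j : ℤ) + 1)) *
    chern m A B b

end words

end Pool.Agent.Lib.MP_8f66f0_al_Mixed
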