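import Mathlib
import Pool.Agent.Lib.MP_8f66f0_al_Mixed.Defs

/-! # P1 and P2 in a mixed ring.

All sequences are `N j = f (nn (v j))` with `N (j + n) = N j + ρ`. -/

set_option autoImplicit false
set_option linter.unusedSectionVars false
set_option linter.unusedVariables false

namespace Pool.Agent.Lib.MP_8f66f0_al_Mixed

open Pool.Agent.Lib.MP_8f66f0_al_FinQ Pool.Agent.Lib.MP_8f66f0_al_Uni
  Pool.Agent.Lib.MP_8f66f0_al_ChernS

variable {Γ : Type*} [Group Γ] {k : ℕ} {b : Γ → List Γ → ℤ} {c : Γ} {K : Type*}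
  [Ring K] {f : MonoidAlgebra ℤ (FreeMonoid Γ) →+* K} {α : K →+* K} {D : K →+ K} {L : K →+ ℤ}
  {ρ : K} {deg : ℕ → AddSubgroup K}

lemma GG_rec (k m : ℕ) (h0 : 0 < m) (hm : m < k) : (2 * (m : ℤ) + 1) * GG k m + GG k (m - 1) = 0 := by
  unfold GG
  obtain ⟨m, rfl⟩ : ∃ m', m = m' + 1 := ⟨m - 1, by omega⟩
  rw [Nat.add_sub_cancel, Finset.prod_eq_prod_Ico_succ_bot hm, pow_succ (-1 : ℤ) (m + 1)]
  ring

lemma pp_LD (S : SupRing k b c K f α D L ρ deg) (x : K) : L (D x) = - L (ρ * x) :=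
  eq_neg_of_add_eq_zero_left (S.L_D x)

lemma pp_natmul (L : K →+ ℤ) (m : ℕ) (x : K) : L ((2 * (m : K) + 1) * x) = (2 * (m : ℤ) + 1) * L x := by
  have h : (2 * (m : K) + 1) * x = (2 * m + 1) • x := by
    rw [nsmul_eq_mul]
    push_cast
    rfl
  rw [h, map_nsmul, nsmul_eq_mul]
  push_cast
  rfl

lemma pp_sum (k : ℕ) (a : ℕ → ℤ) : ∀ n, n + 1 ≤ k →
    ∑ m ∈ Finset.range (n + 1), GG k m * (- a (m + 1) - (2 * (m : ℤ) + 1) * a m) =
      - (GG k 0 * a 0) - GG k n * a (n + 1) := by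
  intro n
  induction n with
  | zero =>
    intro _
    rw [Finset.sum_range_one]
    push_cast
    ring
  | succ n ih =>
    intro hn
    have h := GG_rec k (n + 1) (Nat.succ_pos n) (by omega)
    rw [Nat.add_sub_cancel] at h
    rw [Finset.sum_range_succ, ih (by omega)]
    linear_combination (- a (n + 1)) * h

/-- PROOF. `L (D x) = - L (ρ * x)`; Abel summation with `GG_rec`; `ρ * y k` has degree `2k + 2`. -/
theorem pp_abel (S : SupRing k b c K f α D L ρ deg) (y : ℕ → K) (hy : ρ * y k ∈ deg (2 * k + 2))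
    (E : ℕ → K) (hE : ∀ m < k, E m = D (y (m + 1)) - (2 * (m : K) + 1) * (ρ * y m)) :
    ∑ m ∈ Finset.range k, GG k m * L (E m) = - (GG k 0 * L (ρ * y 0)) := by
  have hk : L (ρ * y k) = 0 := S.L_deg _ _ hy (by omega)
  have h1 : ∑ m ∈ Finset.range k, GG k m * L (E m) =
      ∑ m ∈ Finset.range k, GG k m * (- L (ρ * y (m + 1)) - (2 * (m : ℤ) + 1) * L (ρ * y m)) := by
    refine Finset.sum_congr rfl fun m hm => ?_
    rw [hE m (Finset.mem_range.1 hm), map_sub, pp_natmul, pp_LD S]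
  rw [h1]
  rcases Nat.eq_zero_or_pos k with h0 | h0
  · subst h0
    rw [hk]
    simp
  · obtain ⟨n, rfl⟩ : ∃ n, k = n + 1 := ⟨k - 1, by omega⟩
    rw [pp_sum (n + 1) (fun m => L (ρ * y m)) n le_rfl]
    show - (GG (n + 1) 0 * L (ρ * y 0)) - GG (n + 1) n * L (ρ * y (n + 1)) = _
    rw [hk, mul_zero, sub_zero]

lemma pp_pow_mem (S : SupRing k b c K f α D L ρ deg) {x : K} (hx : x ∈ deg 2) (m : ℕ) :
    x ^ m ∈ deg (2 * m) := by
  induction m with
  | zero => rw [pow_zero]; exact S.one_deg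
  | succ m ih => rw [pow_succ]; exact S.mul_deg _ _ _ _ ih hx

lemma pp_D_one (S : SupRing k b c K f α D L ρ deg) : D 1 = 0 := by
  have h := S.D_mul 1 1
  rw [mul_one, map_one α, one_mul, mul_one] at h
  exact left_eq_add.mp h

/-- `D (P ^ (m + 1)) = 2 (m + 1) ρ P ^ m`, if `P` is even and commutes with `ρ`. -/
lemma pp_D_pow (S : SupRing k b c K f α D L ρ deg) {P : K} (hD : D P = 2 * ρ) (hα : α P = P)
    (hc : Commute P ρ) (m : ℕ) : D (P ^ (m + 1)) = 2 * ((m : K) + 1) * (ρ * P ^ m) := by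
  induction m with
  | zero => simp [hD]
  | succ m ih =>
    have h1 : P * (2 * ((m : K) + 1) * (ρ * P ^ m)) = 2 * ((m : K) + 1) * (ρ * P ^ (m + 1)) := by
      have h2 : Commute P (2 * ((m : K) + 1)) :=
        ((Commute.ofNat_right P 2).mul_right ((Nat.commute_cast P m).add_right (Commute.one_right P)))
      rw [← mul_assoc, h2.eq, mul_assoc, ← mul_assoc P ρ, hc.eq, mul_assoc ρ P, ← pow_succ']
    rw [pow_succ' P (m + 1), S.D_mul, hD, hα, ih, h1, mul_assoc 2 ρ]
    push_cast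
    noncomm_ring

lemma pp_pg_shift (M : ℕ → K) (n : ℕ) :
    pg (fun j => M (j + 1)) n + M 0 * M 1 = pg M n + M n * M (n + 1) := by
  unfold pg
  exact (Finset.sum_range_succ' (fun j => M j * M (j + 1)) n).symm.trans
    (Finset.sum_range_succ (fun j => M j * M (j + 1)) n)

/-- PROOF. `pg (N (t + ·)) n = P + ρ N t` with `P = pg N n - ρ N 0` (induction on `t`), so
`N t N (t+1) (pg (N (t+·)) n)^m = N t N (t+1) P^m` and the sum is `(P + ρ N 0) P^m`. `D P = 2 ρ`,
`D (N 0 P^(m+1)) = P^(m+1) + 2(m+1) ρ N 0 P^m`. `pp_abel` with `y m = N 0 P^m`; `L (ρ N 0) = - L 1`. -/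
theorem P1 (S : SupRing k b c K f α D L ρ deg) (n : ℕ) (v : ℕ → Γ)
    (hv : ∀ j, f (nn (v (j + n))) = f (nn (v j)) + ρ) (hk : 0 < k) :
    ∑ t ∈ Finset.range n, ∑ m ∈ Finset.range k,
      GG k m * L (exE m n fun j => f (nn (v (t + j)))) = GG k 0 * L 1 := by
  set N : ℕ → K := fun j => f (nn (v j)) with hNdef
  have hp : ∀ j, N (j + n) = N j + ρ := hv
  have anti : ∀ i j, N i * N j = -(N j * N i) := fun i j => S.anti _ _
  have sqr : ∀ i, N i * N i = 0 := fun i => S.sq _
  have hρ : ρ = N n - N 0 := by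
    have h := hp 0
    rw [zero_add] at h
    rw [h]
    abel
  have rN : ∀ j, ρ * N j = -(N j * ρ) := by
    intro j
    rw [hρ, sub_mul, mul_sub, anti n j, anti 0 j]
    abel
  have rr : ρ * ρ = 0 := by
    rw [hρ, sub_mul, mul_sub, mul_sub, sqr, sqr, anti 0 n]
    abel
  have hdN : ∀ j, N j ∈ deg 1 := fun j => S.nn_deg _
  have hdρ : ρ ∈ deg 1 := by
    rw [hρ]
    exact sub_mem (hdN n) (hdN 0)
  have hαN : ∀ j, α (N j) = - N j := fun j => S.α_nn _
  have hDN : ∀ j, D (N j) = 1 := fun j => S.D_nn _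
  have hαρ : α ρ = - ρ := by
    rw [hρ, map_sub, hαN, hαN]
    abel
  have hDρ : D ρ = 0 := by
    rw [hρ, map_sub, hDN, hDN, sub_self]
  have c2 : ∀ i j l, Commute (N i * N j) (N l) := by
    intro i j l
    show N i * N j * N l = N l * (N i * N j)
    rw [mul_assoc, anti j l, mul_neg, ← mul_assoc, anti i l, neg_mul, neg_neg, mul_assoc]
  have cr : ∀ j l, Commute (ρ * N j) (N l) := by
    intro j l
    show ρ * N j * N l = N l * (ρ * N j)
    rw [mul_assoc, anti j l, mul_neg, ← mul_assoc, rN l, neg_mul, neg_neg, mul_assoc]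
  set P : K := pg N n - ρ * N 0 with hP
  have cP : ∀ l, Commute P (N l) := by
    intro l
    rw [hP]
    refine Commute.sub_left ?_ (cr 0 l)
    unfold pg
    exact Commute.sum_left _ _ _ fun j _ => c2 j (j + 1) l
  have cPρ : Commute P ρ := by
    rw [hρ]
    exact (cP n).sub_right (cP 0)
  have hαP : α P = P := by
    rw [hP, map_sub, map_mul, hαρ, hαN, neg_mul_neg]
    congr 1
    unfold pg
    rw [map_sum]
    refine Finset.sum_congr rfl fun j _ => ?_
    rw [map_mul, hαN, hαN, neg_mul_neg]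
  have hDP : D P = 2 * ρ := by
    have h1 : D (pg N n) = ρ := by
      unfold pg
      rw [map_sum, hρ, ← Finset.sum_range_sub N n]
      refine Finset.sum_congr rfl fun j _ => ?_
      rw [S.D_mul, hDN, hDN, hαN, one_mul, mul_one, sub_eq_add_neg]
    rw [hP, map_sub, h1, S.D_mul, hDρ, hαρ, hDN, zero_mul, zero_add, mul_one, sub_neg_eq_add,
      two_mul]
  have hdP : P ∈ deg 2 := by
    rw [hP]
    refine sub_mem ?_ (S.mul_deg 1 1 _ _ hdρ (hdN 0))
    unfold pg
    exact sum_mem fun j _ => S.mul_deg 1 1 _ _ (hdN j) (hdN (j + 1))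
  have key : ∀ t, pg (fun j => N (t + j)) n = P + ρ * N t := by
    intro t
    induction t with
    | zero =>
      simp only [zero_add]
      rw [hP]
      abel
    | succ t ih =>
      have h1 := pp_pg_shift (fun j => N (t + j)) n
      have h2 : (fun j => N (t + 1 + j)) = fun j => (fun j => N (t + j)) (j + 1) := by
        funext j
        show N (t + 1 + j) = N (t + (j + 1))
        rw [add_assoc, add_comm 1 j]
      have h3 : N (t + (n + 1)) = N (t + 1) + ρ := by
        rw [← hp (t + 1)]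
        congr 1
        omega
      rw [h2]
      rw [ih] at h1
      have h4 : pg (fun j => (fun j => N (t + j)) (j + 1)) n + N (t + 0) * N (t + 1) =
          P + ρ * N t + N (t + n) * N (t + (n + 1)) := h1
      rw [h3, hp t, add_zero, add_mul, mul_add, mul_add, rr, rN t] at h4
      have h5 : pg (fun j => (fun j => N (t + j)) (j + 1)) n =
        (P + -(N t * ρ) + (N t * N (t + 1) + N t * ρ + (ρ * N (t + 1) + 0))) - N t * N (t + 1) :=
        eq_sub_of_add_eq h4
      rw [h5]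
      abel
  have hmul : ∀ t m, N t * N (t + 1) * (P + ρ * N t) ^ m = N t * N (t + 1) * P ^ m := by
    intro t m
    induction m with
    | zero => simp
    | succ m ih =>
      have h1 : Commute (P ^ m) (ρ * N t) := (cPρ.mul_right (cP t)).pow_left m
      have h2 : N t * N (t + 1) * (ρ * N t) = 0 := by
        have h3 : Commute (ρ * N t) (N t * N (t + 1)) := (cr t t).mul_right (cr t (t + 1))
        rw [← h3.eq, mul_assoc ρ, ← mul_assoc (N t), sqr, zero_mul, mul_zero]
      rw [pow_succ (P + ρ * N t) m, ← mul_assoc, ih, mul_add, mul_assoc (N t * N (t + 1)) (P ^ m) P,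
        ← pow_succ, mul_assoc (N t * N (t + 1)) (P ^ m), h1.eq, ← mul_assoc, h2, zero_mul, add_zero]
  rw [Finset.sum_comm]
  have hsum : ∀ m, ∑ t ∈ Finset.range n, GG k m * L (exE m n fun j => f (nn (v (t + j)))) =
      GG k m * L (P ^ (m + 1) + ρ * N 0 * P ^ m) := by
    intro m
    rw [← Finset.mul_sum, ← map_sum]
    congr 2
    have h1 : ∀ t ∈ Finset.range n, (exE m n fun j => f (nn (v (t + j)))) =
        N t * N (t + 1) * P ^ m := by
      intro t _
      have h2 : (exE m n fun j => f (nn (v (t + j)))) =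
          N (t + 0) * N (t + 1) * (pg (fun j => N (t + j)) n) ^ m := rfl
      rw [h2, key t, add_zero, hmul]
    rw [Finset.sum_congr rfl h1, ← Finset.sum_mul]
    have h3 : ∑ i ∈ Finset.range n, N i * N (i + 1) = P + ρ * N 0 := by
      rw [hP]
      show pg N n = _
      abel
    rw [h3, add_mul, ← pow_succ']
  rw [Finset.sum_congr rfl fun m _ => hsum m]
  have hab := pp_abel S (fun m => N 0 * P ^ m)
    (by
      have h1 := S.mul_deg 1 (1 + 2 * k) _ _ hdρ (S.mul_deg 1 (2 * k) _ _ (hdN 0) (pp_pow_mem S hdP k))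
      have h2 : 1 + (1 + 2 * k) = 2 * k + 2 := by omega
      rwa [h2] at h1)
    (fun m => P ^ (m + 1) + ρ * N 0 * P ^ m)
    (by
      intro m _
      show P ^ (m + 1) + ρ * N 0 * P ^ m =
        D (N 0 * P ^ (m + 1)) - (2 * (m : K) + 1) * (ρ * (N 0 * P ^ m))
      have h1 : N 0 * (2 * ((m : K) + 1) * (ρ * P ^ m)) =
          - (2 * ((m : K) + 1) * (ρ * N 0 * P ^ m)) := by
        have h2 : Commute (N 0) (2 * ((m : K) + 1)) :=
          ((Commute.ofNat_right (N 0) 2).mul_right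
            ((Nat.commute_cast (N 0) m).add_right (Commute.one_right (N 0))))
        rw [← mul_assoc, h2.eq, mul_assoc, ← mul_assoc (N 0) ρ, rN 0, neg_mul, mul_neg, neg_neg]
      rw [S.D_mul, hDN, hαN, one_mul, pp_D_pow S hDP hαP cPρ m, neg_mul, h1, neg_neg,
        ← mul_assoc ρ (N 0)]
      generalize ρ * N 0 * P ^ m = Z
      noncomm_ring)
  rw [hab]
  have h0 : L (ρ * (N 0 * P ^ 0)) = - L 1 := by
    rw [pow_zero, mul_one, ← hDN 0, pp_LD S, neg_neg]
  show - (GG k 0 * L (ρ * (N 0 * P ^ 0))) = _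
  rw [h0]
  ring

end Pool.Agent.Lib.MP_8f66f0_al_Mixed
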