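import Mathlib
import Pool.Agent.Lib.MP_8f66f0_al_ChernS.Abs
import Pool.Agent.Lib.MP_8f66f0_al_Mixed.PP

/-! # P2 in a mixed ring. -/

set_option autoImplicit false
set_option linter.unusedSectionVars false
set_option linter.unusedVariables false

namespace Pool.Agent.Lib.MP_8f66f0_al_Mixed

open Pool.Agent.Lib.MP_8f66f0_al_FinQ Pool.Agent.Lib.MP_8f66f0_al_Uni
  Pool.Agent.Lib.MP_8f66f0_al_ChernS

/-! ## Abstract context -/

section ctx

variable {K : Type*} [Ring K]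

/-- odd elements `V`, the odd derivation `D`, the even element `ρ` in `V` with `D ρ = 0` -/
structure p2_Ctx (V : AddSubgroup K) (α : K →+* K) (D : K →+ K) (ρ : K) : Prop where
  anti : ∀ x ∈ V, ∀ y ∈ V, x * y = -(y * x)
  sq : ∀ x ∈ V, x * x = 0
  al : ∀ x ∈ V, α x = -x
  D_mul : ∀ x y, D (x * y) = D x * y + α x * D y
  rho : ρ ∈ V
  D_rho : D ρ = 0

variable {V : AddSubgroup K} {α : K →+* K} {D : K →+ K} {ρ : K}

/-- even elements -/
structure p2_Ev (V : AddSubgroup K) (α : K →+* K) (x : K) : Prop where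
  cen : ∀ z ∈ V, Commute x z
  al : α x = x
  mem : x ∈ Subring.closure (V : Set K)

/-- odd elements -/
structure p2_Od (V : AddSubgroup K) (α : K →+* K) (x : K) : Prop where
  ant : ∀ z ∈ V, x * z = -(z * x)
  al : α x = -x
  mem : x ∈ Subring.closure (V : Set K)

lemma p2_Ev.comm_mem {x y : K} (hx : p2_Ev V α x) (hy : y ∈ Subring.closure (V : Set K)) :
    Commute x y := by
  induction hy using Subring.closure_induction with
  | mem z hz => exact hx.cen z hz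
  | zero => exact Commute.zero_right x
  | one => exact Commute.one_right x
  | add a b _ _ ha hb => exact ha.add_right hb
  | neg a _ ha => exact ha.neg_right
  | mul a b _ _ ha hb => exact ha.mul_right hb

lemma p2_Ev.comm {x y : K} (hx : p2_Ev V α x) (hy : p2_Ev V α y) : Commute x y :=
  hx.comm_mem hy.mem

lemma p2_Ev.comm_od {x y : K} (hx : p2_Ev V α x) (hy : p2_Od V α y) : Commute x y :=
  hx.comm_mem hy.mem

lemma p2_Ev.one : p2_Ev V α (1 : K) :=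
  ⟨fun z _ => Commute.one_left z, map_one α, one_mem _⟩

lemma p2_Ev.zero : p2_Ev V α (0 : K) :=
  ⟨fun z _ => Commute.zero_left z, map_zero α, zero_mem _⟩

lemma p2_Ev.add {x y : K} (hx : p2_Ev V α x) (hy : p2_Ev V α y) : p2_Ev V α (x + y) :=
  ⟨fun z hz => (hx.cen z hz).add_left (hy.cen z hz), by rw [map_add, hx.al, hy.al],
    add_mem hx.mem hy.mem⟩

lemma p2_Ev.sub {x y : K} (hx : p2_Ev V α x) (hy : p2_Ev V α y) : p2_Ev V α (x - y) :=
  ⟨fun z hz => (hx.cen z hz).sub_left (hy.cen z hz), by rw [map_sub, hx.al, hy.al],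
    sub_mem hx.mem hy.mem⟩

lemma p2_Ev.mul {x y : K} (hx : p2_Ev V α x) (hy : p2_Ev V α y) : p2_Ev V α (x * y) :=
  ⟨fun z hz => (hx.cen z hz).mul_left (hy.cen z hz), by rw [map_mul, hx.al, hy.al],
    mul_mem hx.mem hy.mem⟩

lemma p2_Ev.pow {x : K} (hx : p2_Ev V α x) (n : ℕ) : p2_Ev V α (x ^ n) := by
  induction n with
  | zero => rw [pow_zero]; exact p2_Ev.one
  | succ n ih => rw [pow_succ]; exact ih.mul hx

lemma p2_Ev.sum {ι : Type*} (s : Finset ι) (g : ι → K) (h : ∀ i ∈ s, p2_Ev V α (g i)) :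
    p2_Ev V α (∑ i ∈ s, g i) := by
  classical
  induction s using Finset.induction_on with
  | empty => rw [Finset.sum_empty]; exact p2_Ev.zero
  | insert i s hi ih =>
    rw [Finset.sum_insert hi]
    exact (h i (Finset.mem_insert_self i s)).add
      (ih fun j hj => h j (Finset.mem_insert_of_mem hj))

lemma p2_Ev.hhm {x y : K} (hx : p2_Ev V α x) (hy : p2_Ev V α y) (n : ℕ) :
    p2_Ev V α (hh n x y) := by
  unfold hh
  exact p2_Ev.sum _ _ fun i _ => (hx.pow i).mul (hy.pow _)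

lemma p2_Od.zero : p2_Od V α (0 : K) :=
  ⟨fun z _ => by rw [zero_mul, mul_zero, neg_zero], by rw [map_zero, neg_zero], zero_mem _⟩

lemma p2_Od.add {x y : K} (hx : p2_Od V α x) (hy : p2_Od V α y) : p2_Od V α (x + y) :=
  ⟨fun z hz => by rw [add_mul, hx.ant z hz, hy.ant z hz, mul_add, neg_add],
    by rw [map_add, hx.al, hy.al, neg_add], add_mem hx.mem hy.mem⟩

lemma p2_Od.mul_ev {x y : K} (hx : p2_Od V α x) (hy : p2_Ev V α y) : p2_Od V α (x * y) :=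
  ⟨fun z hz => by rw [mul_assoc, (hy.cen z hz).eq, ← mul_assoc, hx.ant z hz, neg_mul, mul_assoc],
    by rw [map_mul, hx.al, hy.al, neg_mul], mul_mem hx.mem hy.mem⟩

lemma p2_Od.neg {x : K} (hx : p2_Od V α x) : p2_Od V α (-x) :=
  ⟨fun z hz => by rw [neg_mul, hx.ant z hz, mul_neg], by rw [map_neg, hx.al],
    neg_mem hx.mem⟩

lemma p2_Od.sum {ι : Type*} (s : Finset ι) (g : ι → K) (h : ∀ i ∈ s, p2_Od V α (g i)) :
    p2_Od V α (∑ i ∈ s, g i) := by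
  classical
  induction s using Finset.induction_on with
  | empty => rw [Finset.sum_empty]; exact p2_Od.zero
  | insert i s hi ih =>
    rw [Finset.sum_insert hi]
    exact (h i (Finset.mem_insert_self i s)).add
      (ih fun j hj => h j (Finset.mem_insert_of_mem hj))

lemma p2_Od.zsmul {x : K} (hx : p2_Od V α x) (n : ℤ) : p2_Od V α (n • x) :=
  ⟨fun z hz => by rw [smul_mul_assoc, hx.ant z hz, mul_smul_comm, smul_neg],
    by rw [map_zsmul, hx.al, smul_neg], zsmul_mem hx.mem n⟩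

namespace p2_Ctx

variable (C : p2_Ctx V α D ρ)

include C

lemma od {x : K} (hx : x ∈ V) : p2_Od V α x :=
  ⟨fun z hz => C.anti x hx z hz, C.al x hx, Subring.subset_closure hx⟩

lemma ev2 {x y : K} (hx : x ∈ V) (hy : y ∈ V) : p2_Ev V α (x * y) :=
  ⟨fun z hz => by
    change x * y * z = z * (x * y)
    rw [mul_assoc, C.anti y hy z hz, mul_neg, ← mul_assoc, C.anti x hx z hz, neg_mul, neg_neg,
      mul_assoc], by rw [map_mul, C.al x hx, C.al y hy, neg_mul_neg],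
    mul_mem (Subring.subset_closure hx) (Subring.subset_closure hy)⟩

lemma od3 {x y z : K} (hx : x ∈ V) (hy : y ∈ V) (hz : z ∈ V) : p2_Od V α (x * y * z) := by
  rw [(C.ev2 hx hy).cen z hz]
  exact (C.od hz).mul_ev (C.ev2 hx hy)

lemma D_one : D 1 = 0 := by
  have h := C.D_mul 1 1
  rw [mul_one, map_one α, one_mul, mul_one] at h
  exact left_eq_add.mp h

lemma rho_sq : ρ * ρ = 0 := C.sq ρ C.rho

/-- `x * ρ = - ρ * x` for odd `x` -/
lemma od_rho {x : K} (hx : p2_Od V α x) : x * ρ = -(ρ * x) := hx.ant ρ C.rho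

lemma ev_rho {x : K} (hx : p2_Ev V α x) : x * ρ = ρ * x := hx.cen ρ C.rho

lemma D_pow {X : K} (hX : p2_Ev V α X) (hD : D X = (2 : ℤ) • ρ) (n : ℕ) :
    D (X ^ n) = (2 * (n : ℤ)) • (ρ * X ^ (n - 1)) := by
  induction n with
  | zero => rw [pow_zero, C.D_one]; simp
  | succ n ih =>
    rw [pow_succ, C.D_mul, ih, (hX.pow n).al, hD, Nat.add_sub_cancel]
    have h1 : (2 * (n : ℤ)) • (ρ * X ^ (n - 1)) * X = (2 * (n : ℤ)) • (ρ * X ^ n) := by
      rcases n with _ | n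
      · simp
      · rw [Nat.add_sub_cancel, smul_mul_assoc, mul_assoc, ← pow_succ]
    have h2 : X ^ n * (2 : ℤ) • ρ = (2 : ℤ) • (ρ * X ^ n) := by
      rw [mul_smul_comm, C.ev_rho (hX.pow n)]
    rw [h1, h2]
    push_cast
    module

end p2_Ctx

lemma p2_hh_zero (x y : K) : hh 0 x y = 0 := by simp [hh]

lemma p2_hh_succ (n : ℕ) (x y : K) : hh (n + 1) x y = y ^ n + x * hh n x y := by
  unfold hh
  rw [Finset.sum_range_succ', Finset.mul_sum, add_comm]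
  congr 1
  · simp
  · refine Finset.sum_congr rfl fun i hi => ?_
    have hi' := Finset.mem_range.1 hi
    rw [pow_succ', mul_assoc]
    congr 3
    omega

lemma p2_hh_mul {x y : K} (h : Commute x y) (n : ℕ) : (y - x) * hh n x y = y ^ n - x ^ n := by
  induction n with
  | zero => simp [hh]
  | succ n ih =>
    have h1 : (y - x) * x = x * (y - x) := by
      rw [sub_mul, mul_sub, h.eq]
    rw [p2_hh_succ, mul_add, ← mul_assoc, h1, mul_assoc, ih, sub_mul, mul_sub, ← pow_succ',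
      ← pow_succ']
    abel

lemma p2_abs_pow {x X ε : K} (h : Commute X ε) (hx : x * ε = 0) (n : ℕ) :
    x * (X + ε) ^ n = x * X ^ n := by
  induction n with
  | zero => simp
  | succ n ih =>
    rw [pow_succ, ← mul_assoc, ih, mul_add, mul_assoc, ← pow_succ, mul_assoc,
      (h.pow_left n).eq, ← mul_assoc x ε, hx, zero_mul, add_zero]

lemma p2_abs_hh {x X Y ε : K} (hX : Commute X ε) (hY : Commute Y ε) (hx : x * ε = 0) (n : ℕ) :
    x * hh n (X + ε) (Y + ε) = x * hh n X Y := by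
  unfold hh
  rw [Finset.mul_sum, Finset.mul_sum]
  refine Finset.sum_congr rfl fun i _ => ?_
  rw [← mul_assoc, p2_abs_pow hX hx, p2_abs_pow hY, mul_assoc]
  rw [mul_assoc, (hX.pow_left i).eq, ← mul_assoc, hx, zero_mul]

lemma p2_Ctx.D_hh (C : p2_Ctx V α D ρ) {X Y : K} (hX : p2_Ev V α X) (hY : p2_Ev V α Y)
    (hDX : D X = (2 : ℤ) • ρ) (hDY : D Y = (2 : ℤ) • ρ) (n : ℕ) :
    D (hh n X Y) = (2 * (n : ℤ)) • (ρ * hh (n - 1) X Y) := by
  induction n with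
  | zero => rw [p2_hh_zero]; simp
  | succ n ih =>
    rw [p2_hh_succ, map_add, C.D_mul, ih, hX.al, hDX, C.D_pow hY hDY, Nat.add_sub_cancel]
    rcases n with _ | n
    · rw [p2_hh_zero]
      simp
    · have h1 : X * (2 * ((n + 1 : ℕ) : ℤ)) • (ρ * hh (n + 1 - 1) X Y) =
          (2 * ((n + 1 : ℕ) : ℤ)) • (ρ * (X * hh n X Y)) := by
        rw [mul_smul_comm, Nat.add_sub_cancel, ← mul_assoc, C.ev_rho hX, mul_assoc]
      rw [h1, smul_mul_assoc, Nat.add_sub_cancel]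
      have h2 : ρ * hh (n + 1) X Y = ρ * Y ^ n + ρ * (X * hh n X Y) := by
        rw [p2_hh_succ, mul_add]
      rw [h2]
      push_cast
      module

end ctx

/-! ## Sequences of odd elements -/

section seq

variable {K : Type*} [Ring K]

/-- admissible sequences -/
structure p2_Seq (V : AddSubgroup K) (D : K →+ K) (ρ : K) (Q : ℕ) (N : ℕ → K) : Prop where
  mem : ∀ j, N j ∈ V
  D_one : ∀ j, D (N j) = 1
  per : ∀ j, N (j + 2 * Q) = N j + ρ

/-- the normalised polygon -/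
def p2_P (ρ : K) (Q : ℕ) (N : ℕ → K) : K := pg N (2 * Q) - ρ * N 0

/-- the normalised even polygon -/
def p2_A (ρ : K) (Q : ℕ) (N : ℕ → K) : K := pg (fun j => N (2 * j)) Q - ρ * N 0

/-- the primitive -/
def p2_Y (ρ : K) (Q : ℕ) (N : ℕ → K) : ℕ → K
  | 0 => 0
  | m + 1 => (2 : ℤ) • (N 0 * N 1 * N 2 * p2_P ρ Q N ^ m) +
      (2 : ℤ) • (N 0 * N 2 * tri N Q * hh m (p2_A ρ Q N) (p2_P ρ Q N)) -
      ρ * (N 0 * N 2) * (p2_P ρ Q N ^ m - p2_A ρ Q N ^ m)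

/-- half of `exG` -/
def p2_W (m Q : ℕ) (N : ℕ → K) : K := exV m Q N - 2 * (N 0 * hmt m Q N)

variable {V : AddSubgroup K} {α : K →+* K} {D : K →+ K} {ρ : K} {Q : ℕ} {N : ℕ → K}

lemma p2_Seq.shift (h : p2_Seq V D ρ Q N) (i : ℕ) : p2_Seq V D ρ Q (fun j => N (j + i)) :=
  ⟨fun j => h.mem _, fun j => h.D_one _, fun j => by
    rw [show j + 2 * Q + i = j + i + 2 * Q by omega]
    exact h.per _⟩

lemma p2_sum_shift (g : ℕ → K) (n : ℕ) :
    ∑ j ∈ Finset.range n, g (j + 1) = ∑ j ∈ Finset.range n, g j + g n - g 0 := by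
  have h1 := Finset.sum_range_succ g n
  have h2 := Finset.sum_range_succ' g n
  rw [h1] at h2
  rw [h2, add_sub_cancel_right]

lemma p2_pg_shift (C : p2_Ctx V α D ρ) {M : ℕ → K} (hM : ∀ j, M j ∈ V) {n : ℕ}
    (h0 : M n = M 0 + ρ) (h1 : M (n + 1) = M 1 + ρ) :
    pg (fun j => M (j + 1)) n - ρ * M 1 = pg M n - ρ * M 0 := by
  have e : pg (fun j => M (j + 1)) n = pg M n + M n * M (n + 1) - M 0 * M 1 :=
    p2_sum_shift (fun j => M j * M (j + 1)) n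
  rw [e, h0, h1, add_mul, mul_add, mul_add, C.rho_sq, C.od_rho (C.od (hM 0))]
  abel

lemma p2_P_shift (C : p2_Ctx V α D ρ) (h : p2_Seq V D ρ Q N) :
    p2_P ρ Q (fun j => N (j + 1)) = p2_P ρ Q N := by
  unfold p2_P
  refine p2_pg_shift C h.mem ?_ ?_
  · have := h.per 0
    rwa [zero_add] at this
  · have := h.per 1
    rwa [add_comm 1 (2 * Q)] at this

lemma p2_P_shift2 (C : p2_Ctx V α D ρ) (h : p2_Seq V D ρ Q N) :
    p2_P ρ Q (fun j => N (j + 2)) = p2_P ρ Q N :=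
  (p2_P_shift C (h.shift 1)).trans (p2_P_shift C h)

lemma p2_A_shift (C : p2_Ctx V α D ρ) (h : p2_Seq V D ρ Q N) :
    p2_A ρ Q (fun j => N (j + 2)) = p2_A ρ Q N := by
  refine p2_pg_shift (M := fun j => N (2 * j)) C (fun j => h.mem _) ?_ ?_
  · have := h.per 0
    rwa [zero_add] at this
  · have := h.per 2
    rwa [add_comm 2 (2 * Q)] at this

lemma p2_ev_pg (C : p2_Ctx V α D ρ) {M : ℕ → K} (hM : ∀ j, M j ∈ V) (n : ℕ) :
    p2_Ev V α (pg M n) :=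
  p2_Ev.sum _ _ fun j _ => C.ev2 (hM j) (hM (j + 1))

lemma p2_ev_P (C : p2_Ctx V α D ρ) (h : p2_Seq V D ρ Q N) : p2_Ev V α (p2_P ρ Q N) :=
  (p2_ev_pg C h.mem _).sub (C.ev2 C.rho (h.mem 0))

lemma p2_ev_A (C : p2_Ctx V α D ρ) (h : p2_Seq V D ρ Q N) : p2_Ev V α (p2_A ρ Q N) :=
  (p2_ev_pg C (fun j => h.mem (2 * j)) _).sub (C.ev2 C.rho (h.mem 0))

lemma p2_D_pg (C : p2_Ctx V α D ρ) {M : ℕ → K} (hM : ∀ j, M j ∈ V) (hD : ∀ j, D (M j) = 1)
    (n : ℕ) : D (pg M n) = M n - M 0 := by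
  unfold pg
  rw [map_sum, ← Finset.sum_range_sub]
  refine Finset.sum_congr rfl fun j _ => ?_
  rw [C.D_mul, hD, hD, C.al _ (hM j), one_mul, mul_one, sub_eq_add_neg]

lemma p2_D_rho (C : p2_Ctx V α D ρ) (x : K) : D (ρ * x) = -(ρ * D x) := by
  rw [C.D_mul, C.D_rho, C.al _ C.rho, zero_mul, zero_add, neg_mul]

lemma p2_D_P (C : p2_Ctx V α D ρ) (h : p2_Seq V D ρ Q N) : D (p2_P ρ Q N) = (2 : ℤ) • ρ := by
  unfold p2_P
  have h1 : N (2 * Q) = N 0 + ρ := by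
    have := h.per 0
    rwa [zero_add] at this
  rw [map_sub, p2_D_pg C h.mem h.D_one, p2_D_rho C, h.D_one, h1, mul_one]
  module

lemma p2_D_A (C : p2_Ctx V α D ρ) (h : p2_Seq V D ρ Q N) : D (p2_A ρ Q N) = (2 : ℤ) • ρ := by
  unfold p2_A
  have h1 : N (2 * Q) = N 0 + ρ := by
    have := h.per 0
    rwa [zero_add] at this
  have h2 := p2_D_pg C (fun j => h.mem (2 * j)) (fun j => h.D_one (2 * j)) Q
  rw [map_sub, h2, p2_D_rho C, h.D_one, h1, mul_one, mul_zero]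
  module

lemma p2_od_tri (C : p2_Ctx V α D ρ) (h : p2_Seq V D ρ Q N) : p2_Od V α (tri N Q) :=
  p2_Od.sum _ _ fun t _ => C.od3 (h.mem _) (h.mem _) (h.mem _)

lemma p2_D3 (C : p2_Ctx V α D ρ) {x y z : K} (hx : x ∈ V) (hy : y ∈ V) (hz : z ∈ V)
    (dx : D x = 1) (dy : D y = 1) (dz : D z = 1) :
    D (x * y * z) = y * z - x * z + x * y := by
  rw [C.D_mul, C.D_mul, dx, dy, dz, (C.ev2 hx hy).al, C.al x hx, one_mul, mul_one, mul_one,
    add_mul, neg_mul, sub_eq_add_neg]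

lemma p2_D_tri (C : p2_Ctx V α D ρ) (h : p2_Seq V D ρ Q N) :
    D (tri N Q) = p2_P ρ Q N - p2_A ρ Q N := by
  unfold p2_P p2_A
  rw [sub_sub_sub_cancel_right, abs_pg_two]
  unfold tri pg
  rw [map_sum, ← Finset.sum_sub_distrib]
  refine Finset.sum_congr rfl fun t _ => ?_
  rw [p2_D3 C (h.mem _) (h.mem _) (h.mem _) (h.D_one _) (h.D_one _) (h.D_one _)]
  change _ = N (2 * t) * N (2 * t + 1) + N (2 * t + 1) * N (2 * t + 2) - N (2 * t) * N (2 * (t + 1))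
  rw [show 2 * (t + 1) = 2 * t + 2 from rfl]
  abel

lemma p2_od_Om (C : p2_Ctx V α D ρ) (h : p2_Seq V D ρ Q N) : p2_Od V α (Om Q N) := by
  unfold Om
  refine p2_Od.sum _ _ fun t _ => p2_Od.sum _ _ fun s _ => p2_Od.zsmul ?_ _
  exact (C.od3 (h.mem _) (h.mem _) (h.mem _)).mul_ev (C.ev2 (h.mem _) (h.mem _))

/-- `x * (ρ * N 0) = 0` persists -/
lemma p2_kill (C : p2_Ctx V α D ρ) {y w : K} {z : K} (hz : z ∈ V) (hy : y * (ρ * z) = 0)
    (hw : w ∈ Subring.closure (V : Set K)) : y * w * (ρ * z) = 0 := by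
  rw [mul_assoc, ← ((C.ev2 C.rho hz).comm_mem hw).eq, ← mul_assoc, hy, zero_mul]

lemma p2_kill_self (C : p2_Ctx V α D ρ) {z : K} (hz : z ∈ V) : z * (ρ * z) = 0 := by
  rw [← mul_assoc, C.od_rho (C.od hz), neg_mul, mul_assoc, C.sq z hz, mul_zero, neg_zero]

lemma p2_kill_rho (C : p2_Ctx V α D ρ) (z : K) : ρ * (ρ * z) = 0 := by
  rw [← mul_assoc, C.rho_sq, zero_mul]

lemma p2_hmt (C : p2_Ctx V α D ρ) (h : p2_Seq V D ρ Q N) (m : ℕ) :
    N 0 * hmt m Q N = N 0 * tri N Q * hh m (p2_A ρ Q N) (p2_P ρ Q N) := by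
  have e1 : hmt m Q N = tri N Q * hh m (p2_A ρ Q N + ρ * N 0) (p2_P ρ Q N + ρ * N 0) := by
    unfold p2_A p2_P
    rw [sub_add_cancel, sub_add_cancel]
    rfl
  have hε := C.ev2 C.rho (h.mem 0)
  rw [e1, ← mul_assoc]
  exact p2_abs_hh ((p2_ev_A C h).comm hε) ((p2_ev_P C h).comm hε)
    (p2_kill C (h.mem 0) (p2_kill_self C (h.mem 0)) (p2_od_tri C h).mem) m

lemma p2_exV (C : p2_Ctx V α D ρ) (h : p2_Seq V D ρ Q N) (m : ℕ) :
    exV m Q N = ρ * Om Q N * hh (m - 1) (p2_A ρ Q N) (p2_P ρ Q N) -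
      (ρ * N 0 * p2_P ρ Q N ^ m - ρ * N 0 * p2_A ρ Q N ^ m) := by
  have h1 : N (2 * Q) - N 0 = ρ := by
    have := h.per 0
    rw [zero_add] at this
    rw [this, add_sub_cancel_left]
  have hε := C.ev2 C.rho (h.mem 0)
  have eP : pg N (2 * Q) = p2_P ρ Q N + ρ * N 0 := by rw [p2_P, sub_add_cancel]
  have eA : pg (fun j => N (2 * j)) Q = p2_A ρ Q N + ρ * N 0 := by rw [p2_A, sub_add_cancel]
  unfold exV
  rw [h1, eP, eA, mul_sub, ← mul_assoc, mul_sub, mul_sub, ← mul_assoc, ← mul_assoc,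
    p2_abs_hh ((p2_ev_A C h).comm hε) ((p2_ev_P C h).comm hε)
      (p2_kill C (h.mem 0) (p2_kill_rho C _) (p2_od_Om C h).mem),
    p2_abs_pow ((p2_ev_P C h).comm hε)
      (p2_kill C (h.mem 0) (p2_kill_rho C _) (Subring.subset_closure (h.mem 0))),
    p2_abs_pow ((p2_ev_A C h).comm hε)
      (p2_kill C (h.mem 0) (p2_kill_rho C _) (Subring.subset_closure (h.mem 0)))]

lemma p2_exE (C : p2_Ctx V α D ρ) (h : p2_Seq V D ρ Q N) (m : ℕ) :
    exE m (2 * Q) N = N 0 * N 1 * p2_P ρ Q N ^ m := by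
  have hε := C.ev2 C.rho (h.mem 0)
  have eP : pg N (2 * Q) = p2_P ρ Q N + ρ * N 0 := by rw [p2_P, sub_add_cancel]
  unfold exE
  rw [eP, p2_abs_pow ((p2_ev_P C h).comm hε)
    (p2_kill C (h.mem 0) (p2_kill_self C (h.mem 0)) (Subring.subset_closure (h.mem 1)))]

lemma p2_exE2 (C : p2_Ctx V α D ρ) (h : p2_Seq V D ρ Q N) (m : ℕ) :
    exE m Q (fun j => N (2 * j)) = N 0 * N 2 * p2_A ρ Q N ^ m := by
  have hε := C.ev2 C.rho (h.mem 0)
  have eA : pg (fun j => N (2 * j)) Q = p2_A ρ Q N + ρ * N 0 := by rw [p2_A, sub_add_cancel]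
  unfold exE
  rw [eA]
  exact p2_abs_pow ((p2_ev_A C h).comm hε)
    (p2_kill C (h.mem 0) (p2_kill_self C (h.mem 0)) (Subring.subset_closure (h.mem 2))) m

lemma p2_mod3 (C : p2_Ctx V α D ρ) {x y z : K} (hx : x ∈ V) (hy : y ∈ V) (hz : z ∈ V) :
    ρ * ((x + ρ) * (y + ρ) * (z + ρ)) = ρ * (x * y * z) := by
  have h1 : ρ * (x + ρ) = ρ * x := by rw [mul_add, C.rho_sq, add_zero]
  have h2 : ρ * x * (y + ρ) = ρ * (x * y) := by
    rw [mul_add, mul_assoc ρ x ρ, C.od_rho (C.od hx), mul_neg, ← mul_assoc ρ ρ x, C.rho_sq,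
      zero_mul, neg_zero, add_zero, mul_assoc]
  have h3 : ρ * (x * y) * (z + ρ) = ρ * (x * y * z) := by
    rw [mul_add, mul_assoc ρ (x * y) ρ, C.ev_rho (C.ev2 hx hy), ← mul_assoc ρ ρ, C.rho_sq,
      zero_mul, add_zero, mul_assoc ρ (x * y) z]
  rw [← mul_assoc, ← mul_assoc, h1, h2, h3]

lemma p2_mod2 (C : p2_Ctx V α D ρ) {w x y : K} (hw : p2_Od V α w) (hx : x ∈ V) (hy : y ∈ V) :
    ρ * w * ((x + ρ) * (y + ρ)) = ρ * w * (x * y) := by
  have h1 : (x + ρ) * (y + ρ) = x * y + ρ * (y - x) := by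
    rw [add_mul, mul_add, mul_add, C.rho_sq, C.od_rho (C.od hx), mul_sub]
    abel
  have h2 : ρ * w * (ρ * (y - x)) = 0 := by
    rw [mul_assoc ρ w, ← mul_assoc w ρ, C.od_rho hw, neg_mul, mul_assoc ρ w, mul_neg,
      ← mul_assoc ρ ρ, C.rho_sq, zero_mul, neg_zero]
  rw [h1, mul_add, h2, add_zero]

lemma p2_tri3 (C : p2_Ctx V α D ρ) {x y z : K} (hx : x ∈ V) (hy : y ∈ V) (hz : z ∈ V) :
    z * ((x + ρ) * (y + ρ) * (z + ρ)) = -(ρ * (x * y * z)) := by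
  have hx' : x + ρ ∈ V := add_mem hx C.rho
  have hy' : y + ρ ∈ V := add_mem hy C.rho
  have e1 : z * ((x + ρ) * (y + ρ) * (z + ρ)) = (x + ρ) * (y + ρ) * (z * ρ) := by
    rw [← mul_assoc, ← ((C.ev2 hx' hy').cen z hz).eq, mul_assoc, mul_add z z ρ, C.sq z hz,
      zero_add]
  have e2 : (x + ρ) * (y + ρ) * ρ = ρ * (x * y) := by
    rw [C.ev_rho (C.ev2 hx' hy'), ← mul_assoc, mul_add ρ x ρ, C.rho_sq, add_zero, mul_add,
      mul_assoc ρ x ρ, C.od_rho (C.od hx), mul_neg, ← mul_assoc ρ ρ x, C.rho_sq, zero_mul,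
      neg_zero, add_zero, mul_assoc]
  rw [e1, C.od_rho (C.od hz), mul_neg, ← mul_assoc, e2, mul_assoc]

lemma p2_tri30 (C : p2_Ctx V α D ρ) {x y z : K} (hx : x ∈ V) (hy : y ∈ V) (hz : z ∈ V) :
    z * (x * y * z) = 0 := by
  rw [← mul_assoc, ← ((C.ev2 hx hy).cen z hz).eq, mul_assoc, C.sq z hz, mul_zero]

lemma p2_taQ (h : p2_Seq V D ρ Q N) : ta N Q = (N 0 + ρ) * (N 1 + ρ) * (N 2 + ρ) := by
  have h0 := h.per 0
  have h1 := h.per 1
  have h2 := h.per 2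
  rw [zero_add] at h0
  rw [add_comm 1] at h1
  rw [add_comm 2] at h2
  unfold ta
  rw [h0, h1, h2]

lemma p2_chQ (h : p2_Seq V D ρ Q N) : ch N Q = (N 0 + ρ) * (N 2 + ρ) := by
  have h0 := h.per 0
  have h2 := h.per 2
  rw [zero_add] at h0
  rw [add_comm 2] at h2
  unfold ch
  rw [h0, h2]

lemma p2_tri_eq (N : ℕ → K) (Q : ℕ) :
    tri (fun j => N (j + 2)) Q = tri N Q + ta N Q - ta N 0 :=
  p2_sum_shift (ta N) Q

lemma p2_T (C : p2_Ctx V α D ρ) (h : p2_Seq V D ρ Q N) :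
    N 2 * tri (fun j => N (j + 2)) Q = N 2 * tri N Q - ρ * (N 0 * N 1 * N 2) := by
  rw [p2_tri_eq, mul_sub, mul_add, p2_taQ h, p2_tri3 C (h.mem 0) (h.mem 1) (h.mem 2)]
  have h0 : N 2 * ta N 0 = 0 := p2_tri30 C (h.mem 0) (h.mem 1) (h.mem 2)
  rw [h0, sub_zero, sub_eq_add_neg]

lemma p2_om_shift (g h : ℕ → K) (Q : ℕ) :
    ∑ t ∈ Finset.range Q, ∑ s ∈ Finset.range Q,
      (Int.sign ((s : ℤ) - (t : ℤ))) • (g (t + 1) * h (s + 1)) =
    ∑ t ∈ Finset.range Q, ∑ s ∈ Finset.range Q, (Int.sign ((s : ℤ) - (t : ℤ))) • (g t * h s) +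
      (∑ t ∈ Finset.range Q, g t) * h Q - g Q * (∑ s ∈ Finset.range Q, h s) +
      (∑ t ∈ Finset.range Q, g (t + 1)) * h 0 - g 0 * (∑ s ∈ Finset.range Q, h (s + 1)) := by
  set F : ℕ → ℕ → K := fun t s => (Int.sign ((s : ℤ) - (t : ℤ))) • (g t * h s) with hF
  have d1 : ∑ t ∈ Finset.range (Q + 1), ∑ s ∈ Finset.range (Q + 1), F t s =
      (∑ t ∈ Finset.range Q, ∑ s ∈ Finset.range Q, F t s + ∑ t ∈ Finset.range Q, F t Q) +
      (∑ s ∈ Finset.range Q, F Q s + F Q Q) := by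
    rw [Finset.sum_range_succ]
    rw [Finset.sum_congr rfl fun t _ => Finset.sum_range_succ (F t) Q, Finset.sum_add_distrib,
      Finset.sum_range_succ (F Q) Q]
  have d2 : ∑ t ∈ Finset.range (Q + 1), ∑ s ∈ Finset.range (Q + 1), F t s =
      (∑ t ∈ Finset.range Q, ∑ s ∈ Finset.range Q, F (t + 1) (s + 1) +
        ∑ t ∈ Finset.range Q, F (t + 1) 0) +
      (∑ s ∈ Finset.range Q, F 0 (s + 1) + F 0 0) := by
    rw [Finset.sum_range_succ']
    rw [Finset.sum_congr rfl fun t _ => Finset.sum_range_succ' (F (t + 1)) Q,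
      Finset.sum_add_distrib, Finset.sum_range_succ' (F 0) Q]
  have z1 : F Q Q = 0 := by simp [hF]
  have z2 : F 0 0 = 0 := by simp [hF]
  have f1 : ∑ t ∈ Finset.range Q, F t Q = (∑ t ∈ Finset.range Q, g t) * h Q := by
    rw [Finset.sum_mul]
    refine Finset.sum_congr rfl fun t ht => ?_
    have ht' := Finset.mem_range.1 ht
    have : Int.sign ((Q : ℤ) - (t : ℤ)) = 1 := Int.sign_eq_one_of_pos (by omega)
    simp only [hF]
    rw [this, one_smul]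
  have f2 : ∑ s ∈ Finset.range Q, F Q s = -(g Q * (∑ s ∈ Finset.range Q, h s)) := by
    rw [Finset.mul_sum, ← Finset.sum_neg_distrib]
    refine Finset.sum_congr rfl fun t ht => ?_
    have ht' := Finset.mem_range.1 ht
    have : Int.sign ((t : ℤ) - (Q : ℤ)) = -1 := Int.sign_eq_neg_one_of_neg (by omega)
    simp only [hF]
    rw [this, neg_one_zsmul]
  have f3 : ∑ t ∈ Finset.range Q, F (t + 1) 0 = -((∑ t ∈ Finset.range Q, g (t + 1)) * h 0) := by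
    rw [Finset.sum_mul, ← Finset.sum_neg_distrib]
    refine Finset.sum_congr rfl fun t ht => ?_
    have : Int.sign (((0 : ℕ) : ℤ) - ((t + 1 : ℕ) : ℤ)) = -1 :=
      Int.sign_eq_neg_one_of_neg (by push_cast; omega)
    simp only [hF]
    rw [this, neg_one_zsmul]
  have f4 : ∑ s ∈ Finset.range Q, F 0 (s + 1) = g 0 * (∑ s ∈ Finset.range Q, h (s + 1)) := by
    rw [Finset.mul_sum]
    refine Finset.sum_congr rfl fun t ht => ?_
    have : Int.sign (((t + 1 : ℕ) : ℤ) - ((0 : ℕ) : ℤ)) = 1 :=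
      Int.sign_eq_one_of_pos (by push_cast; omega)
    simp only [hF]
    rw [this, one_smul]
  have f5 : ∑ t ∈ Finset.range Q, ∑ s ∈ Finset.range Q, F (t + 1) (s + 1) =
      ∑ t ∈ Finset.range Q, ∑ s ∈ Finset.range Q,
      (Int.sign ((s : ℤ) - (t : ℤ))) • (g (t + 1) * h (s + 1)) := by
    refine Finset.sum_congr rfl fun t _ => Finset.sum_congr rfl fun s _ => ?_
    simp only [hF]
    congr 2
    push_cast
    ring
  rw [← f5]
  rw [d1, z1, z2, f1, f2, f3, f4] at d2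
  have h1 : ∑ t ∈ Finset.range Q, ∑ s ∈ Finset.range Q, F (t + 1) (s + 1) =
      (∑ t ∈ Finset.range Q, ∑ s ∈ Finset.range Q, F (t + 1) (s + 1) +
        -((∑ t ∈ Finset.range Q, g (t + 1)) * h 0)) +
      (g 0 * (∑ s ∈ Finset.range Q, h (s + 1)) + 0) +
      (∑ t ∈ Finset.range Q, g (t + 1)) * h 0 - g 0 * (∑ s ∈ Finset.range Q, h (s + 1)) := by
    abel
  rw [h1, ← d2]
  abel

lemma p2_O (C : p2_Ctx V α D ρ) (h : p2_Seq V D ρ Q N) :
    ρ * Om Q (fun j => N (j + 2)) = ρ * Om Q N - (2 : ℤ) • (ρ * (N 0 * N 1 * N 2) * p2_A ρ Q N) +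
      (2 : ℤ) • (ρ * (N 0 * N 2) * tri N Q) := by
  have e : Om Q (fun j => N (j + 2)) = Om Q N + tri N Q * ch N Q - ta N Q * pg (fun j => N (2 * j)) Q
      + (tri N Q + ta N Q - ta N 0) * ch N 0 -
      ta N 0 * (pg (fun j => N (2 * j)) Q + ch N Q - ch N 0) := by
    have e1 := p2_om_shift (ta N) (ch N) Q
    rw [p2_sum_shift (ta N) Q, p2_sum_shift (ch N) Q] at e1
    exact e1
  have hτ := p2_od_tri C h
  have ho := C.od3 (h.mem 0) (h.mem 1) (h.mem 2)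
  have r1 : ρ * tri N Q * ch N Q = ρ * (N 0 * N 2) * tri N Q := by
    rw [p2_chQ h, p2_mod2 C hτ (h.mem 0) (h.mem 2), mul_assoc, mul_assoc,
      ((C.ev2 (h.mem 0) (h.mem 2)).comm_od hτ).eq]
  have r2 : ρ * ta N Q = ρ * (N 0 * N 1 * N 2) := by
    rw [p2_taQ h, p2_mod3 C (h.mem 0) (h.mem 1) (h.mem 2)]
  have r3 : ρ * (N 0 * N 1 * N 2) * pg (fun j => N (2 * j)) Q =
      ρ * (N 0 * N 1 * N 2) * p2_A ρ Q N := by
    have hε := C.ev2 C.rho (h.mem 0)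
    have eA : pg (fun j => N (2 * j)) Q = p2_A ρ Q N + ρ * N 0 := by rw [p2_A, sub_add_cancel]
    have := p2_abs_pow ((p2_ev_A C h).comm hε)
      (p2_kill C (h.mem 0) (p2_kill_rho C (N 0)) ho.mem) 1
    rwa [pow_one, pow_one, ← eA] at this
  have r4 : ρ * (N 0 * N 1 * N 2) * ch N Q = ρ * (N 0 * N 1 * N 2) * ch N 0 := by
    rw [p2_chQ h]
    exact p2_mod2 C ho (h.mem 0) (h.mem 2)
  have r5 : ρ * tri N Q * ch N 0 = ρ * (N 0 * N 2) * tri N Q := by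
    change ρ * tri N Q * (N 0 * N 2) = _
    rw [mul_assoc, mul_assoc, ((C.ev2 (h.mem 0) (h.mem 2)).comm_od hτ).eq]
  have r6 : ρ * ta N 0 = ρ * (N 0 * N 1 * N 2) := rfl
  rw [e]
  simp only [mul_add, mul_sub, add_mul, sub_mul, ← mul_assoc ρ]
  rw [r1, r2, r5, r6, r3, r4]
  simp only [mul_assoc]
  module

lemma p2_DY (C : p2_Ctx V α D ρ) (h : p2_Seq V D ρ Q N) (m : ℕ) :
    D (p2_Y ρ Q N (m + 1)) = (2 : ℤ) • ((N 1 * N 2 - N 0 * N 2 + N 0 * N 1) * p2_P ρ Q N ^ m) +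
      (4 * (m : ℤ)) • (ρ * (N 0 * N 1 * N 2) * p2_P ρ Q N ^ (m - 1)) +
      (2 : ℤ) • ((N 2 - N 0) * tri N Q * hh m (p2_A ρ Q N) (p2_P ρ Q N)) +
      (2 : ℤ) • (N 0 * N 2 * (p2_P ρ Q N ^ m - p2_A ρ Q N ^ m)) +
      (4 * (m : ℤ)) • (ρ * (N 0 * N 2) * tri N Q * hh (m - 1) (p2_A ρ Q N) (p2_P ρ Q N)) +
      ρ * (N 2 - N 0) * (p2_P ρ Q N ^ m - p2_A ρ Q N ^ m) := by
  have hP := p2_ev_P C h
  have hA := p2_ev_A C h
  have dP := p2_D_P C h
  have dA := p2_D_A C h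
  have hτ := p2_od_tri C h
  have ho := C.od3 (h.mem 0) (h.mem 1) (h.mem 2)
  have hb := C.ev2 (h.mem 0) (h.mem 2)
  have d02 : D (N 0 * N 2) = N 2 - N 0 := by
    rw [C.D_mul, h.D_one, h.D_one, C.al _ (h.mem 0), one_mul, mul_one, sub_eq_add_neg]
  have t1 : D (N 0 * N 1 * N 2 * p2_P ρ Q N ^ m) =
      (N 1 * N 2 - N 0 * N 2 + N 0 * N 1) * p2_P ρ Q N ^ m +
      (2 * (m : ℤ)) • (ρ * (N 0 * N 1 * N 2) * p2_P ρ Q N ^ (m - 1)) := by
    rw [C.D_mul, p2_D3 C (h.mem 0) (h.mem 1) (h.mem 2) (h.D_one 0) (h.D_one 1) (h.D_one 2),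
      C.D_pow hP dP, ho.al, mul_smul_comm, neg_mul, ← mul_assoc _ ρ, C.od_rho ho, neg_mul, neg_neg]
  have t2 : D (N 0 * N 2 * tri N Q * hh m (p2_A ρ Q N) (p2_P ρ Q N)) =
      (N 2 - N 0) * tri N Q * hh m (p2_A ρ Q N) (p2_P ρ Q N) +
      N 0 * N 2 * (p2_P ρ Q N ^ m - p2_A ρ Q N ^ m) +
      (2 * (m : ℤ)) • (ρ * (N 0 * N 2) * tri N Q * hh (m - 1) (p2_A ρ Q N) (p2_P ρ Q N)) := by
    rw [C.D_mul, C.D_mul, d02, hb.al, p2_D_tri C h, add_mul, mul_assoc (N 0 * N 2) (_ - _),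
      p2_hh_mul (hA.comm hP), map_mul α, hb.al, hτ.al, C.D_hh hA hP dA dP, mul_smul_comm]
    congr 2
    rw [← mul_assoc _ ρ, mul_neg, neg_mul, mul_assoc _ (tri N Q) ρ, C.od_rho hτ, mul_neg, neg_neg,
      ← mul_assoc _ ρ, C.ev_rho hb]
  have t3 : D (ρ * (N 0 * N 2) * (p2_P ρ Q N ^ m - p2_A ρ Q N ^ m)) =
      -(ρ * (N 2 - N 0) * (p2_P ρ Q N ^ m - p2_A ρ Q N ^ m)) := by
    rw [mul_assoc, p2_D_rho C, C.D_mul, d02, hb.al, map_sub, C.D_pow hP dP, C.D_pow hA dA]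
    have k : ρ * (N 0 * N 2 * ((2 * (m : ℤ)) • (ρ * p2_P ρ Q N ^ (m - 1)) -
        (2 * (m : ℤ)) • (ρ * p2_A ρ Q N ^ (m - 1)))) = 0 := by
      rw [← smul_sub, ← mul_sub, mul_smul_comm, mul_smul_comm, ← mul_assoc (N 0 * N 2) ρ,
        C.ev_rho hb, mul_assoc ρ, ← mul_assoc ρ ρ, C.rho_sq, zero_mul, smul_zero]
    rw [mul_add, k, add_zero, mul_assoc]
  unfold p2_Y
  rw [map_sub, map_add, map_zsmul, map_zsmul, t1, t2, t3]
  module

lemma p2_main (C : p2_Ctx V α D ρ) (h : p2_Seq V D ρ Q N) (m : ℕ) :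
    p2_W m Q (fun j => N (j + 2)) - p2_W m Q N =
      (2 : ℤ) • ((N 1 * N 2 + N 0 * N 1) * p2_P ρ Q N ^ m) -
      (2 : ℤ) • (N 0 * N 2 * p2_A ρ Q N ^ m) + (2 * (m : ℤ) + 1) • (ρ * p2_Y ρ Q N m) -
      D (p2_Y ρ Q N (m + 1)) := by
  have hP := p2_ev_P C h
  have hA := p2_ev_A C h
  have h2 := h.shift 2
  have w1 : p2_W m Q N = ρ * Om Q N * hh (m - 1) (p2_A ρ Q N) (p2_P ρ Q N) -
      (ρ * N 0 * p2_P ρ Q N ^ m - ρ * N 0 * p2_A ρ Q N ^ m) -
      (2 : ℤ) • (N 0 * tri N Q * hh m (p2_A ρ Q N) (p2_P ρ Q N)) := by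
    unfold p2_W
    rw [p2_exV C h, p2_hmt C h, two_mul, two_zsmul]
  have w2 : p2_W m Q (fun j => N (j + 2)) =
      (ρ * Om Q N - (2 : ℤ) • (ρ * (N 0 * N 1 * N 2) * p2_A ρ Q N) +
      (2 : ℤ) • (ρ * (N 0 * N 2) * tri N Q)) * hh (m - 1) (p2_A ρ Q N) (p2_P ρ Q N) -
      (ρ * N 2 * p2_P ρ Q N ^ m - ρ * N 2 * p2_A ρ Q N ^ m) -
      (2 : ℤ) • ((N 2 * tri N Q - ρ * (N 0 * N 1 * N 2)) *
        hh m (p2_A ρ Q N) (p2_P ρ Q N)) := by
    rw [← p2_O C h, ← p2_T C h]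
    unfold p2_W
    rw [p2_exV C h2, p2_hmt C h2, p2_P_shift2 C h, p2_A_shift C h, two_mul, two_zsmul]
  rw [w1, w2, p2_DY C h]
  rcases m with _ | m
  · simp only [p2_hh_zero, p2_Y, Nat.zero_sub, pow_zero, mul_zero, mul_one, sub_self, Nat.cast_zero,
      zero_smul, smul_zero]
    module
  · have e1 : hh (m + 1) (p2_A ρ Q N) (p2_P ρ Q N) =
        p2_P ρ Q N ^ m + p2_A ρ Q N * hh m (p2_A ρ Q N) (p2_P ρ Q N) := p2_hh_succ _ _ _
    have e2 : ρ * p2_Y ρ Q N (m + 1) = (2 : ℤ) • (ρ * (N 0 * N 1 * N 2) * p2_P ρ Q N ^ m) +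
        (2 : ℤ) • (ρ * (N 0 * N 2) * tri N Q * hh m (p2_A ρ Q N) (p2_P ρ Q N)) := by
      unfold p2_Y
      rw [mul_sub, mul_add, mul_smul_comm, mul_smul_comm]
      have k : ρ * (ρ * (N 0 * N 2) * (p2_P ρ Q N ^ m - p2_A ρ Q N ^ m)) = 0 := by
        rw [← mul_assoc, p2_kill_rho C, zero_mul]
      rw [k, sub_zero]
      simp only [mul_assoc]
    have e3 : ρ * (N 0 * N 1 * N 2) * hh (m + 1) (p2_A ρ Q N) (p2_P ρ Q N) =
        ρ * (N 0 * N 1 * N 2) * p2_P ρ Q N ^ m +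
        ρ * (N 0 * N 1 * N 2) * p2_A ρ Q N * hh m (p2_A ρ Q N) (p2_P ρ Q N) := by
      rw [e1, mul_add, ← mul_assoc (ρ * (N 0 * N 1 * N 2)) (p2_A ρ Q N)]
    rw [e2, Nat.add_sub_cancel]
    simp only [sub_mul, add_mul, smul_mul_assoc, e3]
    simp only [mul_sub, sub_mul]
    push_cast
    module

lemma p2_exG (m Q : ℕ) (N : ℕ → K) : exG m Q N =
    2 * exE m (2 * Q) N + p2_W m Q N - p2_W m Q (fun j => N (j + 1)) := by
  have e : exG m Q N = 2 * (exE m (2 * Q) N + N 1 * hmt m Q (fun j => N (j + 1)) -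
    N 0 * hmt m Q N) + (exV m Q N - exV m Q fun j => N (j + 1)) := rfl
  have e1 : p2_W m Q (fun j => N (j + 1)) =
    exV m Q (fun j => N (j + 1)) - 2 * (N 1 * hmt m Q (fun j => N (j + 1))) := rfl
  rw [e, e1, p2_W]
  simp only [two_mul]
  abel

end seq

variable {Γ : Type*} [Group Γ] {k : ℕ} {b : Γ → List Γ → ℤ} {c : Γ} {K : Type*}
  [Ring K] {f : MonoidAlgebra ℤ (FreeMonoid Γ) →+* K} {α : K →+* K} {D : K →+ K} {L : K →+ ℤ}
  {ρ : K} {deg : ℕ → AddSubgroup K}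

lemma p2_rho_eq (S : SupRing k b c K f α D L ρ deg) : ρ = f (nn (c * 1)) - f (nn 1) := by
  rw [S.period, add_sub_cancel_left]

lemma p2_ctx (S : SupRing k b c K f α D L ρ deg) :
    p2_Ctx (AddSubgroup.closure (Set.range fun a : Γ => f (nn a))) α D ρ := by
  have hanti : ∀ x ∈ AddSubgroup.closure (Set.range fun a : Γ => f (nn a)),
      ∀ y ∈ AddSubgroup.closure (Set.range fun a : Γ => f (nn a)), x * y = -(y * x) := by
    intro x hx y hy
    induction hx using AddSubgroup.closure_induction with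
    | mem x hx =>
      obtain ⟨a, rfl⟩ := hx
      induction hy using AddSubgroup.closure_induction with
      | mem y hy =>
        obtain ⟨a', rfl⟩ := hy
        exact S.anti a a'
      | zero => simp
      | add u w _ _ hu hw => rw [mul_add, hu, hw, add_mul, neg_add]
      | neg u _ hu => rw [mul_neg, hu, neg_mul]
    | zero => simp
    | add u w _ _ hu hw => rw [add_mul, hu, hw, mul_add, neg_add]
    | neg u _ hu => rw [neg_mul, hu, mul_neg]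
  refine ⟨hanti, ?_, ?_, S.D_mul, ?_, ?_⟩
  · intro x hx
    induction hx using AddSubgroup.closure_induction with
    | mem x hx =>
      obtain ⟨a, rfl⟩ := hx
      exact S.sq a
    | zero => simp
    | add u w hu' hw' hu hw =>
      rw [add_mul, mul_add, mul_add, hu, hw, hanti u hu' w hw']
      abel
    | neg u _ hu => rw [neg_mul_neg, hu]
  · intro x hx
    induction hx using AddSubgroup.closure_induction with
    | mem x hx =>
      obtain ⟨a, rfl⟩ := hx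
      exact S.α_nn a
    | zero => simp
    | add u w _ _ hu hw => rw [map_add, hu, hw, neg_add]
    | neg u _ hu => rw [map_neg, hu]
  · rw [p2_rho_eq S]
    exact sub_mem (AddSubgroup.subset_closure ⟨_, rfl⟩) (AddSubgroup.subset_closure ⟨_, rfl⟩)
  · rw [p2_rho_eq S, map_sub, S.D_nn, S.D_nn, sub_self]

lemma p2_V_deg (S : SupRing k b c K f α D L ρ deg) {x : K}
    (hx : x ∈ AddSubgroup.closure (Set.range fun a : Γ => f (nn a))) : x ∈ deg 1 := by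
  refine (AddSubgroup.closure_le (deg 1)).2 ?_ hx
  rintro _ ⟨a, rfl⟩
  exact S.nn_deg a

lemma p2_pow_deg (S : SupRing k b c K f α D L ρ deg) {x : K} (hx : x ∈ deg 2) (n : ℕ) :
    x ^ n ∈ deg (2 * n) := by
  induction n with
  | zero => rw [pow_zero]; exact S.one_deg
  | succ n ih => rw [pow_succ]; exact S.mul_deg _ _ _ _ ih hx

lemma p2_hh_deg (S : SupRing k b c K f α D L ρ deg) {x y : K} (hx : x ∈ deg 2) (hy : y ∈ deg 2)
    (n : ℕ) : hh n x y ∈ deg (2 * (n - 1)) := by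
  unfold hh
  refine sum_mem fun i hi => ?_
  have hi' := Finset.mem_range.1 hi
  have := S.mul_deg _ _ _ _ (p2_pow_deg S hx i) (p2_pow_deg S hy (n - 1 - i))
  rwa [show 2 * i + 2 * (n - 1 - i) = 2 * (n - 1) by omega] at this

lemma p2_deg_Y (S : SupRing k b c K f α D L ρ deg) {Q : ℕ} {N : ℕ → K}
    (h : p2_Seq (AddSubgroup.closure (Set.range fun a : Γ => f (nn a))) D ρ Q N) (m : ℕ) :
    ρ * p2_Y ρ Q N m ∈ deg (2 * m + 2) := by
  have C := p2_ctx S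
  have dN : ∀ j, N j ∈ deg 1 := fun j => p2_V_deg S (h.mem j)
  have dρ : ρ ∈ deg 1 := p2_V_deg S C.rho
  have dpg : ∀ M : ℕ → K, (∀ j, M j ∈ deg 1) → ∀ n, pg M n ∈ deg 2 := by
    intro M hM n
    unfold pg
    exact sum_mem fun j _ => S.mul_deg 1 1 _ _ (hM j) (hM (j + 1))
  have dP : p2_P ρ Q N ∈ deg 2 := sub_mem (dpg _ dN _) (S.mul_deg 1 1 _ _ dρ (dN 0))
  have dA : p2_A ρ Q N ∈ deg 2 :=
    sub_mem (dpg _ (fun j => dN (2 * j)) _) (S.mul_deg 1 1 _ _ dρ (dN 0))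
  have dτ : tri N Q ∈ deg 3 := by
    unfold tri
    exact sum_mem fun t _ => S.mul_deg 2 1 _ _ (S.mul_deg 1 1 _ _ (dN _) (dN _)) (dN _)
  rcases m with _ | m
  · have e : p2_Y ρ Q N 0 = 0 := rfl
    rw [e, mul_zero ρ]
    exact (deg _).zero_mem
  · have t1 : N 0 * N 1 * N 2 * p2_P ρ Q N ^ m ∈ deg (2 * m + 3) := by
      have := S.mul_deg _ _ _ _ (S.mul_deg 2 1 _ _ (S.mul_deg 1 1 _ _ (dN 0) (dN 1)) (dN 2))
        (p2_pow_deg S dP m)
      rwa [show 2 + 1 + 2 * m = 2 * m + 3 by omega] at this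
    have t2 : N 0 * N 2 * tri N Q * hh m (p2_A ρ Q N) (p2_P ρ Q N) ∈ deg (2 * m + 3) := by
      rcases m with _ | m
      · rw [p2_hh_zero, mul_zero (N 0 * N 2 * tri N Q)]
        exact (deg _).zero_mem
      · have := S.mul_deg _ _ _ _ (S.mul_deg 2 3 _ _ (S.mul_deg 1 1 _ _ (dN 0) (dN 2)) dτ)
          (p2_hh_deg S dA dP (m + 1))
        rwa [show 2 + 3 + 2 * (m + 1 - 1) = 2 * (m + 1) + 3 by omega] at this
    have t3 : ρ * (N 0 * N 2) * (p2_P ρ Q N ^ m - p2_A ρ Q N ^ m) ∈ deg (2 * m + 3) := by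
      have := S.mul_deg _ _ _ _ (S.mul_deg 1 2 _ _ dρ (S.mul_deg 1 1 _ _ (dN 0) (dN 2)))
        (sub_mem (p2_pow_deg S dP m) (p2_pow_deg S dA m))
      rwa [show 1 + 2 + 2 * m = 2 * m + 3 by omega] at this
    have t : p2_Y ρ Q N (m + 1) ∈ deg (2 * m + 3) := by
      unfold p2_Y
      exact sub_mem (add_mem (zsmul_mem t1 2) (zsmul_mem t2 2)) t3
    have := S.mul_deg _ _ _ _ dρ t
    rwa [show 1 + (2 * m + 3) = 2 * (m + 1) + 2 by omega] at this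

/-- PROOF. `N j = f (nn (v j))`, `P = pg N (2Q) - ρ N 0`, `A = pg (N (2·)) Q - ρ N 0`, `B = pg (N (2·+1)) Q - ρ N 1`,
`a0 = N 0 N 1 N 2`, `a1 = N 1 N 2 N 3`, `b0 = N 0 N 2`, `b1 = N 1 N 3`, `τ0 = tri N Q`, `τ1 = tri (N (·+1)) Q`,
`hA m = hh m A P`, `hB m = hh m B P`. `ρ = N (2Q) - N 0` is odd (`α ρ = -ρ`), anticommutes with the letters, `ρ^2 = 0`,
`D ρ = 0`; products of two letters commute with everything and are fixed by `α`.
(0) `D P = D A = D B = 2 ρ`; `P`, `A`, `B` are invariant under the shift `N → N (· + 2)`;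
`pg (N (·+1)) (2Q) = P + ρ N 1`. As `N 0 ρ N 0 = 0` etc.,
`exF m Q N = N 0 N 1 P^m + N 1 τ1 hB m - N 0 τ0 hA m`, `exE` of the odd (even) polygon is `b1 B^m` (`b0 A^m`),
`exV m Q N = ρ (Ω0 hA (m-1) - N 0 (P^m - A^m))`, `exV m Q (N (·+1)) = ρ (Ω1 hB (m-1) - N 1 (P^m - B^m))`.
(1) shift by 2: `τ0 → τ0 + ρ (N 1 N 2 - N 0 N 2 + N 0 N 1)`, `τ1 → τ1 + ρ (N 2 N 3 - N 1 N 3 + N 1 N 2)`,
`ρ Ω0 → ρ (Ω0 - 2 a0 A + 2 τ0 b0)`, `ρ Ω1 → ρ (Ω1 - 2 a1 B + 2 τ1 b1)`.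
(2) `D τ0 = P - A`, `D τ1 = P - B`, `(P - A) hA m = P^m - A^m`, `D (P^m) = 2 m ρ P^(m-1)`, `D (hA m) = 2 m ρ hA (m-1)`,
`hA m = P^(m-1) + A hA (m-1)` for `m ≥ 1`.
(3) Put `z m = 2 (a1 - a0) P^m + 2 b1 τ1 hB m - 2 b0 τ0 hA m + ρ (b0 (P^m - A^m) - b1 (P^m - B^m))`. Then
`exG m Q (N (·+2)) - exG m Q N - 2 (b1 B^m - b0 A^m) = D (z m) - (2m+1) ρ z (m-1)` for `m ≥ 1`, and `= D (z 0)` for `m = 0`.
(4) `pp_abel` with `y 0 = 0`, `y (m+1) = z m`. -/
theorem P2 (S : SupRing k b c K f α D L ρ deg) (Q : ℕ) (hQ : 0 < Q) (v : ℕ → Γ)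
    (hv : ∀ j, f (nn (v (j + 2 * Q))) = f (nn (v j)) + ρ) :
    ∑ m ∈ Finset.range k, GG k m * (L (exG m Q fun j => f (nn (v (j + 2)))) -
      L (exG m Q fun j => f (nn (v j)))) =
    2 * ∑ m ∈ Finset.range k, GG k m * (L (exE m Q fun j => f (nn (v (2 * j + 1)))) -
      L (exE m Q fun j => f (nn (v (2 * j))))) := by
  have C := p2_ctx S
  set N : ℕ → K := fun j => f (nn (v j)) with hN
  have h : p2_Seq (AddSubgroup.closure (Set.range fun a : Γ => f (nn a))) D ρ Q N :=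
    ⟨fun j => AddSubgroup.subset_closure ⟨v j, rfl⟩, fun j => S.D_nn _, hv⟩
  have h1 := h.shift 1
  set N1 : ℕ → K := fun j => N (j + 1) with hN1
  have hPP : p2_P ρ Q N1 = p2_P ρ Q N := p2_P_shift C h
  have key : ∀ m, exG m Q (fun j => N (j + 2)) - exG m Q N -
      2 * (exE m Q (fun j => N (2 * j + 1)) - exE m Q fun j => N (2 * j)) =
      D (p2_Y ρ Q N1 (m + 1) - p2_Y ρ Q N (m + 1)) -
      (2 * (m : K) + 1) * (ρ * (p2_Y ρ Q N1 m - p2_Y ρ Q N m)) := by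
    intro m
    have m0 := p2_main C h m
    have m1 := p2_main C h1 m
    have a0 := p2_exG m Q N
    have a1 := p2_exG m Q (fun j => N (j + 2))
    have b0 := p2_exE C h m
    have b1 := p2_exE C (h.shift 2) m
    have c0 := p2_exE2 C h m
    have c1 : exE m Q (fun j => N (2 * j + 1)) = N 1 * N 3 * p2_A ρ Q N1 ^ m := p2_exE2 C h1 m
    rw [p2_P_shift2 C h] at b1
    have b1' : exE m (2 * Q) (fun j => N (j + 2)) = N 2 * N 3 * p2_P ρ Q N ^ m := b1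
    have a1' : exG m Q (fun j => N (j + 2)) = 2 * exE m (2 * Q) (fun j => N (j + 2)) +
      p2_W m Q (fun j => N (j + 2)) - p2_W m Q (fun j => N1 (j + 2)) := a1
    have m1' : p2_W m Q (fun j => N1 (j + 2)) - p2_W m Q N1 =
      (2 : ℤ) • ((N 2 * N 3 + N 1 * N 2) * p2_P ρ Q N1 ^ m) -
      (2 : ℤ) • (N 1 * N 3 * p2_A ρ Q N1 ^ m) + (2 * (m : ℤ) + 1) • (ρ * p2_Y ρ Q N1 m) -
      D (p2_Y ρ Q N1 (m + 1)) := m1
    rw [hPP] at m1'
    have s1 : (2 * (m : K) + 1) * (ρ * (p2_Y ρ Q N1 m - p2_Y ρ Q N m)) =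
        (2 * (m : ℤ) + 1) • (ρ * p2_Y ρ Q N1 m) - (2 * (m : ℤ) + 1) • (ρ * p2_Y ρ Q N m) := by
      rw [← smul_sub, ← mul_sub, zsmul_eq_mul]
      push_cast
      rfl
    rw [a1', a0, b0, b1', c0, c1, s1, map_sub]
    have e : 2 * (N 2 * N 3 * p2_P ρ Q N ^ m) + p2_W m Q (fun j => N (j + 2)) -
        p2_W m Q (fun j => N1 (j + 2)) -
        (2 * (N 0 * N 1 * p2_P ρ Q N ^ m) + p2_W m Q N - p2_W m Q N1) =
        2 * (N 2 * N 3 * p2_P ρ Q N ^ m) - 2 * (N 0 * N 1 * p2_P ρ Q N ^ m) +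
        (p2_W m Q (fun j => N (j + 2)) - p2_W m Q N) -
        (p2_W m Q (fun j => N1 (j + 2)) - p2_W m Q N1) := by abel
    rw [show (p2_W m Q fun j => N (j + 1)) = p2_W m Q N1 from rfl, e, m0, m1']
    simp only [add_mul, two_mul, mul_sub]
    module
  have hy : ρ * (p2_Y ρ Q N1 k - p2_Y ρ Q N k) ∈ deg (2 * k + 2) := by
    rw [mul_sub]
    exact sub_mem (p2_deg_Y S h1 k) (p2_deg_Y S h k)
  have main := pp_abel S (fun m => p2_Y ρ Q N1 m - p2_Y ρ Q N m) hy _ (fun m _ => key m)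
  have z0 : p2_Y ρ Q N1 0 - p2_Y ρ Q N 0 = 0 := by
    unfold p2_Y
    exact sub_zero _
  beta_reduce at main
  rw [z0, mul_zero, map_zero, mul_zero, neg_zero] at main
  have e1 : ∀ m ∈ Finset.range k, GG k m * L (exG m Q (fun j => N (j + 2)) - exG m Q N -
      2 * (exE m Q (fun j => N (2 * j + 1)) - exE m Q fun j => N (2 * j))) =
      GG k m * (L (exG m Q fun j => N (j + 2)) - L (exG m Q N)) -
      2 * (GG k m * (L (exE m Q fun j => N (2 * j + 1)) - L (exE m Q fun j => N (2 * j)))) := by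
    intro m _
    rw [map_sub, map_sub, two_mul, map_add, map_sub]
    ring
  rw [Finset.sum_congr rfl e1, Finset.sum_sub_distrib, ← Finset.mul_sum, sub_eq_zero] at main
  exact main

end Pool.Agent.Lib.MP_8f66f0_al_Mixed
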