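import Mathlib
import Pool.Agent.Lib.MP_8f66f0_al_ChernS.Syn
import Pool.Agent.Lib.MP_8f66f0_al_Mixed.Defs

/-! # The mixed ring of a mixed cocycle. -/

set_option autoImplicit false
set_option linter.unusedSectionVars false
set_option linter.unusedVariables false

namespace Pool.Agent.Lib.MP_8f66f0_al_Mixed

open Pool.Agent.Lib.MP_8f66f0_al_FinQ Pool.Agent.Lib.MP_8f66f0_al_Uni
  Pool.Agent.Lib.MP_8f66f0_al_ChernS

universe u v

section synM

variable {Γ : Type*} [Group Γ] {S : Type*} [CommRing S] {k : ℕ} {b : Γ → List Γ → S}

/-- moving a letter to the front -/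
lemma synM_front (hb : IsMixed k b) (c a : Γ) (u v : List Γ) :
    b c (u ++ a :: v) = (-1) ^ u.length * b c (a :: (u ++ v)) := by
  induction u using List.reverseRecOn generalizing v with
  | nil => simp
  | append_singleton u x ih =>
    have e1 : u ++ [x] ++ a :: v = u ++ x :: a :: v := by simp
    have e2 : a :: (u ++ [x] ++ v) = a :: (u ++ x :: v) := by simp
    rw [e1, hb.alternating, ih, e2, List.length_append, List.length_singleton, pow_succ]
    ring

/-- the difference of the letters `c a` and `a` does not depend on `a` -/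
lemma synM_diff (hb : IsMixed k b) (c a : Γ) (u v : List Γ) :
    b c (u ++ (c * a) :: v) - b c (u ++ a :: v) - (b c (u ++ c :: v) - b c (u ++ 1 :: v)) = 0 := by
  rw [synM_front hb c (c * a) u v, synM_front hb c a u v, synM_front hb c c u v,
    synM_front hb c 1 u v]
  have h1 := hb.mixed c a (u ++ v)
  have h2 := hb.mixed c 1 (u ++ v)
  rw [mul_one] at h2
  rw [h1, h2]
  ring

/-- `L (D x) + L (ρ x) = 0` -/
lemma synM_lin_d (hb : IsMixed k b) (c : Γ) (x : MonoidAlgebra S (FreeMonoid Γ)) :
    lin (fun w : FreeMonoid Γ => b c w.toList) (syn_d x) +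
      lin (fun w : FreeMonoid Γ => b c w.toList) ((nn c - nn 1) * x) = 0 := by
  induction x using MonoidAlgebra.induction_linear with
  | zero => simp
  | add x x' hx hx' =>
    rw [map_add, mul_add, map_add, map_add]
    linear_combination hx + hx'
  | single w t =>
    have h0 : lin (fun w : FreeMonoid Γ => b c w.toList) (syn_t (S := S) w.toList) =
        ∑ i ∈ Finset.range w.toList.length, (-1) ^ i * b c (w.toList.eraseIdx i) := by
      unfold syn_t
      rw [map_sum]
      refine Finset.sum_congr rfl fun i _ => ?_
      rw [lin_single, FreeMonoid.toList_ofList]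
    rw [syn_d_single, lin_smul, h0, sub_mul, map_sub]
    unfold nn
    rw [MonoidAlgebra.single_mul_single, MonoidAlgebra.single_mul_single, lin_single, lin_single,
      one_mul, FreeMonoid.toList_mul, FreeMonoid.toList_mul, FreeMonoid.toList_of,
      FreeMonoid.toList_of]
    have h2 := hb.mixed c 1 w.toList
    rw [mul_one] at h2
    have e1 : [c] ++ w.toList = c :: w.toList := rfl
    have e2 : [(1 : Γ)] ++ w.toList = 1 :: w.toList := rfl
    rw [e1, e2, h2]
    ring

lemma synM_lin_a (hb : IsMixed k b) (c : Γ) (u v : FreeMonoid Γ)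
    (x : MonoidAlgebra S (FreeMonoid Γ)) :
    lin (fun w : FreeMonoid Γ => b c w.toList)
      (MonoidAlgebra.single u 1 * syn_a x * MonoidAlgebra.single v 1) =
    (-1) ^ (u.toList.length + v.toList.length) * lin (fun w : FreeMonoid Γ => b c w.toList)
      (MonoidAlgebra.single u 1 * x * MonoidAlgebra.single v 1) := by
  induction x using MonoidAlgebra.induction_linear with
  | zero => simp
  | add x x' hx hx' =>
    rw [map_add, mul_add, add_mul, map_add, hx, hx', mul_add, add_mul, map_add, mul_add]
  | single w t =>
    rw [syn_a_single, syn_val (ω := b), syn_val (ω := b)]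
    rcases Nat.even_or_odd (u.toList ++ w.toList ++ v.toList).length with h | h
    · rw [List.length_append, List.length_append] at h
      have e : (-1 : S) ^ (u.toList.length + v.toList.length) = syn_sgn S w := by
        unfold syn_sgn
        rcases Nat.even_or_odd w.toList.length with h2 | h2
        · rw [h2.neg_one_pow]
          apply Even.neg_one_pow
          have h3 : u.toList.length + w.toList.length + v.toList.length =
            (u.toList.length + v.toList.length) + w.toList.length := by ring
          rw [h3, Nat.even_add] at h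
          exact h.mpr h2
        · rw [h2.neg_one_pow]
          apply Odd.neg_one_pow
          have h3 : u.toList.length + w.toList.length + v.toList.length =
            (u.toList.length + v.toList.length) + w.toList.length := by ring
          rw [h3, Nat.even_add] at h
          rw [← Nat.not_even_iff_odd] at h2 ⊢
          exact fun h4 => h2 (h.mp h4)
      rw [e]
      ring
    · rw [hb.odd c _ h]
      ring

end synM

/-- PROOF. As `exists_super` in `MP_8f66f0_al_ChernS/Syn.lean`, with `φ w = b c w.toList`.
`ρ := f (nn c) - f (nn 1)`. `period`: `f (nn (c a)) - f (nn a)` does not depend on `a`: criterion of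
`exists_syn`; by `alternating` the letter can be moved to the front (sign `(-1)^|u|`), and by `mixed`
`b c (c a :: u ++ v) - b c (a :: u ++ v) = - Σ (-1)^i b c ((u ++ v) without i)`, the same for all `a`.
`L_D`: for a word `w`, `L (ρ w) = b c (c :: w) - b c (1 :: w) = - Σ (-1)^i b c (w without i) = - L (D w)`
by `mixed` with `a = 1`.
`α` descends because only words of even total length count (`odd`). `D` descends: let `f z = 0`. For words
`a`, `b`: `lin φ (D0 (a z b)) = - lin φ (ρ0 a z b) = 0` where `ρ0 = nn c - nn 1` (as `f z = 0`), and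
`D0 (a z b) = D0 a z b ± a D0 z b ± a α0 z D0 b`; the first and the last terms vanish. -/
theorem exists_sup {Γ : Type u} [Group Γ] {S : Type v} [CommRing S] {k : ℕ} {b : Γ → List Γ → S}
    (hb : IsMixed k b) (c : Γ) :
    ∃ (K : Type (max u v)) (_ : Ring K) (f : MonoidAlgebra S (FreeMonoid Γ) →+* K) (α : K →+* K)
      (D : K →+ K) (L : K →+ S) (ρ : K) (deg : ℕ → AddSubgroup K),
      SupRing k b c K f α D L ρ deg := by
  obtain ⟨K, _, f, L, hf, hL, hker⟩ := exists_syn (fun w : FreeMonoid Γ => b c w.toList)
  -- descent
  have ha : ∀ z, f z = 0 → f (syn_a z) = 0 := by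
    intro z hz
    rw [hker] at hz ⊢
    intro u v
    rw [synM_lin_a hb, hz u v, mul_zero]
  have hd : ∀ z, f z = 0 → f (syn_d z) = 0 := by
    intro z hz
    rw [hker]
    intro u v
    have h1 := synM_lin_d hb c (MonoidAlgebra.single u 1 * z * MonoidAlgebra.single v 1)
    have h0 : lin (fun w : FreeMonoid Γ => b c w.toList)
        ((nn c - nn 1) * (MonoidAlgebra.single u 1 * z * MonoidAlgebra.single v 1)) = 0 := by
      rw [← hL, map_mul f, map_mul f, map_mul f, hz, mul_zero, zero_mul, mul_zero, map_zero]
    rw [h0, add_zero] at h1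
    rw [syn_d_mul, syn_d_mul, syn_a_mul, add_mul, map_add, map_add] at h1
    have h2 : lin (fun w : FreeMonoid Γ => b c w.toList)
        (syn_d (MonoidAlgebra.single u 1) * z * MonoidAlgebra.single v 1) = 0 := by
      rw [← hL, map_mul f, map_mul f, hz, mul_zero, zero_mul, map_zero]
    have h3 : lin (fun w : FreeMonoid Γ => b c w.toList)
        (syn_a (MonoidAlgebra.single u 1) * syn_a z * syn_d (MonoidAlgebra.single v 1)) = 0 := by
      rw [← hL, map_mul f, map_mul f, ha z hz, mul_zero, zero_mul, map_zero]
    rw [h2, h3, zero_add, add_zero, syn_a_single, one_mul] at h1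
    have e : MonoidAlgebra.single u (syn_sgn S u) =
        syn_sgn S u • (MonoidAlgebra.single u 1 : MonoidAlgebra S (FreeMonoid Γ)) := by
      rw [MonoidAlgebra.smul_single, smul_eq_mul, mul_one]
    rw [e, smul_mul_assoc, smul_mul_assoc, lin_smul] at h1
    have h4 := congrArg (fun t => syn_sgn S u * t) h1
    simp only [mul_zero, ← mul_assoc, syn_sgn_sq, one_mul] at h4
    exact h4
  obtain ⟨α', hα'⟩ := syn_factor f hf (f.toAddMonoidHom.comp syn_a) ha
  obtain ⟨D, hD⟩ := syn_factor f hf (f.toAddMonoidHom.comp syn_d) hd
  have hα'' : ∀ x, α' (f x) = f (syn_a x) := hα'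
  have hD' : ∀ x, D (f x) = f (syn_d x) := hD
  let α : K →+* K :=
    { α' with
      map_one' := by
        change α' 1 = 1
        rw [← map_one f, hα'', syn_a_one]
      map_mul' := fun x y => by
        obtain ⟨x, rfl⟩ := hf x
        obtain ⟨y, rfl⟩ := hf y
        change α' (f x * f y) = α' (f x) * α' (f y)
        rw [← map_mul, hα'', hα'', hα'', syn_a_mul, map_mul] }
  have hα : ∀ x, α (f x) = f (syn_a x) := hα'
  refine ⟨K, inferInstance, f, α, D, L, f (nn c - nn 1),
    fun d => (syn_w S Γ d).map f.toAddMonoidHom, ?_⟩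
  refine
    { L_f := hL
      anti := ?_
      sq := ?_
      period := ?_
      α_nn := ?_
      D_mul := ?_
      D_nn := ?_
      L_D := ?_
      one_deg := ?_
      mul_deg := ?_
      nn_deg := ?_
      L_deg := ?_ }
  · intro a a'
    rw [eq_neg_iff_add_eq_zero, ← map_mul, ← map_mul, ← map_add, hker]
    intro u v
    unfold nn
    rw [MonoidAlgebra.single_mul_single, MonoidAlgebra.single_mul_single, mul_add, add_mul,
      map_add, mul_one, syn_val (ω := b), syn_val (ω := b), one_mul, one_mul]
    have h := hb.alternating c u.toList a a' v.toList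
    have e1 : u.toList ++ (FreeMonoid.of a * FreeMonoid.of a').toList ++ v.toList =
        u.toList ++ a :: a' :: v.toList := by
      rw [FreeMonoid.toList_mul, FreeMonoid.toList_of, FreeMonoid.toList_of]
      simp
    have e2 : u.toList ++ (FreeMonoid.of a' * FreeMonoid.of a).toList ++ v.toList =
        u.toList ++ a' :: a :: v.toList := by
      rw [FreeMonoid.toList_mul, FreeMonoid.toList_of, FreeMonoid.toList_of]
      simp
    rw [e1, e2, h]
    ring
  · intro a
    rw [← map_mul, hker]
    intro u v
    unfold nn
    rw [MonoidAlgebra.single_mul_single, mul_one, syn_val (ω := b), one_mul]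
    have h := hb.diag c u.toList a v.toList
    have e1 : u.toList ++ (FreeMonoid.of a * FreeMonoid.of a).toList ++ v.toList =
        u.toList ++ a :: a :: v.toList := by
      rw [FreeMonoid.toList_mul, FreeMonoid.toList_of]
      simp
    rw [e1]
    exact h
  · intro a
    rw [← sub_eq_zero, ← sub_sub, ← map_sub, ← map_sub, hker]
    intro u v
    unfold nn
    rw [mul_sub, mul_sub, mul_sub, sub_mul, sub_mul, sub_mul, map_sub, map_sub, map_sub,
      syn_val (ω := b), syn_val (ω := b), syn_val (ω := b), syn_val (ω := b), one_mul, one_mul,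
      one_mul, one_mul]
    have h := synM_diff hb c a u.toList v.toList
    have e1 : ∀ g : Γ, u.toList ++ (FreeMonoid.of g).toList ++ v.toList =
        u.toList ++ g :: v.toList := by
      intro g
      rw [FreeMonoid.toList_of]
      simp
    rw [e1, e1, e1, e1]
    exact h
  · intro a
    rw [hα]
    unfold nn
    rw [syn_a_single, ← map_neg]
    congr 1
    have : syn_sgn S (FreeMonoid.of a) = -1 := by
      unfold syn_sgn
      rw [FreeMonoid.toList_of]
      simp
    rw [this, one_mul, ← MonoidAlgebra.single_neg]
  · intro x y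
    obtain ⟨x, rfl⟩ := hf x
    obtain ⟨y, rfl⟩ := hf y
    rw [← map_mul, hD', hD', hD', hα, syn_d_mul, map_add, map_mul, map_mul]
  · intro a
    rw [hD']
    unfold nn
    rw [syn_d_single, one_smul, FreeMonoid.toList_of, ← map_one f]
    congr 1
    unfold syn_t
    simp only [List.length_singleton, Finset.range_one, Finset.sum_singleton, pow_zero,
      List.eraseIdx_zero, List.tail_cons]
    rfl
  · intro x
    obtain ⟨x, rfl⟩ := hf x
    rw [hD', ← map_mul, hL, hL, synM_lin_d hb]
  · refine ⟨1, ?_, map_one f⟩
    refine AddSubgroup.subset_closure ⟨1, 1, ?_, rfl⟩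
    rw [FreeMonoid.toList_one]
    rfl
  · rintro a b _ _ ⟨x, hx, rfl⟩ ⟨y, hy, rfl⟩
    exact ⟨x * y, syn_w_mul hx hy, map_mul f x y⟩
  · intro a
    refine ⟨nn a, AddSubgroup.subset_closure ⟨FreeMonoid.of a, 1, ?_, rfl⟩, rfl⟩
    rw [FreeMonoid.toList_of]
    rfl
  · rintro d _ ⟨x, hx, rfl⟩ hdr
    change L (f x) = 0
    rw [hL]
    refine AddSubgroup.closure_induction
      (p := fun x _ => lin (fun w : FreeMonoid Γ => b c w.toList) x = 0) ?_ ?_ ?_ ?_ hx
    · rintro _ ⟨w, t, hw, rfl⟩
      rw [lin_single, hb.len c _ (by rw [hw]; exact hdr), mul_zero]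
    · exact map_zero _
    · intro y z _ _ h1 h2
      rw [map_add, h1, h2, add_zero]
    · intro y _ h1
      rw [map_neg, h1, neg_zero]

end Pool.Agent.Lib.MP_8f66f0_al_Mixed
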