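import Mathlib
import Pool.Agent.Lib.MP_8f66f0_al_ChernS.Vx
import Pool.Agent.Lib.MP_8f66f0_al_Mixed.P2
import Pool.Agent.Lib.MP_8f66f0_al_Mixed.SynM

/-! # P1 and P2 for words. -/

set_option autoImplicit false
set_option linter.unusedSectionVars false
set_option linter.unusedVariables false

namespace Pool.Agent.Lib.MP_8f66f0_al_Mixed

open Pool.Agent.Lib.MP_8f66f0_al_FinQ Pool.Agent.Lib.MP_8f66f0_al_Uni
  Pool.Agent.Lib.MP_8f66f0_al_ChernS

variable {Γ : Type*} [Group Γ] {k : ℕ} {b : Γ → List Γ → ℤ}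

theorem rootB_trans (hb : IsMixed k b) (x c : Γ) (z : MonoidAlgebra ℤ (FreeMonoid Γ)) :
    Lc b (x * c * x⁻¹) (trans x z) = Lc b c z := by
  have h : (Lc b (x * c * x⁻¹)).comp (MP_8f66f0_al_ChernS.trans x).toAddMonoidHom = Lc b c := by
    refine MonoidAlgebra.addMonoidHom_ext fun w a => ?_
    change Lc b (x * c * x⁻¹) (trans x (MonoidAlgebra.single w a)) = _
    rw [vx_trans_single]
    unfold Lc
    rw [lin_single, lin_single, FreeMonoid.toList_map, hb.equivariant]
  rw [← h]
  rfl

/-- One rotation step for an expression compatible with translations. -/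
theorem rootB_step (hb : IsMixed k b)
    (Φ : (ℕ → MonoidAlgebra ℤ (FreeMonoid Γ)) → MonoidAlgebra ℤ (FreeMonoid Γ))
    (hΦ : ∀ (x : Γ) (N : ℕ → MonoidAlgebra ℤ (FreeMonoid Γ)),
      trans x (Φ N) = Φ (fun j => trans x (N j)))
    (w : List Γ) :
    Lc b (w.rotate 1).prod (Φ fun j => nn (vx (w.rotate 1) j)) =
      Lc b w.prod (Φ fun j => nn (vx w (j + 1))) := by
  cases w with
  | nil =>
    have h : ∀ j : ℕ, vx ([] : List Γ) j = vx [] (j + 1) := by
      intro j
      simp [vx]
    simp only [List.rotate_nil]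
    congr 2
    funext j
    rw [h j]
  | cons a w' =>
    have h1 : (fun j => (nn (vx ((a :: w').rotate 1) j) : MonoidAlgebra ℤ (FreeMonoid Γ))) =
        fun j => MP_8f66f0_al_ChernS.trans a⁻¹ (nn (vx (a :: w') (j + 1))) := by
      funext j
      rw [trans_nn, vx_rotate_one]
    have h2 : ((a :: w').rotate 1).prod = a⁻¹ * (a :: w').prod * a⁻¹⁻¹ := by
      rw [prod_rotate_one, inv_inv]
    rw [h1, h2, ← hΦ, rootB_trans hb]

/-- The rotation rule for an expression compatible with translations. -/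
theorem rootB_shift (hb : IsMixed k b)
    (Φ : (ℕ → MonoidAlgebra ℤ (FreeMonoid Γ)) → MonoidAlgebra ℤ (FreeMonoid Γ))
    (hΦ : ∀ (x : Γ) (N : ℕ → MonoidAlgebra ℤ (FreeMonoid Γ)),
      trans x (Φ N) = Φ (fun j => trans x (N j)))
    (w : List Γ) (t : ℕ) :
    Lc b (w.rotate t).prod (Φ fun j => nn (vx (w.rotate t) j)) =
      Lc b w.prod (Φ fun j => nn (vx w (j + t))) := by
  induction t generalizing Φ with
  | zero => simp
  | succ t ih =>
    rw [← List.rotate_rotate, rootB_step hb Φ hΦ (w.rotate t)]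
    have h := ih (fun N => Φ fun j => N (j + 1)) (fun x N => hΦ x _)
    simp only at h
    rw [h]
    congr 2
    funext j
    rw [add_assoc, add_comm 1 t]

section maps

variable {K K' : Type*} [Ring K] [Ring K']

theorem rootB_map_hh (f : K →+* K') (n : ℕ) (x y : K) : f (hh n x y) = hh n (f x) (f y) := by
  unfold hh
  rw [map_sum]
  refine Finset.sum_congr rfl fun i _ => ?_
  rw [map_mul, map_pow, map_pow]

theorem rootB_map_Om (f : K →+* K') (Q : ℕ) (N : ℕ → K) :
    f (Om Q N) = Om Q fun j => f (N j) := by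
  unfold Om
  rw [map_sum]
  refine Finset.sum_congr rfl fun t _ => ?_
  rw [map_sum]
  refine Finset.sum_congr rfl fun s _ => ?_
  rw [map_zsmul]
  unfold ta ch
  rw [map_mul, map_mul, map_mul, map_mul]

theorem rootB_map_exV (f : K →+* K') (m Q : ℕ) (N : ℕ → K) :
    f (exV m Q N) = exV m Q fun j => f (N j) := by
  unfold exV
  rw [map_mul, map_sub, map_sub, map_mul, map_mul, map_sub, rootB_map_Om, rootB_map_hh, map_pow,
    map_pow, map_pg, map_pg]

theorem rootB_map_exG (f : K →+* K') (m Q : ℕ) (N : ℕ → K) :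
    f (exG m Q N) = exG m Q fun j => f (N j) := by
  unfold exG
  rw [map_add, map_mul, map_ofNat, map_exF, map_sub, rootB_map_exV, rootB_map_exV]

end maps

/-- PROOF. As `eps_sum` in `MP_8f66f0_al_ChernS`: rotations (`vx_rotate_one`, `Lc_trans`), `exists_sup`, `P1`. -/
theorem epsM_sum (hb : IsMixed k b) (hk : 0 < k) (x : List Γ) (hx : x ≠ []) :
    ∑ t ∈ Finset.range x.length, epsM k b (x.rotate t) = 2 * (GG k 0 * b x.prod []) := by
  obtain ⟨K, _, f, α, D, L, ρ, deg, SS⟩ := exists_sup hb x.prod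
  have h := P1 SS x.length (vx x) (fun j => by rw [vx_add x hx j, SS.period]) hk
  have h1 : L 1 = b x.prod [] := by
    rw [← map_one f, SS.L_f]
    have e1 : (1 : MonoidAlgebra ℤ (FreeMonoid Γ)) = MonoidAlgebra.single 1 1 := rfl
    rw [e1]
    unfold Lc
    rw [lin_single, one_mul]
    rfl
  rw [← h1, ← h, Finset.mul_sum]
  refine Finset.sum_congr rfl fun t _ => ?_
  unfold epsM
  congr 1
  refine Finset.sum_congr rfl fun m _ => ?_
  congr 1
  rw [List.length_rotate, rootB_shift hb (fun N => exE m x.length N)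
    (fun y N => map_exE (trans y) m x.length N) x t, ← SS.L_f, map_exE]
  congr 2
  funext j
  rw [add_comm j t]

/-- PROOF. As `FF_diff` in `MP_8f66f0_al_ChernS`. -/
theorem FM_diff (hb : IsMixed k b) (Q : ℕ) (hQ : 0 < Q) (e : List Γ) (he : e.length = 2 * Q) :
    FM k b Q (e.rotate 2) - FM k b Q e = epsM k b (d0 (e.rotate 1)) - epsM k b (d0 e) := by
  obtain ⟨K, _, f, α, D, L, ρ, deg, SS⟩ := exists_sup hb e.prod
  have he1 : (e.rotate 1).length = 2 * Q := by rw [List.length_rotate, he]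
  have hne : e ≠ [] := by
    intro h
    rw [h] at he
    simp at he
    omega
  have hv : ∀ j, f (nn (vx e (j + 2 * Q))) = f (nn (vx e j)) + ρ := by
    intro j
    rw [← he, vx_add e hne j, SS.period]
  have h := P2 SS Q hQ (vx e) hv
  have e1 : FM k b Q (e.rotate 2) =
      ∑ m ∈ Finset.range k, GG k m * L (exG m Q fun j => f (nn (vx e (j + 2)))) := by
    unfold FM
    refine Finset.sum_congr rfl fun m _ => ?_
    rw [rootB_shift hb (fun N => exG m Q N) (fun y N => rootB_map_exG (trans y) m Q N) e 2,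
      ← SS.L_f, rootB_map_exG]
  have e2 : FM k b Q e =
      ∑ m ∈ Finset.range k, GG k m * L (exG m Q fun j => f (nn (vx e j))) := by
    unfold FM
    refine Finset.sum_congr rfl fun m _ => ?_
    rw [← SS.L_f, rootB_map_exG]
  have e3 : epsM k b (d0 (e.rotate 1)) =
      2 * ∑ m ∈ Finset.range k, GG k m * L (exE m Q fun j => f (nn (vx e (2 * j + 1)))) := by
    unfold epsM
    congr 1
    refine Finset.sum_congr rfl fun m _ => ?_
    rw [MP_8f66f0_al_ChernS.length_d0 Q (e.rotate 1) he1, MP_8f66f0_al_ChernS.prod_d0 Q (e.rotate 1) he1]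
    have h1 : (fun j => (nn (vx (d0 (e.rotate 1)) j) : MonoidAlgebra ℤ (FreeMonoid Γ))) =
        fun j => nn (vx (e.rotate 1) (2 * j)) := by
      funext j
      rw [vx_d0 Q (e.rotate 1) he1]
    rw [h1]
    have h2 := rootB_shift hb (fun N => exE m Q fun j => N (2 * j))
      (fun y N => map_exE (trans y) m Q _) e 1
    simp only at h2
    rw [h2, ← SS.L_f, map_exE]
  have e4 : epsM k b (d0 e) =
      2 * ∑ m ∈ Finset.range k, GG k m * L (exE m Q fun j => f (nn (vx e (2 * j)))) := by
    unfold epsM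
    congr 1
    refine Finset.sum_congr rfl fun m _ => ?_
    rw [MP_8f66f0_al_ChernS.length_d0 Q e he, MP_8f66f0_al_ChernS.prod_d0 Q e he]
    have h1 : (fun j => (nn (vx (d0 e) j) : MonoidAlgebra ℤ (FreeMonoid Γ))) =
        fun j => nn (vx e (2 * j)) := by
      funext j
      rw [vx_d0 Q e he]
    rw [h1, ← SS.L_f, map_exE]
  rw [e1, e2, e3, e4, ← mul_sub, ← Finset.sum_sub_distrib, ← Finset.sum_sub_distrib]
  simp only [← mul_sub]
  exact h

end Pool.Agent.Lib.MP_8f66f0_al_Mixed
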