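import Mathlib
import Pool.Agent.Lib.MP_8f66f0_al_Mixed.Defs

/-! # Repeated polygons. -/

set_option autoImplicit false
set_option linter.unusedSectionVars false
set_option linter.unusedVariables false

namespace Pool.Agent.Lib.MP_8f66f0_al_Mixed

open Pool.Agent.Lib.MP_8f66f0_al_FinQ Pool.Agent.Lib.MP_8f66f0_al_Uni
  Pool.Agent.Lib.MP_8f66f0_al_ChernS

section rep
variable {K : Type*} [Ring K]

/-- The hypotheses of the repetition. -/
structure RepH (M : ℕ → K) (ρ : K) (L : ℕ) : Prop where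
  anti : ∀ i j, M i * M j = - (M j * M i)
  sq : ρ * ρ = 0
  ar : ∀ j, M j * ρ = - (ρ * M j)
  per : ∀ j, M (j + L) = M j + ρ

theorem rep_sum_mul {A : Type*} [AddCommMonoid A] (f : ℕ → A) (p Q : ℕ) :
    ∑ t ∈ Finset.range (p * Q), f t = ∑ i ∈ Finset.range p, ∑ t ∈ Finset.range Q, f (i * Q + t) := by
  induction p with
  | zero => simp
  | succ p ih => rw [Nat.succ_mul, Finset.sum_range_add, ih, Finset.sum_range_succ]

theorem rep_per {M : ℕ → K} {ρ : K} {L : ℕ} (h : RepH M ρ L) (i j : ℕ) :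
    M (i * L + j) = M j + (i : K) * ρ := by
  induction i with
  | zero => simp
  | succ i ih =>
    have e : (i + 1) * L + j = (i * L + j) + L := by ring
    rw [e, h.per, ih]
    push_cast
    rw [add_mul, one_mul, add_assoc]

theorem rep_x {M : ℕ → K} {ρ : K} {L : ℕ} (h : RepH M ρ L) (i : ℕ) :
    ((i : K) * ρ) * ((i : K) * ρ) = 0 ∧ ∀ j, M j * ((i : K) * ρ) = - (((i : K) * ρ) * M j) := by
  constructor
  · have hc : ρ * (i : K) = (i : K) * ρ := (Nat.cast_commute i ρ).symm.eq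
    calc ((i : K) * ρ) * ((i : K) * ρ) = (i : K) * (ρ * (i : K)) * ρ := by
          simp only [mul_assoc]
      _ = (i : K) * (i : K) * (ρ * ρ) := by
          rw [hc]
          simp only [mul_assoc]
      _ = 0 := by rw [h.sq, mul_zero]
  · intro j
    rw [← mul_assoc, (Nat.cast_commute i (M j)).symm.eq, mul_assoc, h.ar, mul_neg, mul_assoc]

theorem rep_pg {M : ℕ → K} {ρ : K} {L : ℕ} (h : RepH M ρ L) (p : ℕ) :
    pg M (p * L) = (p : K) * pg M L := by
  unfold pg
  rw [rep_sum_mul]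
  have e : ∀ i, ∑ t ∈ Finset.range L, M (i * L + t) * M (i * L + t + 1) =
      ∑ t ∈ Finset.range L, M t * M (t + 1) := by
    intro i
    obtain ⟨h1, h2⟩ := rep_x h i
    have e1 : ∀ t, M (i * L + t) * M (i * L + t + 1) = M t * M (t + 1) +
        ((i : K) * ρ) * (M (t + 1) - M t) := by
      intro t
      rw [add_assoc, rep_per h, rep_per h, add_mul, mul_add, mul_add, h1, h2, mul_sub]
      abel
    simp only [e1]
    rw [Finset.sum_add_distrib, ← Finset.mul_sum, Finset.sum_range_sub]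
    have e2 : M L - M 0 = ρ := by
      have := h.per 0
      rw [Nat.zero_add] at this
      rw [this]
      abel
    rw [e2, mul_assoc, h.sq, mul_zero, add_zero]
  simp only [e]
  rw [Finset.sum_const, Finset.card_range, nsmul_eq_mul]

theorem rep_three {x a b c : K} (hx : x * x = 0) (ha : a * x = - (x * a)) (hb : b * x = - (x * b)) :
    (a + x) * (b + x) * (c + x) = a * b * c + x * (a * b + b * c - a * c) + a * b * x - x * (a * b) := by
  have e1 : a * b * x = x * (a * b) := by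
    rw [mul_assoc, hb, mul_neg, ← mul_assoc, ha, neg_mul, neg_neg, mul_assoc]
  have e2 : a * x * x = 0 := by rw [mul_assoc, hx, mul_zero]
  have e3 : x * b * x = 0 := by rw [mul_assoc, hb, mul_neg, ← mul_assoc, hx, zero_mul, neg_zero]
  simp only [add_mul, mul_add, mul_sub]
  rw [e2, e3, hx, ha, e1]
  simp only [zero_mul, neg_mul, mul_assoc]
  abel

theorem rep_end {M : ℕ → K} {ρ : K} {L : ℕ} (h : RepH M ρ L) : M L - M 0 = ρ := by
  have := h.per 0
  rw [Nat.zero_add] at this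
  rw [this]
  abel

/-- the shifted and the even sequences -/
theorem rep_shift {M : ℕ → K} {ρ : K} {L : ℕ} (h : RepH M ρ L) : RepH (fun j => M (j + 1)) ρ L where
  anti := fun i j => h.anti _ _
  sq := h.sq
  ar := fun j => h.ar _
  per := fun j => by
    show M (j + L + 1) = M (j + 1) + ρ
    rw [← h.per]
    congr 1
    omega

theorem rep_even {M : ℕ → K} {ρ : K} {Q : ℕ} (h : RepH M ρ (2 * Q)) :
    RepH (fun j => M (2 * j)) ρ Q where
  anti := fun i j => h.anti _ _
  sq := h.sq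
  ar := fun j => h.ar _
  per := fun j => by
    show M (2 * (j + Q)) = M (2 * j) + ρ
    rw [← h.per]
    congr 1
    omega

theorem rep_tri_block {M : ℕ → K} {ρ : K} {Q : ℕ} (h : RepH M ρ (2 * Q)) (i : ℕ) :
    ∑ t ∈ Finset.range Q, M (2 * (i * Q + t)) * M (2 * (i * Q + t) + 1) * M (2 * (i * Q + t) + 2) =
      tri M Q + ((i : K) * ρ) * (pg M (2 * Q) - pg (fun j => M (2 * j)) Q) := by
  obtain ⟨h1, h2⟩ := rep_x h i
  have e1 : ∀ t, M (2 * (i * Q + t)) * M (2 * (i * Q + t) + 1) * M (2 * (i * Q + t) + 2) =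
      M (2 * t) * M (2 * t + 1) * M (2 * t + 2) + ((i : K) * ρ) *
        (M (2 * t) * M (2 * t + 1) + M (2 * t + 1) * M (2 * t + 2) - M (2 * t) * M (2 * t + 2)) := by
    intro t
    have a0 : 2 * (i * Q + t) = i * (2 * Q) + 2 * t := by ring
    have a1 : 2 * (i * Q + t) + 1 = i * (2 * Q) + (2 * t + 1) := by ring
    have a2 : 2 * (i * Q + t) + 2 = i * (2 * Q) + (2 * t + 2) := by ring
    rw [a0, add_assoc, add_assoc, rep_per h, rep_per h, rep_per h, rep_three h1 (h2 _) (h2 _)]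
    have e2 : M (2 * t) * M (2 * t + 1) * ((i : K) * ρ) =
        ((i : K) * ρ) * (M (2 * t) * M (2 * t + 1)) := by
      rw [mul_assoc, h2, mul_neg, ← mul_assoc, h2, neg_mul, neg_neg, mul_assoc]
    rw [e2]
    abel
  simp only [e1]
  rw [Finset.sum_add_distrib, ← Finset.mul_sum, Finset.sum_sub_distrib]
  have e3 : ∑ t ∈ Finset.range Q, (M (2 * t) * M (2 * t + 1) + M (2 * t + 1) * M (2 * t + 2)) =
      pg M (2 * Q) := by
    unfold pg
    clear h h1 h2 e1
    induction Q with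
    | zero => simp
    | succ Q ih =>
      rw [Finset.sum_range_succ, ih, show 2 * (Q + 1) = 2 * Q + 1 + 1 by ring,
        Finset.sum_range_succ, Finset.sum_range_succ, add_assoc]
  rw [e3]
  rfl

theorem rep_tri {M : ℕ → K} {ρ : K} {Q : ℕ} (h : RepH M ρ (2 * Q)) (p : ℕ) :
    2 * tri M (p * Q) = (p : K) * (2 * tri M Q) + (p : K) * (((p : K) - 1) *
      (ρ * (pg M (2 * Q) - pg (fun j => M (2 * j)) Q))) := by
  have e1 : tri M (p * Q) = ∑ i ∈ Finset.range p, (tri M Q +
      ((i : K) * ρ) * (pg M (2 * Q) - pg (fun j => M (2 * j)) Q)) := by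
    unfold tri
    rw [rep_sum_mul]
    exact Finset.sum_congr rfl fun i _ => rep_tri_block h i
  rw [e1]
  clear e1
  set τ := tri M Q
  set W := pg M (2 * Q) - pg (fun j => M (2 * j)) Q
  clear_value τ W
  induction p with
  | zero => simp
  | succ p ih =>
    rw [Finset.sum_range_succ, mul_add, ih]
    push_cast
    have e4 : (p : K) * (((p : K) - 1) * (ρ * W)) = (p : K) * ((p : K) * (ρ * W)) - (p : K) * (ρ * W) := by
      rw [sub_mul, mul_sub, one_mul]
    have e5 : ((p : K) + 1) * (((p : K) + 1 - 1) * (ρ * W)) =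
        (p : K) * ((p : K) * (ρ * W)) + (p : K) * (ρ * W) := by
      rw [add_sub_cancel_right, add_mul, one_mul]
    rw [e4, e5, add_mul, one_mul, mul_add, two_mul ((p : K) * ρ * W), mul_assoc (p : K) ρ W]
    abel

theorem rep_sign (p Q : ℕ) (s t : ℕ) (hs : s < Q) (ht : t < Q) :
    ∑ i ∈ Finset.range p, ∑ i' ∈ Finset.range p,
      Int.sign (((i' * Q + s : ℕ) : ℤ) - ((i * Q + t : ℕ) : ℤ)) = p * Int.sign ((s : ℤ) - (t : ℤ)) := by
  have e1 : ∀ i i' : ℕ, Int.sign (((i' * Q + s : ℕ) : ℤ) - ((i * Q + t : ℕ) : ℤ)) =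
      (if i = i' then Int.sign ((s : ℤ) - (t : ℤ)) else 0) + Int.sign ((i' : ℤ) - (i : ℤ)) := by
    intro i i'
    rcases lt_trichotomy i i' with h | h | h
    · rw [if_neg (by omega), zero_add, Int.sign_eq_one_of_pos (a := (i' : ℤ) - i) (by omega),
        Int.sign_eq_one_of_pos]
      have : (i + 1) * Q ≤ i' * Q := Nat.mul_le_mul_right _ h
      have h3 : (i + 1) * Q = i * Q + Q := by ring
      omega
    · subst h
      rw [if_pos rfl, sub_self, Int.sign_zero, add_zero]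
      congr 1
      push_cast
      ring
    · rw [if_neg (by omega), zero_add, Int.sign_eq_neg_one_of_neg (a := (i' : ℤ) - i) (by omega),
        Int.sign_eq_neg_one_of_neg]
      have : (i' + 1) * Q ≤ i * Q := Nat.mul_le_mul_right _ h
      have h3 : (i' + 1) * Q = i' * Q + Q := by ring
      omega
  simp only [e1, Finset.sum_add_distrib]
  have e2 : ∑ i ∈ Finset.range p, ∑ i' ∈ Finset.range p, Int.sign ((i' : ℤ) - (i : ℤ)) = 0 := by
    have h1 : ∑ i ∈ Finset.range p, ∑ i' ∈ Finset.range p, Int.sign ((i' : ℤ) - (i : ℤ)) =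
        - ∑ i ∈ Finset.range p, ∑ i' ∈ Finset.range p, Int.sign ((i' : ℤ) - (i : ℤ)) := by
      conv_lhs => rw [Finset.sum_comm]
      rw [← Finset.sum_neg_distrib]
      refine Finset.sum_congr rfl fun i _ => ?_
      rw [← Finset.sum_neg_distrib]
      refine Finset.sum_congr rfl fun i' _ => ?_
      rw [← Int.sign_neg]
      congr 1
      ring
    omega
  rw [e2, add_zero]
  simp only [Finset.sum_ite_eq, Finset.mem_range]
  rw [Finset.sum_congr rfl (fun i hi => if_pos (Finset.mem_range.1 hi)), Finset.sum_const,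
    Finset.card_range, nsmul_eq_mul]

theorem rep_step {M : ℕ → K} {ρ : K} {L : ℕ} (h : RepH M ρ L) (k j : ℕ) {x y : K}
    (hxy : ρ * x = ρ * y) : ρ * ((M j + (k : K) * ρ) * x) = ρ * (M j * y) := by
  have e : ρ * ((k : K) * ρ) = 0 := by
    rw [← mul_assoc, (Nat.cast_commute k ρ).symm.eq, mul_assoc, h.sq, mul_zero]
  have hm : ρ * M j = - (M j * ρ) := by rw [h.ar, neg_neg]
  rw [← mul_assoc, mul_add, e, add_zero, ← mul_assoc, hm, neg_mul, neg_mul, mul_assoc, mul_assoc,
    hxy]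

theorem rep_rta {M : ℕ → K} {ρ : K} {Q : ℕ} (h : RepH M ρ (2 * Q)) (i i' t s : ℕ) :
    ρ * (ta M (i * Q + t) * ch M (i' * Q + s)) = ρ * (ta M t * ch M s) := by
  unfold ta ch
  have a0 : ∀ i t, 2 * (i * Q + t) = i * (2 * Q) + 2 * t := by intro i t; ring
  simp only [a0, add_assoc, rep_per h, mul_assoc]
  refine rep_step h _ _ (rep_step h _ _ (rep_step h _ _ (rep_step h _ _ ?_)))
  have := rep_step h i' (2 * s + 2) (x := 1) (y := 1) rfl
  rwa [mul_one, mul_one] at this

theorem rep_Om {M : ℕ → K} {ρ : K} {Q : ℕ} (h : RepH M ρ (2 * Q)) (p : ℕ) :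
    ρ * Om (p * Q) M = (p : K) * (ρ * Om Q M) := by
  unfold Om
  rw [rep_sum_mul]
  have e1 : ∀ i, ∑ t ∈ Finset.range Q, ∑ s ∈ Finset.range (p * Q),
      (Int.sign ((s : ℤ) - ((i * Q + t : ℕ) : ℤ))) • (ta M (i * Q + t) * ch M s) =
      ∑ t ∈ Finset.range Q, ∑ i' ∈ Finset.range p, ∑ s ∈ Finset.range Q,
        (Int.sign (((i' * Q + s : ℕ) : ℤ) - ((i * Q + t : ℕ) : ℤ))) •
          (ta M (i * Q + t) * ch M (i' * Q + s)) := by
    intro i
    exact Finset.sum_congr rfl fun t _ => rep_sum_mul _ _ _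
  simp only [e1, Finset.mul_sum, mul_smul_comm, rep_rta h]
  have e2 : ∑ i ∈ Finset.range p, ∑ t ∈ Finset.range Q, ∑ i' ∈ Finset.range p,
      ∑ s ∈ Finset.range Q, (Int.sign (((i' * Q + s : ℕ) : ℤ) - ((i * Q + t : ℕ) : ℤ))) •
        (ρ * (ta M t * ch M s)) =
      ∑ t ∈ Finset.range Q, ∑ s ∈ Finset.range Q, ∑ i ∈ Finset.range p, ∑ i' ∈ Finset.range p,
        (Int.sign (((i' * Q + s : ℕ) : ℤ) - ((i * Q + t : ℕ) : ℤ))) • (ρ * (ta M t * ch M s)) := by
    rw [Finset.sum_comm]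
    refine Finset.sum_congr rfl fun t _ => ?_
    have e3 : ∀ i, ∑ i' ∈ Finset.range p,
      ∑ s ∈ Finset.range Q, (Int.sign (((i' * Q + s : ℕ) : ℤ) - ((i * Q + t : ℕ) : ℤ))) •
        (ρ * (ta M t * ch M s)) = ∑ s ∈ Finset.range Q, ∑ i' ∈ Finset.range p,
        (Int.sign (((i' * Q + s : ℕ) : ℤ) - ((i * Q + t : ℕ) : ℤ))) •
        (ρ * (ta M t * ch M s)) := fun i => Finset.sum_comm
    simp only [e3]
    rw [Finset.sum_comm]
  rw [e2]
  refine Finset.sum_congr rfl fun t ht => Finset.sum_congr rfl fun s hs => ?_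
  simp only [← Finset.sum_smul]
  rw [rep_sign p Q s t (Finset.mem_range.1 hs) (Finset.mem_range.1 ht), mul_smul, natCast_zsmul,
    nsmul_eq_mul, mul_smul_comm]

theorem rep_hh (n p : ℕ) (x y : K) : (p : K) * hh n ((p : K) * x) ((p : K) * y) =
    (p : K) ^ n * hh n x y := by
  unfold hh
  rw [Finset.mul_sum, Finset.mul_sum]
  refine Finset.sum_congr rfl fun i hi => ?_
  have hi' := Finset.mem_range.1 hi
  rw [(Nat.cast_commute p x).mul_pow, (Nat.cast_commute p y).mul_pow]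
  have e1 : x ^ i * (p : K) ^ (n - 1 - i) = (p : K) ^ (n - 1 - i) * x ^ i :=
    (((Nat.cast_commute p (x ^ i)).pow_left (n - 1 - i)).symm).eq
  have e2 : (p : K) ^ n = (p : K) * ((p : K) ^ i * (p : K) ^ (n - 1 - i)) := by
    rw [← pow_add, ← pow_succ']
    congr 1
    omega
  rw [e2]
  simp only [mul_assoc]
  rw [← mul_assoc (x ^ i), e1]
  simp only [mul_assoc]

theorem rep_hh_sub (n : ℕ) (x y : K) (hxy : x * y = y * x) :
    (y - x) * hh n x y = y ^ n - x ^ n := by
  have h := (show Commute x y from hxy).mul_geom_sum₂ n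
  have h' := (show Commute x y from hxy).symm.mul_geom_sum₂ n
  unfold hh
  have e : ∑ i ∈ Finset.range n, x ^ i * y ^ (n - 1 - i) =
      ∑ i ∈ Finset.range n, y ^ i * x ^ (n - 1 - i) := by
    rw [← Finset.sum_range_reflect]
    refine Finset.sum_congr rfl fun i hi => ?_
    have hi' := Finset.mem_range.1 hi
    rw [show n - 1 - (n - 1 - i) = i by omega]
    exact (((show Commute x y from hxy).pow_pow _ _)).eq
  rw [e]
  exact h'

theorem rep_even3 {M : ℕ → K} (hM : ∀ i j, M i * M j = - (M j * M i)) (i j k : ℕ) :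
    M i * M j * M k = M k * (M i * M j) := by
  rw [mul_assoc, hM j k, mul_neg, ← mul_assoc, hM i k, neg_mul, neg_neg, mul_assoc]

theorem rep_even4 {M : ℕ → K} (hM : ∀ i j, M i * M j = - (M j * M i)) (i j k l : ℕ) :
    M i * M j * (M k * M l) = M k * M l * (M i * M j) := by
  rw [← mul_assoc, rep_even3 hM, mul_assoc (M k), rep_even3 hM i j l, ← mul_assoc (M k)]

theorem rep_comm {M : ℕ → K} (hM : ∀ i j, M i * M j = - (M j * M i)) (Q n : ℕ) :
    pg (fun j => M (2 * j)) Q * pg M n = pg M n * pg (fun j => M (2 * j)) Q := by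
  unfold pg
  rw [Finset.sum_mul_sum, Finset.sum_mul_sum, Finset.sum_comm]
  exact Finset.sum_congr rfl fun i _ => Finset.sum_congr rfl fun j _ => rep_even4 hM _ _ _ _

theorem rep_hmt {M : ℕ → K} {ρ : K} {Q : ℕ} (h : RepH M ρ (2 * Q)) (m p : ℕ) (hp : 0 < p) :
    2 * hmt m (p * Q) M = (p : K) ^ m * (2 * hmt m Q M + ((p : K) - 1) *
      (ρ * ((pg M (2 * Q)) ^ m - (pg (fun j => M (2 * j)) Q) ^ m))) := by
  have e0 : hmt m (p * Q) M = tri M (p * Q) * hh m (pg (fun j => M (2 * j)) (p * Q))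
    (pg M (2 * (p * Q))) := rfl
  have e0' : hmt m Q M = tri M Q * hh m (pg (fun j => M (2 * j)) Q) (pg M (2 * Q)) := rfl
  rw [e0, e0', show 2 * (p * Q) = p * (2 * Q) by ring, rep_pg h, rep_pg (rep_even h), ← mul_assoc,
    rep_tri h]
  set x := pg (fun j => M (2 * j)) Q
  set y := pg M (2 * Q)
  set H := hh m ((p : K) * x) ((p : K) * y) with hH
  have e1 : ∀ z : K, (p : K) * z * H = z * ((p : K) * H) := by
    intro z
    rw [(Nat.cast_commute p z).eq, mul_assoc]
  rw [add_mul, e1, e1, hH, rep_hh]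
  have e2 : ∀ z : K, z * ((p : K) ^ m * hh m x y) = (p : K) ^ m * (z * hh m x y) := by
    intro z
    rw [← mul_assoc, (((Nat.cast_commute p z).pow_left m).symm).eq, mul_assoc]
  rw [e2, e2, ← mul_add]
  congr 1
  rw [mul_assoc 2, mul_assoc, mul_assoc ρ, rep_hh_sub m x y (rep_comm h.anti Q (2 * Q))]

theorem rep_exV {M : ℕ → K} {ρ : K} {Q : ℕ} (h : RepH M ρ (2 * Q)) (m p : ℕ) :
    exV m (p * Q) M = (p : K) ^ m * (exV m Q M - ((p : K) - 1) *
      (ρ * (M 0 * ((pg M (2 * Q)) ^ m - (pg (fun j => M (2 * j)) Q) ^ m)))) := by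
  have e0 : M (2 * (p * Q)) - M 0 = (p : K) * ρ := by
    have := rep_per h p 0
    rw [Nat.add_zero] at this
    rw [show 2 * (p * Q) = p * (2 * Q) by ring, this]
    abel
  unfold exV
  rw [e0, rep_end h, show 2 * (p * Q) = p * (2 * Q) by ring, rep_pg h, rep_pg (rep_even h)]
  set x := pg (fun j => M (2 * j)) Q
  set y := pg M (2 * Q)
  have e1 : ∀ (k : ℕ) (z : K), z * (p : K) ^ k = (p : K) ^ k * z := by
    intro k z
    exact (((Nat.cast_commute p z).pow_left k).symm).eq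
  have e1' : ∀ (z : K), z * (p : K) = (p : K) * z := by
    intro z
    exact ((Nat.cast_commute p z).symm).eq
  have e2 : (p : K) * ρ * (Om (p * Q) M * hh (m - 1) ((p : K) * x) ((p : K) * y)) =
      (p : K) ^ m * (ρ * (Om Q M * hh (m - 1) x y)) := by
    rcases Nat.eq_zero_or_pos m with rfl | hm
    · simp [hh]
    · have e3 : (p : K) * ρ * (Om (p * Q) M * hh (m - 1) ((p : K) * x) ((p : K) * y)) =
          (p : K) * ((ρ * Om (p * Q) M) * hh (m - 1) ((p : K) * x) ((p : K) * y)) := by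
        simp only [mul_assoc]
      rw [e3, rep_Om h]
      have e4 : (p : K) * (ρ * Om Q M) * hh (m - 1) ((p : K) * x) ((p : K) * y) =
          (ρ * Om Q M) * ((p : K) * hh (m - 1) ((p : K) * x) ((p : K) * y)) := by
        rw [← e1', mul_assoc]
      rw [e4, rep_hh, ← mul_assoc (ρ * Om Q M), e1, mul_assoc ((p : K) ^ (m - 1)), ← mul_assoc (p : K),
        ← pow_succ', Nat.sub_add_cancel hm, mul_assoc ρ]
  have e5 : (p : K) * ρ * (M 0 * (((p : K) * y) ^ m - ((p : K) * x) ^ m)) =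
      (p : K) ^ m * ((p : K) * (ρ * (M 0 * (y ^ m - x ^ m)))) := by
    rw [(Nat.cast_commute p x).mul_pow, (Nat.cast_commute p y).mul_pow, ← mul_sub]
    calc (p : K) * ρ * (M 0 * ((p : K) ^ m * (y ^ m - x ^ m)))
        = (p : K) * ρ * (M 0 * (p : K) ^ m) * (y ^ m - x ^ m) := by simp only [mul_assoc]
      _ = (p : K) * (ρ * (p : K) ^ m) * M 0 * (y ^ m - x ^ m) := by
          rw [e1]
          simp only [mul_assoc]
      _ = ((p : K) * (p : K) ^ m) * ρ * M 0 * (y ^ m - x ^ m) := by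
          rw [e1 m ρ]
          simp only [mul_assoc]
      _ = _ := by
          rw [e1 m (p : K)]
          simp only [mul_assoc]
  rw [mul_sub, e2, e5, ← mul_sub]
  congr 1
  rw [mul_sub ρ, sub_mul, one_mul]
  abel

end rep

/-- PROOF. Write `π = pg N (2Q)`, `π0 = pg (N (2·)) Q`, `π1`, `π' = pg (N (·+1)) (2Q)`, `τ0 = tri N Q`,
`τ1 = tri (N (·+1)) Q`, `Ω0`, `Ω1`; `ρ = N (2Q) - N 0` anticommutes with all `N j`, `ρ^2 = 0`, products
of two letters commute with everything. `N (j + 2 Q i) = N j + i ρ`.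
`pg N (2 p Q) = p π` (and the same for `π0`, `π1`, `π'`): the block `i` is
`Σ (N j + iρ) (N (j+1) + iρ) = π + iρ (N (2Q) - N 0) = π + iρρ = π`.
`tri N (p Q) = p τ0 + (p choose 2) ρ (π - π0)`: the block `i` is
`Σ (N + iρ)(N' + iρ)(N'' + iρ) = τ0 + iρ (π - π0)`.
`ρ Om (p Q) N = p ρ Ω0`: modulo `ρ` the blocks are equal; the blocks `i = i'` give `p Ω0`, the
blocks `i < i'` and `i > i'` cancel. `hh n (p x) (p y) = p^(n-1) hh n x y`.
`(π - π0) hh m π0 π = π^m - π0^m`. So `2 exF m (pQ) N = p^m (2 exF m Q N - (p-1) ρ (N 1 (π'^m - π1^m) - N 0 (π^m - π0^m)))`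
and `exV m (p Q) N = p^m ρ (Ω0 hh (m-1) π0 π - p N 0 (π^m - π0^m))`, the same for the shifted sequence. -/
theorem exG_repeat {K : Type*} [Ring K] (N : ℕ → K) (ρ : K)
    (anti : ∀ i j, N i * N j = - (N j * N i)) (sq : ∀ i, N i * N i = 0) (Q p : ℕ) (hQ : 0 < Q)
    (hp : 0 < p) (hN : ∀ j, N (j + 2 * Q) = N j + ρ) (m : ℕ) :
    exG m (p * Q) N = (p : K) ^ m * exG m Q N := by
  have hr : ρ = N (2 * Q) - N 0 := by
    have := hN 0
    rw [Nat.zero_add] at this
    rw [this]
    abel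
  have h : RepH N ρ (2 * Q) :=
    { anti := anti
      sq := by
        rw [hr, sub_mul, mul_sub, mul_sub, sq, sq, anti 0 (2 * Q)]
        abel
      ar := by
        intro j
        rw [hr, mul_sub, sub_mul, anti j, anti j]
        abel
      per := hN }
  have h' := rep_shift h
  have e1 : ∀ (z : K), z * (p : K) ^ m = (p : K) ^ m * z := by
    intro z
    exact (((Nat.cast_commute p z).pow_left m).symm).eq
  have e2 : ∀ z : K, z * ((p : K) - 1) = ((p : K) - 1) * z := by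
    intro z
    rw [mul_sub, sub_mul, mul_one, one_mul, (Nat.cast_commute p z).eq]
  have e3 : ∀ z : K, z * 2 = 2 * z := by
    intro z
    rw [mul_two, two_mul]
  have hE : 2 * exE m (2 * (p * Q)) N = (p : K) ^ m * (2 * exE m (2 * Q) N) := by
    unfold exE
    rw [show 2 * (p * Q) = p * (2 * Q) by ring, rep_pg h, (Nat.cast_commute p (pg N (2 * Q))).mul_pow,
      ← mul_assoc (N 0 * N 1), e1, mul_assoc, ← mul_assoc 2, ← mul_assoc _ 2, e1 2, mul_assoc,
      mul_assoc]
  have hF : 2 * exF m (p * Q) N = (p : K) ^ m * (2 * exF m Q N + ((p : K) - 1) *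
      (- (ρ * (N 1 * ((pg (fun j => N (j + 1)) (2 * Q)) ^ m -
        (pg (fun j => N (2 * j + 1)) Q) ^ m))) + ρ * (N 0 * ((pg N (2 * Q)) ^ m -
        (pg (fun j => N (2 * j)) Q) ^ m)))) := by
    have a1 := rep_hmt h m p hp
    have a2 := rep_hmt h' m p hp
    have b1 : ∀ (z w : K), 2 * (z * w) = z * (2 * w) := by
      intro z w
      rw [← mul_assoc, ← e3, mul_assoc]
    unfold exF
    rw [mul_sub, mul_add, hE, b1, b1, a1, a2, ← mul_assoc (N 1), ← mul_assoc (N 0), e1, e1,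
      mul_assoc, mul_assoc, ← mul_add, ← mul_sub]
    congr 1
    rw [mul_add (N 1), mul_add (N 0), ← mul_assoc (N 1) ((p : K) - 1), ← mul_assoc (N 0) ((p : K) - 1),
      e2, e2, mul_assoc ((p : K) - 1), mul_assoc ((p : K) - 1), ← mul_assoc (N 1) ρ,
      ← mul_assoc (N 0) ρ, h.ar, h.ar, mul_sub 2, mul_add 2, b1, b1, mul_add ((p : K) - 1)]
    simp only [neg_mul, mul_neg, mul_assoc]
    abel
  have hV := rep_exV h m p
  have hV' := rep_exV h' m p
  unfold exG
  rw [hF, hV, hV', ← mul_sub, ← mul_add]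
  congr 1
  rw [mul_add ((p : K) - 1), mul_neg]
  abel


end Pool.Agent.Lib.MP_8f66f0_al_Mixed
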