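import Mathlib
import Pool.Agent.Lib.MP_8f66f0_al_Mixed.Defs

/-! # The cocycle on the `p`-th powers. -/

set_option autoImplicit false
set_option linter.unusedSectionVars false
set_option linter.unusedVariables false

namespace Pool.Agent.Lib.MP_8f66f0_al_Mixed

open Pool.Agent.Lib.MP_8f66f0_al_FinQ Pool.Agent.Lib.MP_8f66f0_al_Uni
  Pool.Agent.Lib.MP_8f66f0_al_ChernS

variable {Γ : Type*} [Group Γ] {k : ℕ} {b : Γ → List Γ → ℤ}

open Classical in
/-- The cocycle on the `p`-th powers defined by `b`. -/
noncomputable def lift (k p : ℕ) (b : Γ → List Γ → ℤ) (c : Γ) (u : List Γ) : ℤ :=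
  if h : ∃ w : Γ, w ^ p = c then (p : ℤ) ^ (k - u.length / 2) * b h.choose u else 0

theorem lift_pow {p : ℕ} (hroot : ∀ x y : Γ, x ^ p = y ^ p → x = y) (w : Γ) (u : List Γ) :
    lift k p b (w ^ p) u = (p : ℤ) ^ (k - u.length / 2) * b w u := by
  have h : ∃ w' : Γ, w' ^ p = w ^ p := ⟨w, rfl⟩
  unfold lift
  rw [dif_pos h, hroot _ _ h.choose_spec]

theorem rootA_not {p : ℕ} {c : Γ} (h : ¬ ∃ w : Γ, w ^ p = c) (u : List Γ) : lift k p b c u = 0 := by
  unfold lift
  rw [dif_neg h]

theorem rootA_mixed (hb : IsMixed k b) (w a : Γ) (u : List Γ) (j : ℕ) :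
    b w (w ^ j * a :: u) =
      b w (a :: u) - j * ∑ i ∈ Finset.range u.length, (-1) ^ i * b w (u.eraseIdx i) := by
  induction j with
  | zero => simp
  | succ j ih =>
    rw [pow_succ', mul_assoc, hb.mixed w (w ^ j * a) u, ih]
    push_cast
    ring

/-- PROOF. `mixed`: `b w (w^p a :: u) = b w (a :: u) - p Σ (-1)^i b w (u without i)` (induction), for `|u|` odd and `|u| < 2k`:
`k - (|u| + 1)/2 + 1 = k - (|u| - 1)/2`. -/
theorem lift_mixed {p : ℕ} (hp : 0 < p) (hroot : ∀ x y : Γ, x ^ p = y ^ p → x = y)
    (hb : IsMixed k b) : IsMixed k (lift k p b) where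
  len c u hu := by
    by_cases h : ∃ w : Γ, w ^ p = c
    · obtain ⟨w, rfl⟩ := h
      rw [lift_pow hroot, hb.len w u hu, mul_zero]
    · exact rootA_not h u
  odd c u hu := by
    by_cases h : ∃ w : Γ, w ^ p = c
    · obtain ⟨w, rfl⟩ := h
      rw [lift_pow hroot, hb.odd w u hu, mul_zero]
    · exact rootA_not h u
  equivariant x c u := by
    by_cases h : ∃ w : Γ, w ^ p = c
    · obtain ⟨w, rfl⟩ := h
      rw [← conj_pow, lift_pow hroot, lift_pow hroot, hb.equivariant, List.length_map]
    · have h' : ¬ ∃ w : Γ, w ^ p = x * c * x⁻¹ := by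
        rintro ⟨w, hw⟩
        refine h ⟨x⁻¹ * w * x, ?_⟩
        have := conj_pow (i := p) (a := x⁻¹) (b := w)
        rw [inv_inv] at this
        rw [this, hw]
        group
      rw [rootA_not h, rootA_not h']
  alternating c u a a' v := by
    by_cases h : ∃ w : Γ, w ^ p = c
    · obtain ⟨w, rfl⟩ := h
      rw [lift_pow hroot, lift_pow hroot, hb.alternating w u a a' v]
      simp only [List.length_append, List.length_cons]
      ring
    · rw [rootA_not h, rootA_not h, neg_zero]
  diag c u a v := by
    by_cases h : ∃ w : Γ, w ^ p = c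
    · obtain ⟨w, rfl⟩ := h
      rw [lift_pow hroot, hb.diag, mul_zero]
    · exact rootA_not h _
  mixed c a u := by
    by_cases h : ∃ w : Γ, w ^ p = c
    · obtain ⟨w, rfl⟩ := h
      have h1 : ∑ i ∈ Finset.range u.length, (-1) ^ i * lift k p b (w ^ p) (u.eraseIdx i) =
          (p : ℤ) ^ (k - (u.length - 1) / 2) *
            ∑ i ∈ Finset.range u.length, (-1) ^ i * b w (u.eraseIdx i) := by
        rw [Finset.mul_sum]
        refine Finset.sum_congr rfl fun i hi => ?_
        rw [lift_pow hroot, List.length_eraseIdx_of_lt (Finset.mem_range.1 hi)]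
        ring
      rw [h1, lift_pow hroot, lift_pow hroot, rootA_mixed hb, List.length_cons, List.length_cons,
        mul_sub]
      congr 1
      by_cases hodd : Odd u.length
      · by_cases hlt : u.length < 2 * k
        · obtain ⟨m, hm⟩ := hodd
          have h2 : k - (u.length - 1) / 2 = (k - (u.length + 1) / 2) + 1 := by
            omega
          rw [h2, pow_succ]
          ring
        · have h3 := hb.mixed w a u
          rw [hb.len w _ (by rw [List.length_cons]; omega),
            hb.len w _ (by rw [List.length_cons]; omega), zero_sub] at h3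
          rw [neg_eq_zero.1 h3.symm]
          ring
      · have h4 : ∑ i ∈ Finset.range u.length, (-1) ^ i * b w (u.eraseIdx i) = 0 := by
          refine Finset.sum_eq_zero fun i hi => ?_
          have hi' := Finset.mem_range.1 hi
          rw [hb.odd w _ ?_, mul_zero]
          rw [List.length_eraseIdx_of_lt hi']
          rw [Nat.not_odd_iff_even] at hodd
          obtain ⟨m, hm⟩ := hodd
          exact ⟨m - 1, by omega⟩
        rw [h4]
        ring
    · rw [rootA_not h, rootA_not h]
      rw [Finset.sum_eq_zero fun i _ => by rw [rootA_not h, mul_zero], sub_zero]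

end Pool.Agent.Lib.MP_8f66f0_al_Mixed
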