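import Mathlib
import Pool.Agent.Lib.MP_8f66f0_al_ChernS.Vx
import Pool.Agent.Lib.MP_8f66f0_al_Mixed.Rep
import Pool.Agent.Lib.MP_8f66f0_al_Mixed.RootA
import Pool.Agent.Lib.MP_8f66f0_al_Mixed.SynM

/-! # Repeated words. -/

set_option autoImplicit false
set_option linter.unusedSectionVars false
set_option linter.unusedVariables false

namespace Pool.Agent.Lib.MP_8f66f0_al_Mixed

open Pool.Agent.Lib.MP_8f66f0_al_FinQ Pool.Agent.Lib.MP_8f66f0_al_Uni
  Pool.Agent.Lib.MP_8f66f0_al_ChernS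

variable {Γ : Type*} [Group Γ] {k : ℕ} {b : Γ → List Γ → ℤ}

/-! ### The vertices of a repeated word -/

theorem rootC_len (p : ℕ) (e : List Γ) : (List.replicate p e).flatten.length = p * e.length := by
  simp

theorem rootC_prod (p : ℕ) (e : List Γ) : (List.replicate p e).flatten.prod = e.prod ^ p := by
  induction p with
  | zero => simp
  | succ p ih => rw [List.replicate_succ, List.flatten_cons, List.prod_append, ih, pow_succ']

theorem rootC_take (e : List Γ) (he : 0 < e.length) (p : ℕ) : ∀ r : ℕ, r < p * e.length →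
    ((List.replicate p e).flatten.take r).prod =
      e.prod ^ (r / e.length) * (e.take (r % e.length)).prod := by
  induction p with
  | zero => intro r hr; simp at hr
  | succ p ih =>
    intro r hr
    rw [List.replicate_succ, List.flatten_cons, List.take_append]
    rcases Nat.lt_or_ge r e.length with h | h
    · rw [Nat.div_eq_of_lt h, Nat.mod_eq_of_lt h, pow_zero, one_mul, Nat.sub_eq_zero_of_le h.le,
        List.take_zero, List.append_nil]
    · rw [List.take_of_length_le h, List.prod_append]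
      have h1 : r - e.length < p * e.length := by
        rw [Nat.succ_mul] at hr
        omega
      rw [ih _ h1]
      have h2 : r / e.length = (r - e.length) / e.length + 1 := by
        rw [Nat.div_eq_sub_div he h]
      have h3 : r % e.length = (r - e.length) % e.length := Nat.mod_eq_sub_mod h
      rw [h2, h3, pow_succ', mul_assoc]

theorem rootC_vx {p : ℕ} (hp : 0 < p) (e : List Γ) (he : 0 < e.length) (j : ℕ) :
    vx (List.replicate p e).flatten j = vx e j := by
  unfold vx
  rw [rootC_len, rootC_prod]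
  have hpl : 0 < p * e.length := Nat.mul_pos hp he
  rw [rootC_take e he p _ (Nat.mod_lt _ hpl), ← mul_assoc, ← pow_mul, ← pow_add]
  have h1 : p * (j / (p * e.length)) + j % (p * e.length) / e.length = j / e.length := by
    have h2 : j = e.length * (p * (j / (p * e.length))) + j % (p * e.length) := by
      have := Nat.div_add_mod j (p * e.length)
      calc j = p * e.length * (j / (p * e.length)) + j % (p * e.length) := this.symm
        _ = _ := by ring
    conv_rhs => rw [h2]
    rw [Nat.mul_add_div he]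
  have h4 : j % (p * e.length) % e.length = j % e.length := by
    exact Nat.mod_mod_of_dvd j (Dvd.intro_left p rfl)
  rw [h1, h4]

/-! ### Degrees -/

/-- The span of the words of length `d`. -/
noncomputable def rootC_H (Γ : Type*) (d : ℕ) : AddSubgroup (MonoidAlgebra ℤ (FreeMonoid Γ)) :=
  AddSubgroup.closure {z | ∃ (w : FreeMonoid Γ) (a : ℤ), w.toList.length = d ∧
    z = MonoidAlgebra.single w a}

theorem rootC_H_one : (1 : MonoidAlgebra ℤ (FreeMonoid Γ)) ∈ rootC_H Γ 0 := by
  refine AddSubgroup.subset_closure ⟨1, 1, rfl, ?_⟩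
  rw [MonoidAlgebra.one_def]

theorem rootC_H_nn (a : Γ) : (nn a : MonoidAlgebra ℤ (FreeMonoid Γ)) ∈ rootC_H Γ 1 :=
  AddSubgroup.subset_closure ⟨FreeMonoid.of a, 1, rfl, rfl⟩

theorem rootC_H_mul (c d : ℕ) (x y : MonoidAlgebra ℤ (FreeMonoid Γ)) (hx : x ∈ rootC_H Γ c)
    (hy : y ∈ rootC_H Γ d) : x * y ∈ rootC_H Γ (c + d) := by
  induction hx using AddSubgroup.closure_induction with
  | mem x hx =>
    obtain ⟨w, a, hw, rfl⟩ := hx
    induction hy using AddSubgroup.closure_induction with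
    | mem y hy =>
      obtain ⟨w', a', hw', rfl⟩ := hy
      rw [MonoidAlgebra.single_mul_single]
      refine AddSubgroup.subset_closure ⟨w * w', a * a', ?_, rfl⟩
      rw [FreeMonoid.toList_mul, List.length_append, hw, hw']
    | zero => rw [mul_zero]; exact AddSubgroup.zero_mem _
    | add y y' _ _ hy hy' => rw [mul_add]; exact AddSubgroup.add_mem _ hy hy'
    | neg y _ hy => rw [mul_neg]; exact AddSubgroup.neg_mem _ hy
  | zero => rw [zero_mul]; exact AddSubgroup.zero_mem _
  | add x x' _ _ hx hx' => rw [add_mul]; exact AddSubgroup.add_mem _ hx hx'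
  | neg x _ hx => rw [neg_mul]; exact AddSubgroup.neg_mem _ hx

section deg

variable {K : Type*} [Ring K] (deg : ℕ → AddSubgroup K) (h1 : (1 : K) ∈ deg 0)
  (hm : ∀ a b x y, x ∈ deg a → y ∈ deg b → x * y ∈ deg (a + b)) (N : ℕ → K)
  (hN : ∀ j, N j ∈ deg 1)

include h1 hm in
theorem rootC_pow {d : ℕ} {x : K} (hx : x ∈ deg d) (i : ℕ) : x ^ i ∈ deg (i * d) := by
  induction i with
  | zero => simpa using h1
  | succ i ih =>
    rw [pow_succ, Nat.succ_mul]
    exact hm _ _ _ _ ih hx

include hm hN in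
theorem rootC_pg (f : ℕ → ℕ) (n : ℕ) : pg (fun j => N (f j)) n ∈ deg 2 :=
  AddSubgroup.sum_mem _ fun j _ => hm 1 1 _ _ (hN _) (hN _)

include hm hN in
theorem rootC_tri (f : ℕ → ℕ) (n : ℕ) : tri (fun j => N (f j)) n ∈ deg 3 :=
  AddSubgroup.sum_mem _ fun j _ => hm 2 1 _ _ (hm 1 1 _ _ (hN _) (hN _)) (hN _)

include h1 hm in
theorem rootC_hh {x y : K} (hx : x ∈ deg 2) (hy : y ∈ deg 2) (n : ℕ) :
    hh (n + 1) x y ∈ deg (2 * n) := by
  refine AddSubgroup.sum_mem _ fun i hi => ?_
  have h := hm _ _ _ _ (rootC_pow deg h1 hm hx i) (rootC_pow deg h1 hm hy (n + 1 - 1 - i))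
  have e : i * 2 + (n + 1 - 1 - i) * 2 = 2 * n := by
    have := Finset.mem_range.1 hi
    omega
  rwa [e] at h

theorem rootC_hh_zero (x y : K) : hh 0 x y = 0 := by
  unfold hh
  simp

include h1 hm hN in
theorem rootC_exE (f : ℕ → ℕ) (m n : ℕ) : exE m n (fun j => N (f j)) ∈ deg (2 * m + 2) := by
  have h := hm _ _ _ _ (hm 1 1 _ _ (hN (f 0)) (hN (f 1)))
    (rootC_pow deg h1 hm (rootC_pg deg hm N hN f n) m)
  have e : 1 + 1 + m * 2 = 2 * m + 2 := by ring
  rw [e] at h
  exact h

include h1 hm hN in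
theorem rootC_hmt (f : ℕ → ℕ) (m Q : ℕ) (i : ℕ) :
    N i * hmt m Q (fun j => N (f j)) ∈ deg (2 * m + 2) := by
  rcases m with _ | m
  · unfold hmt
    simp only [Finset.range_zero, Finset.sum_empty, mul_zero]
    exact AddSubgroup.zero_mem _
  · unfold hmt
    have hp0 : pg (fun j => N (f (2 * j))) Q ∈ deg 2 := rootC_pg deg hm N hN (fun j => f (2 * j)) Q
    have hp1 : pg (fun j => N (f j)) (2 * Q) ∈ deg 2 := rootC_pg deg hm N hN f (2 * Q)
    have h2 : (∑ k ∈ Finset.range (m + 1), (pg (fun j => N (f (2 * j))) Q) ^ k *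
        (pg (fun j => N (f j)) (2 * Q)) ^ (m + 1 - 1 - k)) ∈ deg (2 * m) := by
      exact rootC_hh deg h1 hm hp0 hp1 m
    have h := hm _ _ _ _ (hN i) (hm _ _ _ _ (rootC_tri deg hm N hN f Q) h2)
    have e : 1 + (3 + 2 * m) = 2 * (m + 1) + 2 := by ring
    rw [e] at h
    exact h

include h1 hm hN in
theorem rootC_exF (m Q : ℕ) : exF m Q N ∈ deg (2 * m + 2) := by
  unfold exF
  refine AddSubgroup.sub_mem _ (AddSubgroup.add_mem _ ?_ ?_) ?_
  · exact rootC_exE deg h1 hm N hN (fun j => j) m (2 * Q)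
  · exact rootC_hmt deg h1 hm N hN (fun j => j + 1) m Q 1
  · exact rootC_hmt deg h1 hm N hN (fun j => j) m Q 0

include hm hN in
theorem rootC_Om (f : ℕ → ℕ) (Q : ℕ) : Om Q (fun j => N (f j)) ∈ deg 5 := by
  refine AddSubgroup.sum_mem _ fun t _ => AddSubgroup.sum_mem _ fun s _ => ?_
  refine AddSubgroup.zsmul_mem _ ?_ _
  exact hm 3 2 _ _ (hm 2 1 _ _ (hm 1 1 _ _ (hN _) (hN _)) (hN _)) (hm 1 1 _ _ (hN _) (hN _))

include h1 hm hN in
theorem rootC_exV (f : ℕ → ℕ) (m Q : ℕ) : exV m Q (fun j => N (f j)) ∈ deg (2 * m + 2) := by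
  have hp0 : pg (fun j => N (f (2 * j))) Q ∈ deg 2 := rootC_pg deg hm N hN (fun j => f (2 * j)) Q
  have hp1 : pg (fun j => N (f j)) (2 * Q) ∈ deg 2 := rootC_pg deg hm N hN f (2 * Q)
  have hr : N (f (2 * Q)) - N (f 0) ∈ deg 1 := AddSubgroup.sub_mem _ (hN _) (hN _)
  have e : 1 + (2 * m + 1) = 2 * m + 2 := by ring
  have key : Om Q (fun j => N (f j)) * hh (m - 1) (pg (fun j => N (f (2 * j))) Q)
      (pg (fun j => N (f j)) (2 * Q)) - N (f 0) * ((pg (fun j => N (f j)) (2 * Q)) ^ m -
        (pg (fun j => N (f (2 * j))) Q) ^ m) ∈ deg (2 * m + 1) := by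
    refine AddSubgroup.sub_mem _ ?_ ?_
    · rcases m with _ | _ | m
      · simp only [Nat.zero_sub, rootC_hh_zero, mul_zero]
        exact AddSubgroup.zero_mem _
      · simp only [Nat.add_sub_cancel, rootC_hh_zero, mul_zero]
        exact AddSubgroup.zero_mem _
      · have h := hm _ _ _ _ (rootC_Om deg hm N hN f Q) (rootC_hh deg h1 hm hp0 hp1 m)
        have e' : 5 + 2 * m = 2 * (m + 1 + 1) + 1 := by ring
        rw [e'] at h
        exact h
    · have h := hm _ _ _ _ (hN (f 0)) (AddSubgroup.sub_mem _ (rootC_pow deg h1 hm hp1 m)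
        (rootC_pow deg h1 hm hp0 m))
      have e' : 1 + m * 2 = 2 * m + 1 := by ring
      rw [e'] at h
      exact h
  have h := hm _ _ _ _ hr key
  rw [e] at h
  exact h

include h1 hm hN in
theorem rootC_exG (m Q : ℕ) : exG m Q N ∈ deg (2 * m + 2) := by
  unfold exG
  refine AddSubgroup.add_mem _ ?_ (AddSubgroup.sub_mem _ ?_ ?_)
  · have e : (2 : K) * exF m Q N = exF m Q N + exF m Q N := two_mul _
    rw [e]
    exact AddSubgroup.add_mem _ (rootC_exF deg h1 hm N hN m Q) (rootC_exF deg h1 hm N hN m Q)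
  · exact rootC_exV deg h1 hm N hN (fun j => j) m Q
  · exact rootC_exV deg h1 hm N hN (fun j => j + 1) m Q

end deg

section map

variable {K K' : Type*} [Ring K] [Ring K'] (f : K →+* K') (N : ℕ → K)

theorem rootC_map_hh (n : ℕ) (x y : K) : f (hh n x y) = hh n (f x) (f y) := by
  unfold hh
  rw [map_sum]
  exact Finset.sum_congr rfl fun i _ => by rw [map_mul, map_pow, map_pow]

theorem rootC_map_Om (Q : ℕ) : f (Om Q N) = Om Q (fun j => f (N j)) := by
  unfold Om
  rw [map_sum]
  refine Finset.sum_congr rfl fun t _ => ?_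
  rw [map_sum]
  refine Finset.sum_congr rfl fun s _ => ?_
  rw [map_zsmul]
  unfold ta ch
  rw [map_mul, map_mul, map_mul, map_mul]

theorem rootC_map_exV (m Q : ℕ) : f (exV m Q N) = exV m Q (fun j => f (N j)) := by
  unfold exV
  rw [map_mul, map_sub, map_sub, map_mul, map_mul, map_sub, map_pow, map_pow, map_pg, map_pg,
    rootC_map_hh, rootC_map_Om, map_pg, map_pg]

theorem rootC_map_exG (m Q : ℕ) : f (exG m Q N) = exG m Q (fun j => f (N j)) := by
  unfold exG
  rw [map_add, map_sub, map_mul, map_exF, rootC_map_exV, rootC_map_exV, map_ofNat]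

end map

theorem rootC_Lc {p : ℕ} (hroot : ∀ x y : Γ, x ^ p = y ^ p → x = y) (w : Γ) (d : ℕ)
    (z : MonoidAlgebra ℤ (FreeMonoid Γ)) (hz : z ∈ rootC_H Γ d) :
    Lc (lift k p b) (w ^ p) z = (p : ℤ) ^ (k - d / 2) * Lc b w z := by
  induction hz using AddSubgroup.closure_induction with
  | mem z hz =>
    obtain ⟨u, a, hu, rfl⟩ := hz
    unfold Lc
    rw [lin_single, lin_single, lift_pow hroot, hu]
    ring
  | zero => rw [map_zero, map_zero, mul_zero]
  | add z z' _ _ hz hz' => rw [map_add, map_add, hz, hz', mul_add]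
  | neg z _ hz => rw [map_neg, map_neg, hz, mul_neg]

/-- PROOF. `vx (repeated e) = vx e`, `(repeated e).prod = e.prod ^ p`; on words of length `2m+2` the functional
`lift k p b (w^p)` is `p^(k-m-1) b w`; `exG_repeat` in the mixed ring at `e.prod`. -/
theorem FM_repeat {p : ℕ} (hp : 0 < p) (hroot : ∀ x y : Γ, x ^ p = y ^ p → x = y)
    (hb : IsMixed k b) (Q : ℕ) (hQ : 0 < Q) (e : List Γ) (he : e.length = 2 * Q) :
    FM k (lift k p b) (p * Q) (List.replicate p e).flatten = (p : ℤ) ^ (k - 1) * FM k b Q e := by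
  have he0 : 0 < e.length := by omega
  have hne : e ≠ [] := List.length_pos_iff.1 he0
  unfold FM
  rw [Finset.mul_sum]
  refine Finset.sum_congr rfl fun m hmk => ?_
  have hmk' : m < k := Finset.mem_range.1 hmk
  rw [rootC_prod]
  have hvx : (fun j => (nn (vx (List.replicate p e).flatten j) : MonoidAlgebra ℤ (FreeMonoid Γ))) =
      fun j => nn (vx e j) := by
    funext j
    rw [rootC_vx hp e he0]
  rw [hvx]
  rw [rootC_Lc hroot e.prod (2 * m + 2) _ (rootC_exG (rootC_H Γ) rootC_H_one rootC_H_mul _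
    (fun j => rootC_H_nn _) m (p * Q))]
  obtain ⟨K, _, f, α, D, L, ρ, deg, SS⟩ := exists_sup hb e.prod
  have h1 : Lc b e.prod (exG m (p * Q) fun j => nn (vx e j)) =
      (p : ℤ) ^ m * Lc b e.prod (exG m Q fun j => nn (vx e j)) := by
    rw [← SS.L_f, ← SS.L_f, rootC_map_exG, rootC_map_exG]
    rw [exG_repeat (fun j => f (nn (vx e j))) ρ (fun i j => SS.anti _ _) (fun i => SS.sq _) Q p hQ hp
      (fun j => by rw [← he, vx_add e hne j, SS.period]) m]
    have h2 : ((p : K) ^ m * exG m Q fun j => f (nn (vx e j))) =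
        (p ^ m : ℕ) • exG m Q fun j => f (nn (vx e j)) := by
      rw [nsmul_eq_mul, Nat.cast_pow]
    rw [h2, map_nsmul, nsmul_eq_mul, Nat.cast_pow]
  rw [h1]
  have h3 : k - (2 * m + 2) / 2 + m = k - 1 := by omega
  rw [← h3, pow_add]
  ring

end Pool.Agent.Lib.MP_8f66f0_al_Mixed
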