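import Mathlib
import Pool.Agent.Lib.MP_8f66f0_al_ChernS.Syn
import Pool.Agent.Lib.MP_8f66f0_al_Mixed.Defs

/-! # The alternating ring of an alternating cochain. -/

set_option autoImplicit false
set_option linter.unusedSectionVars false
set_option linter.unusedVariables false

namespace Pool.Agent.Lib.MP_8f66f0_al_Mixed

open Pool.Agent.Lib.MP_8f66f0_al_FinQ Pool.Agent.Lib.MP_8f66f0_al_Uni
  Pool.Agent.Lib.MP_8f66f0_al_ChernS

universe u v

/-- PROOF. The relevant part of the proof of `exists_super` in
`MP_8f66f0_al_ChernS/Syn.lean` (only `L_f`, `anti`, `sq` and the degrees are needed). -/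
theorem exists_alt {Γ : Type u} [Group Γ] {S : Type v} [CommRing S] {r : ℕ} {ω : Γ → List Γ → S}
    (hω : IsAlt r ω) (c : Γ) :
    ∃ (K : Type (max u v)) (_ : Ring K) (f : MonoidAlgebra S (FreeMonoid Γ) →+* K)
      (L : K →+ S) (deg : ℕ → AddSubgroup K), AltRing r ω c K f L deg := by
  obtain ⟨K, _, f, L, hf, hL, hker⟩ := exists_syn (fun w : FreeMonoid Γ => ω c w.toList)
  refine ⟨K, inferInstance, f, L, fun d => (syn_w S Γ d).map f.toAddMonoidHom, ?_⟩
  refine
    { L_f := hL
      anti := ?_
      sq := ?_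
      one_deg := ?_
      mul_deg := ?_
      nn_deg := ?_
      L_deg := ?_ }
  · intro a b
    rw [eq_neg_iff_add_eq_zero, ← map_mul, ← map_mul, ← map_add, hker]
    intro u v
    unfold nn
    rw [MonoidAlgebra.single_mul_single, MonoidAlgebra.single_mul_single, mul_add, add_mul,
      map_add, mul_one, syn_val, syn_val, one_mul, one_mul]
    have h := hω.alternating c u.toList a b v.toList
    have e1 : u.toList ++ (FreeMonoid.of a * FreeMonoid.of b).toList ++ v.toList =
        u.toList ++ a :: b :: v.toList := by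
      rw [FreeMonoid.toList_mul, FreeMonoid.toList_of, FreeMonoid.toList_of]
      simp
    have e2 : u.toList ++ (FreeMonoid.of b * FreeMonoid.of a).toList ++ v.toList =
        u.toList ++ b :: a :: v.toList := by
      rw [FreeMonoid.toList_mul, FreeMonoid.toList_of, FreeMonoid.toList_of]
      simp
    rw [e1, e2, h]
    ring
  · intro a
    rw [← map_mul, hker]
    intro u v
    unfold nn
    rw [MonoidAlgebra.single_mul_single, mul_one, syn_val, one_mul]
    have h := hω.diag c u.toList a v.toList
    have e1 : u.toList ++ (FreeMonoid.of a * FreeMonoid.of a).toList ++ v.toList =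
        u.toList ++ a :: a :: v.toList := by
      rw [FreeMonoid.toList_mul, FreeMonoid.toList_of]
      simp
    rw [e1]
    exact h
  · refine ⟨1, ?_, map_one f⟩
    refine AddSubgroup.subset_closure ⟨1, 1, ?_, rfl⟩
    rw [FreeMonoid.toList_one]
    rfl
  · rintro a b _ _ ⟨x, hx, rfl⟩ ⟨y, hy, rfl⟩
    exact ⟨x * y, syn_w_mul hx hy, map_mul f x y⟩
  · intro a
    refine ⟨nn a, AddSubgroup.subset_closure ⟨FreeMonoid.of a, 1, ?_, rfl⟩, rfl⟩
    rw [FreeMonoid.toList_of]
    rfl
  · rintro d _ ⟨x, hx, rfl⟩ hdr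
    change L (f x) = 0
    rw [hL]
    refine AddSubgroup.closure_induction
      (p := fun x _ => lin (fun w : FreeMonoid Γ => ω c w.toList) x = 0) ?_ ?_ ?_ ?_ hx
    · rintro _ ⟨w, t, hw, rfl⟩
      rw [lin_single, hω.len c _ (by rw [hw]; exact hdr), mul_zero]
    · exact map_zero _
    · intro y z _ _ h1 h2
      rw [map_add, h1, h2, add_zero]
    · intro y _ h1
      rw [map_neg, h1, neg_zero]

end Pool.Agent.Lib.MP_8f66f0_al_Mixed
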