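import Mathlib
import Pool.Agent.Lib.MP_8f66f0_al_ChernS.EvTr
import Pool.Agent.Lib.MP_8f66f0_al_ChernS.Reg
import Pool.Agent.Lib.MP_8f66f0_al_ChernS.Sq
import Pool.Agent.Lib.MP_8f66f0_al_Mixed.SynA

/-! # The sum of the correction terms vanishes. -/

set_option autoImplicit false
set_option linter.unusedSectionVars false
set_option linter.unusedVariables false

namespace Pool.Agent.Lib.MP_8f66f0_al_Mixed

open Pool.Agent.Lib.MP_8f66f0_al_FinQ Pool.Agent.Lib.MP_8f66f0_al_Uni
  Pool.Agent.Lib.MP_8f66f0_al_ChernS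

universe u v

theorem partV_alt {Γ : Type u} [Group Γ] {S : Type v} [CommRing S] {r : ℕ} {ω : Γ → List Γ → S}
    (hω : IsAlt r ω) (c : Γ) :
    ∃ (K : Type (max u v)) (_ : Ring K) (f : MonoidAlgebra S (FreeMonoid Γ) →+* K)
      (L : K →+ S) (deg : ℕ → AddSubgroup K), AltRing r ω c K f L deg :=
  exists_alt hω c

variable {Γ : Type*} [Group Γ] {S : Type*} [CommRing S] {ω : Γ → List Γ → S} {n m : ℕ}

section ring

variable {K : Type*} [Ring K] (N : ℕ → K)

/-- the factor of the `j`-th pair -/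
def partV_ga (s : ℕ → ℤ) (j : ℕ) : K :=
  s j • (N (2 * j) * N (2 * j + 2)) + (N (2 * j) * N (2 * j + 1) + N (2 * j + 1) * N (2 * j + 2))

variable (anti : ∀ a b, N a * N b = - (N b * N a)) (sq : ∀ a, N a * N a = 0)

include anti in
theorem partV_pair_comm (a b c : ℕ) : Commute (N a * N b) (N c) := by
  show N a * N b * N c = N c * (N a * N b)
  rw [mul_assoc, anti b c, mul_neg, ← mul_assoc, anti a c, neg_mul, neg_neg, mul_assoc]

include anti in
theorem partV_ga_comm (s : ℕ → ℤ) (j c : ℕ) : Commute (partV_ga N s j) (N c) := by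
  unfold partV_ga
  exact ((partV_pair_comm N anti _ _ _).smul_left (s j)).add_left
    ((partV_pair_comm N anti _ _ _).add_left (partV_pair_comm N anti _ _ _))

include anti in
theorem partV_ga_ga (s : ℕ → ℤ) (i j : ℕ) :
    partV_ga N s i * partV_ga N s j = partV_ga N s j * partV_ga N s i := by
  have h : ∀ c, Commute (partV_ga N s i) (N c) := partV_ga_comm N anti s i
  have h2 : Commute (partV_ga N s i) (partV_ga N s j) := by
    nth_rewrite 2 [partV_ga]
    exact (((h _).mul_right (h _)).smul_right (s j)).add_right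
      (((h _).mul_right (h _)).add_right ((h _).mul_right (h _)))
  exact h2

include anti in
theorem partV_ta_ga (s : ℕ → ℤ) (i j : ℕ) :
    ta N i * partV_ga N s j = partV_ga N s j * ta N i := by
  have h : ∀ c, Commute (N c) (partV_ga N s j) := fun c => (partV_ga_comm N anti s j c).symm
  have h2 : Commute (ta N i) (partV_ga N s j) := by
    unfold ta
    exact ((h _).mul_left (h _)).mul_left (h _)
  exact h2

include sq in
theorem partV_q1 (a b d : ℕ) : N a * N b * (N b * N d) = 0 := by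
  rw [mul_assoc, ← mul_assoc (N b), sq, zero_mul, mul_zero]

include anti sq in
theorem partV_q2 (a b d : ℕ) : N a * N b * (N a * N d) = 0 := by
  rw [anti a b, neg_mul, partV_q1 N sq, neg_zero]

include anti sq in
theorem partV_q3 (a b d : ℕ) : N a * N b * (N d * N b) = 0 := by
  rw [anti d b, mul_neg, partV_q1 N sq, neg_zero]

include anti sq in
theorem partV_q4 (a b d : ℕ) : N a * N b * (N d * N a) = 0 := by
  rw [anti a b, neg_mul, partV_q3 N anti sq, neg_zero]

include anti sq in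
theorem partV_ga_sq (s : ℕ → ℤ) (j : ℕ) : partV_ga N s j * partV_ga N s j = 0 := by
  unfold partV_ga
  simp only [add_mul, mul_add, smul_mul_assoc, mul_smul_comm, partV_q1 N sq, partV_q2 N anti sq,
    partV_q3 N anti sq, partV_q4 N anti sq, smul_zero, add_zero]

include anti sq in
theorem partV_ch_sq (j : ℕ) : ch N j * ch N j = 0 := partV_q2 N anti sq _ _ _

include anti sq in
theorem partV_ta_ch (j : ℕ) : ta N j * ch N j = 0 := by
  unfold ta ch
  rw [mul_assoc (N (2 * j)) (N (2 * j + 1)), mul_assoc, partV_q3 N anti sq, mul_zero]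

include anti in
theorem partV_ch_comm (j c : ℕ) : Commute (ch N j) (N c) := partV_pair_comm N anti _ _ _

include anti sq in
theorem partV_ta_zero (s : ℕ → ℤ) (j : ℕ) : ta N j * partV_ga N s j = 0 := by
  unfold ta partV_ga
  have h1 : N (2 * j) * N (2 * j + 1) * N (2 * j + 2) * (N (2 * j) * N (2 * j + 2)) = 0 := by
    rw [mul_assoc (N (2 * j)) (N (2 * j + 1)), mul_assoc, partV_q3 N anti sq, mul_zero]
  have h2 : N (2 * j) * N (2 * j + 1) * N (2 * j + 2) * (N (2 * j) * N (2 * j + 1)) = 0 := by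
    rw [mul_assoc (N (2 * j)) (N (2 * j + 1)), mul_assoc, partV_q4 N anti sq, mul_zero]
  have h3 : N (2 * j) * N (2 * j + 1) * N (2 * j + 2) * (N (2 * j + 1) * N (2 * j + 2)) = 0 := by
    rw [mul_assoc (N (2 * j)) (N (2 * j + 1)), mul_assoc, partV_q2 N anti sq, mul_zero]
  rw [mul_add, mul_add, mul_smul_comm, h1, h2, h3, smul_zero, add_zero, add_zero]

theorem partV_pg_two (Q : ℕ) : pg N (2 * Q) =
    ∑ j ∈ Finset.range Q, (N (2 * j) * N (2 * j + 1) + N (2 * j + 1) * N (2 * j + 2)) := by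
  unfold pg
  induction Q with
  | zero => simp
  | succ Q ih =>
    rw [Finset.sum_range_succ, ← ih, show 2 * (Q + 1) = 2 * Q + 1 + 1 by ring,
      Finset.sum_range_succ, Finset.sum_range_succ, add_assoc]

theorem partV_sum_ga (s : ℕ → ℤ) (Q : ℕ) :
    ∑ j ∈ Finset.range Q, s j • ch N j + pg N (2 * Q) =
      ∑ j ∈ Finset.range Q, partV_ga N s j := by
  rw [partV_pg_two]
  unfold partV_ga ch
  rw [← Finset.sum_add_distrib]

theorem partV_pg_even (Q : ℕ) : pg (fun j => N (2 * j)) Q = ∑ j ∈ Finset.range Q, ch N j := rfl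

theorem partV_prodTo (γ : ℕ → K) (k : ℕ) :
    prodTo γ k = ((List.range k).map fun j => 1 + γ j).prod := by
  induction k with
  | zero => simp [prodTo]
  | succ k ih =>
    rw [List.range_succ, List.map_append, List.prod_append, ← ih]
    simp [prodTo]

/-- the types: `X (s j)`, with `T` at the place `i` -/
def partV_ts (s : ℕ → ℤ) (i k : ℕ) : List Ty :=
  ((List.range i).map fun j => Ty.X (s j)) ++
    Ty.T :: (List.range k).map fun j => Ty.X (s (i + 1 + j))

/-- the types `X (s j)` -/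
def partV_xs (s : ℕ → ℤ) (k : ℕ) : List Ty := (List.range k).map fun j => Ty.X (s j)

theorem partV_zz {K K' : Type*} [Ring K] [Ring K'] (f : K →+* K') (t : Ty) (a b c : K) :
    f (zz t a b c) = zz t (f a) (f b) (f c) := by
  cases t with
  | E => exact map_mul f a b
  | T => show f (a * b * c) = _; rw [map_mul, map_mul]; rfl
  | X s =>
    show f (1 + (s • (a * c) + (a * b + b * c))) = _
    rw [map_add, map_one, map_add, map_zsmul, map_add, map_mul, map_mul, map_mul]
    rfl

theorem partV_list_xs (s : ℕ → ℤ) (k : ℕ) :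
    ((List.range k).map fun j => zz ((partV_xs s k).getD j Ty.E)
        (N (2 * j)) (N (2 * j + 1)) (N (2 * j + 2))).prod = prodTo (partV_ga N s) k := by
  rw [partV_prodTo]
  congr 1
  refine List.map_congr_left fun j hj => ?_
  rw [List.mem_range] at hj
  unfold partV_xs
  rw [List.getD_eq_getElem _ _ (by simpa using hj), List.getElem_map, List.getElem_range]
  rfl

theorem partV_list_ts (s : ℕ → ℤ) (i k : ℕ) :
    ((List.range (i + 1 + k)).map fun j => zz ((partV_ts s i k).getD j Ty.E)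
        (N (2 * j)) (N (2 * j + 1)) (N (2 * j + 2))).prod =
      prodTo (partV_ga N s) i * ta N i *
        prodTo (fun j => partV_ga N s (i + 1 + j)) k := by
  rw [List.range_add, List.map_append, List.prod_append, List.range_succ, List.map_append,
    List.prod_append, partV_prodTo, partV_prodTo, List.map_map]
  unfold partV_ts
  congr 1
  · congr 1
    · congr 1
      refine List.map_congr_left fun j hj => ?_
      rw [List.mem_range] at hj
      rw [List.getD_append _ _ _ _ (by simpa using hj),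
        List.getD_eq_getElem _ _ (by simpa using hj), List.getElem_map, List.getElem_range]
      rfl
    · rw [List.map_singleton, List.prod_singleton,
        List.getD_append_right _ _ _ _ (by simp)]
      simp
      rfl
  · congr 1
    refine List.map_congr_left fun j hj => ?_
    rw [List.mem_range] at hj
    rw [Function.comp_apply,
      List.getD_append_right _ _ _ _ (by simp; omega)]
    have h1 : i + 1 + j - (List.map (fun j => Ty.X (s j)) (List.range i)).length = j + 1 := by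
      simp
      omega
    rw [h1, List.getD_cons_succ,
      List.getD_eq_getElem _ _ (by simpa using hj), List.getElem_map, List.getElem_range]
    rfl

end ring

section trace

theorem partV_alg {R : Type*} [Ring R] (a b N : R) (hN : N * N = 0) (k : ℕ) :
    N * (1 + (N * b * N * a + b * N * a * N)) ^ k * N = 0 := by
  have h1 : N * (1 + (N * b * N * a + b * N * a * N)) = N + N * b * N * a * N := by
    calc N * (1 + (N * b * N * a + b * N * a * N)) =
          N + (N * N) * b * N * a + N * b * N * a * N := by noncomm_ring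
      _ = N + N * b * N * a * N := by rw [hN]; noncomm_ring
  have h2 : (1 + (N * b * N * a + b * N * a * N)) * N = N + N * b * N * a * N := by
    calc (1 + (N * b * N * a + b * N * a * N)) * N =
          N + N * b * N * a * N + b * N * a * (N * N) := by noncomm_ring
      _ = N + N * b * N * a * N := by rw [hN]; noncomm_ring
  have h3 : Commute N (1 + (N * b * N * a + b * N * a * N)) := h1.trans h2.symm
  rw [(h3.pow_right k).eq, mul_assoc, hN, mul_zero]

theorem partV_kap_end {g : Γ} {z : RM S Γ} (hz : z ∈ bridge_Tot g) :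
    LM ω (z * nM) = Lc ω g (bridge_kap z * nn g) := by
  have h := bridge_mul_mem hz bridge_nM_mem
  rw [mul_one] at h
  rw [bridge_LM h, bridge_kap_mul hz, bridge_kap_nM, trans_nn, mul_one]

theorem partV_bridge (ts : List Ty) (e : List Γ) (he : e.length = 2 * ts.length) :
    LM ω (pp (ts.map yy) e * nM) = Lc ω e.prod (zp 1 ts e * nn e.prod) ∧
    LM ω (nM * pp (ts.map yy) e * nM) = Lc ω e.prod (nn 1 * zp 1 ts e * nn e.prod) := by
  obtain ⟨i1, i2⟩ := bridge_main (S := S) ts 1 e he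
  have i3 : bridge_kap (pp (ts.map yy) e : RM S Γ) = zp 1 ts e := by rw [← i1, bridge_trans_one]
  have h := bridge_mul_mem bridge_nM_mem i2
  rw [one_mul] at h
  refine ⟨?_, ?_⟩
  · rw [partV_kap_end i2, i3]
  · rw [partV_kap_end h, bridge_kap_mul bridge_nM_mem, bridge_kap_nM, i1]

variable {K : Type*} [Ring K] (f : RM S Γ →+* K)

/-- the image of the product of the factors `X` -/
theorem partV_xs_prod (A B : Matrix (Fin n) (Fin n) (MonoidAlgebra S Γ)) (hBA : B * A = 1)
    (hN : Matrix.scalar (Fin n) (f nM) * Matrix.scalar (Fin n) (f nM) = 0) (g : ℕ → ℤ)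
    (l : List ℕ) :
    f.mapMatrix (((l.map fun j => Ty.X (g j)).map (yy (Γ := Γ) (S := S))).map (ext2 B A)).prod =
      (1 + (Matrix.scalar (Fin n) (f nM) * f.mapMatrix (B.map upHom) *
          Matrix.scalar (Fin n) (f nM) * f.mapMatrix (A.map upHom) +
        f.mapMatrix (B.map upHom) * Matrix.scalar (Fin n) (f nM) * f.mapMatrix (A.map upHom) *
          Matrix.scalar (Fin n) (f nM))) ^ l.length := by
  induction l with
  | nil => simp
  | cons a l ih =>
    simp only [List.map_cons, List.prod_cons, List.length_cons]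
    rw [map_mul, ih, evTr_X f A B hBA hN, pow_succ']

theorem partV_T (A B : Matrix (Fin n) (Fin n) (MonoidAlgebra S Γ)) :
    f.mapMatrix (ext2 B A (yy Ty.T)) = Matrix.scalar (Fin n) (f nM) *
      f.mapMatrix (B.map upHom) * Matrix.scalar (Fin n) (f nM) * f.mapMatrix (A.map upHom) *
      Matrix.scalar (Fin n) (f nM) := by
  rw [ext2_T, map_mul, map_mul, map_mul, map_mul, evTr_scalar]

theorem partV_ts_prod (A B : Matrix (Fin n) (Fin n) (MonoidAlgebra S Γ)) (hBA : B * A = 1)
    (hN : Matrix.scalar (Fin n) (f nM) * Matrix.scalar (Fin n) (f nM) = 0) (s : ℕ → ℤ)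
    (i k : ℕ) :
    f.mapMatrix (((partV_ts s i k).map (yy (Γ := Γ) (S := S))).map (ext2 B A)).prod =
      (1 + (Matrix.scalar (Fin n) (f nM) * f.mapMatrix (B.map upHom) *
          Matrix.scalar (Fin n) (f nM) * f.mapMatrix (A.map upHom) +
        f.mapMatrix (B.map upHom) * Matrix.scalar (Fin n) (f nM) * f.mapMatrix (A.map upHom) *
          Matrix.scalar (Fin n) (f nM))) ^ i *
      (Matrix.scalar (Fin n) (f nM) *
      f.mapMatrix (B.map upHom) * Matrix.scalar (Fin n) (f nM) * f.mapMatrix (A.map upHom) *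
      Matrix.scalar (Fin n) (f nM)) *
      (1 + (Matrix.scalar (Fin n) (f nM) * f.mapMatrix (B.map upHom) *
          Matrix.scalar (Fin n) (f nM) * f.mapMatrix (A.map upHom) +
        f.mapMatrix (B.map upHom) * Matrix.scalar (Fin n) (f nM) * f.mapMatrix (A.map upHom) *
          Matrix.scalar (Fin n) (f nM))) ^ k := by
  have h1 := partV_xs_prod f A B hBA hN s (List.range i)
  have h2 := partV_xs_prod f A B hBA hN (fun j => s (i + 1 + j)) (List.range k)
  rw [List.length_range] at h1 h2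
  unfold partV_ts
  rw [List.map_append, List.map_append, List.map_cons, List.map_cons, List.prod_append,
    List.prod_cons, map_mul, map_mul, h1, h2, partV_T]
  exact (mul_assoc _ _ _).symm

end trace

section sums

/-- the functional `x ↦ LM ω (x * nM)` -/
noncomputable def partV_Φ (ω : Γ → List Γ → S) : RM S Γ →+ S :=
  (LM ω).comp (AddMonoidHom.mulRight nM)

theorem partV_Φ_smul (s : S) (x : RM S Γ) : partV_Φ ω (s • x) = s * partV_Φ ω x := by
  change LM ω (s • x * nM) = s * LM ω (x * nM)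
  rw [smul_mul_assoc]
  exact lin_smul _ s _

theorem partV_setup {Γ : Type u} [Group Γ] {S : Type v} [CommRing S] {ω : Γ → List Γ → S}
    {n : ℕ} (hdiag : ∀ (c : Γ) (u : List Γ) (a : Γ) (v : List Γ), ω c (u ++ a :: a :: v) = 0) :
    ∃ (K : Type (max u v)) (_ : Ring K) (f : RM S Γ →+* K) (L : K →+ S),
      (∀ x, LM ω x = L (f x)) ∧ Matrix.scalar (Fin n) (f nM) * Matrix.scalar (Fin n) (f nM) = 0 := by
  obtain ⟨K, hK, f, L, _, hL, hf⟩ := exists_syn (fun x : MW Γ => ω x.tot x.marks)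
  refine ⟨K, hK, f, L, fun x => (hL x).symm, ?_⟩
  have hN1 : f nM * f nM = 0 := by
    rw [← map_mul, hf]
    exact evTr_crit hdiag
  rw [← map_mul, hN1, map_zero]

/-- (α) -/
theorem partV_sum_a (hdiag : ∀ (c : Γ) (u : List Γ) (a : Γ) (v : List Γ),
    ω c (u ++ a :: a :: v) = 0) (A B : Matrix (Fin n) (Fin n) (MonoidAlgebra S Γ))
    (hAB : A * B = 1) (hBA : B * A = 1) (s : ℕ → ℤ) (Q i k : ℕ) (hQ : Q = i + 1 + k) :
    wsum B A Q (fun e => Lc ω e.prod (nn 1 * zp 1 (partV_ts s i k) e)) = 0 := by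
  obtain ⟨K, _, f, L, hL, hN⟩ := partV_setup (n := n) hdiag
  have hlen : (partV_ts s i k).length = Q := by
    unfold partV_ts
    simp
    omega
  have h1 := wsum_pp A B (LM ω) (fun s x => lin_smul _ s x) nM
    ((partV_ts s i k).map (yy (Γ := Γ) (S := S)))
  rw [List.length_map, hlen, hL, map_mul, evTr_trace, partV_ts_prod f A B hBA hN s i k,
    evTr_scalar_trace, ← mul_assoc, ← mul_assoc,
    alg_T _ _ _ (evTr_one f B A hBA) (evTr_one f A B hAB) hN, zero_mul, Matrix.trace_zero,
    map_zero] at h1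
  rw [← h1]
  refine wsum_congr B A Q fun e he => ?_
  exact (bridge (ω := ω) (partV_ts s i k) e (by rw [hlen]; exact he)).2.symm

lemma partV_scalar_trace {K : Type*} [Ring K] (x : K) (M : Matrix (Fin n) (Fin n) K) :
    Matrix.trace M * x = Matrix.trace (M * Matrix.scalar (Fin n) x) := by
  rw [Matrix.trace, Matrix.trace, Finset.sum_mul]
  refine Finset.sum_congr rfl fun i _ => ?_
  rw [Matrix.diag_apply, Matrix.diag_apply, Matrix.scalar_apply, Matrix.mul_diagonal]

/-- (β) -/
theorem partV_sum_b (hdiag : ∀ (c : Γ) (u : List Γ) (a : Γ) (v : List Γ),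
    ω c (u ++ a :: a :: v) = 0) (A B : Matrix (Fin n) (Fin n) (MonoidAlgebra S Γ))
    (hAB : A * B = 1) (hBA : B * A = 1) (s : ℕ → ℤ) (Q i k : ℕ) (hQ : Q = i + 1 + k) :
    wsum B A Q (fun e => Lc ω e.prod (zp 1 (partV_ts s i k) e * nn e.prod)) = 0 := by
  obtain ⟨K, _, f, L, hL, hN⟩ := partV_setup (n := n) hdiag
  have hlen : (partV_ts s i k).length = Q := by
    unfold partV_ts
    simp
    omega
  have h1 := wsum_pp A B (partV_Φ ω) partV_Φ_smul 1
    ((partV_ts s i k).map (yy (Γ := Γ) (S := S)))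
  have h2 : partV_Φ ω (1 * Matrix.trace
      (((partV_ts s i k).map (yy (Γ := Γ) (S := S))).map (ext2 B A)).prod) = 0 := by
    change LM ω (1 * _ * nM) = 0
    rw [one_mul, hL, map_mul, evTr_trace, partV_ts_prod f A B hBA hN s i k, partV_scalar_trace]
    generalize Matrix.scalar (Fin n) (f nM) = N at *
    generalize f.mapMatrix (B.map upHom) = b at *
    generalize f.mapMatrix (A.map upHom) = a at *
    have h3 := partV_alg a b N hN k
    have h4 : (1 + (N * b * N * a + b * N * a * N)) ^ i * (N * b * N * a * N) *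
        (1 + (N * b * N * a + b * N * a * N)) ^ k * N =
        (1 + (N * b * N * a + b * N * a * N)) ^ i * (N * b * N * a) *
        (N * (1 + (N * b * N * a + b * N * a * N)) ^ k * N) := by
      simp only [mul_assoc]
    rw [h4, h3, mul_zero, Matrix.trace_zero, map_zero]
  rw [List.length_map, hlen, h2] at h1
  rw [← h1]
  refine wsum_congr B A Q fun e he => ?_
  rw [one_mul]
  exact (partV_bridge (ω := ω) (partV_ts s i k) e (by rw [hlen]; exact he)).1.symm

/-- (γ) -/
theorem partV_sum_c (hdiag : ∀ (c : Γ) (u : List Γ) (a : Γ) (v : List Γ),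
    ω c (u ++ a :: a :: v) = 0) (A B : Matrix (Fin n) (Fin n) (MonoidAlgebra S Γ))
    (hAB : A * B = 1) (hBA : B * A = 1) (s : ℕ → ℤ) (Q : ℕ) :
    wsum B A Q (fun e => Lc ω e.prod (nn 1 * zp 1 (partV_xs s Q) e * nn e.prod)) = 0 := by
  obtain ⟨K, _, f, L, hL, hN⟩ := partV_setup (n := n) hdiag
  have hlen : (partV_xs s Q).length = Q := by
    unfold partV_xs
    simp
  have h1 := wsum_pp A B (partV_Φ ω) partV_Φ_smul nM
    ((partV_xs s Q).map (yy (Γ := Γ) (S := S)))
  have h0 := partV_xs_prod f A B hBA hN s (List.range Q)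
  rw [List.length_range] at h0
  have h2 : partV_Φ ω (nM * Matrix.trace
      (((partV_xs s Q).map (yy (Γ := Γ) (S := S))).map (ext2 B A)).prod) = 0 := by
    change LM ω (nM * _ * nM) = 0
    rw [hL, map_mul f, map_mul f, evTr_trace]
    unfold partV_xs
    rw [h0, evTr_scalar_trace, partV_scalar_trace, partV_alg _ _ _ hN, Matrix.trace_zero,
      map_zero]
  rw [List.length_map, hlen, h2] at h1
  rw [← h1]
  refine wsum_congr B A Q fun e he => ?_
  exact (partV_bridge (ω := ω) (partV_xs s Q) e (by rw [hlen]; exact he)).2.symm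

/-- the expression `Σ s_j ch_j + pg` -/
def partV_E {K : Type*} [Ring K] (N : ℕ → K) (s : ℕ → ℤ) (Q : ℕ) : K :=
  ∑ j ∈ Finset.range Q, s j • ch N j + pg N (2 * Q)

theorem partV_map_E {K K' : Type*} [Ring K] [Ring K'] (f : K →+* K') (N : ℕ → K) (s : ℕ → ℤ)
    (Q : ℕ) : f (partV_E N s Q) = partV_E (fun j => f (N j)) s Q := by
  unfold partV_E
  rw [map_add, map_sum, map_pg]
  congr 1
  refine Finset.sum_congr rfl fun j _ => ?_
  rw [map_zsmul]
  unfold ch
  rw [map_mul]

theorem partV_map_ta {K K' : Type*} [Ring K] [Ring K'] (f : K →+* K') (N : ℕ → K) (t : ℕ) :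
    f (ta N t) = ta (fun j => f (N j)) t := by
  unfold ta
  rw [map_mul, map_mul]

theorem partV_map_ch {K K' : Type*} [Ring K] [Ring K'] (f : K →+* K') (N : ℕ → K) (t : ℕ) :
    f (ch N t) = ch (fun j => f (N j)) t := by
  unfold ch
  rw [map_mul]

open Nat in
theorem partV_pick {K : Type*} [Ring K] (L : K →+ S) (deg : ℕ → AddSubgroup K) (r : ℕ)
    (mul_deg : ∀ a b x y, x ∈ deg a → y ∈ deg b → x * y ∈ deg (a + b))
    (L_deg : ∀ d x, x ∈ deg d → d ≠ r → L x = 0) (γ : ℕ → K) (hdeg : ∀ j, γ j ∈ deg 2)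
    (hcomm : ∀ i j, γ i * γ j = γ j * γ i) (hsq : ∀ j, γ j * γ j = 0) (n m d : ℕ) (x y : K)
    (hy : ∀ j, y * γ j = γ j * y) (hx : x * y ∈ deg d) (hd : d + 2 * m = r) :
    L (x * (∑ j ∈ Finset.range n, γ j) ^ m * y) = (m ! : S) * L (x * prodTo γ n * y) := by
  have h1 : Commute y (∑ j ∈ Finset.range n, γ j) := Commute.sum_right _ _ _ fun j _ => hy j
  have h2 := (h1.pow_right m).eq
  rw [mul_assoc, ← h2, ← mul_assoc,
    sq_pick L deg r mul_deg L_deg γ hdeg hcomm hsq n m d (x * y) hx hd, mul_assoc,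
    sq_comm_prodTo γ y hy, ← mul_assoc]

open Nat in
/-- the words for (α) and (β) -/
theorem partV_word1 (hω : IsAlt (2 * (m + 1)) ω) (hm : 0 < m) (s : ℕ → ℤ) (Q t : ℕ) (ht : t < Q)
    (e : List Γ) (he : e.length = 2 * Q) :
    Lc ω e.prod (nn (vx e 0) * ta (fun j => nn (vx e j)) t *
      (partV_E (fun j => nn (vx e j)) s Q) ^ (m - 1) * 1) =
      ((m - 1)! : S) * Lc ω e.prod (nn 1 * zp 1 (partV_ts s t (Q - 1 - t)) e) ∧
    Lc ω e.prod (ta (fun j => nn (vx e j)) t *
      (partV_E (fun j => nn (vx e j)) s Q) ^ (m - 1) * nn (vx e (2 * Q))) =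
      ((m - 1)! : S) * Lc ω e.prod (zp 1 (partV_ts s t (Q - 1 - t)) e * nn e.prod) := by
  obtain ⟨K, _, f, L, deg, hS⟩ := partV_alt hω e.prod
  set N : ℕ → K := fun j => f (nn (vx e j)) with hN
  have anti : ∀ a b, N a * N b = - (N b * N a) := fun a b => hS.anti _ _
  have sq : ∀ a, N a * N a = 0 := fun a => hS.sq _
  have hNdeg : ∀ a, N a ∈ deg 1 := fun a => hS.nn_deg _
  have h2deg : ∀ a b, N a * N b ∈ deg 2 := fun a b => hS.mul_deg 1 1 _ _ (hNdeg a) (hNdeg b)
  have hgdeg : ∀ j, partV_ga N s j ∈ deg 2 := fun j => by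
    unfold partV_ga
    exact AddSubgroup.add_mem _ (AddSubgroup.zsmul_mem _ (h2deg _ _) (s j))
      (AddSubgroup.add_mem _ (h2deg _ _) (h2deg _ _))
  have htdeg : ta N t ∈ deg 3 := by
    unfold ta
    exact hS.mul_deg 2 1 _ _ (h2deg _ _) (hNdeg _)
  have hlen : (partV_ts s t (Q - 1 - t)).length = t + 1 + (Q - 1 - t) := by
    unfold partV_ts
    simp
    omega
  have hzp : f (zp 1 (partV_ts s t (Q - 1 - t)) e) =
      ta N t * prodTo (partV_ga N s) Q := by
    rw [zp_eq _ e (by rw [hlen, he]; omega), hlen, map_list_prod f, List.map_map,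
      prodTo_split (partV_ga N s) (partV_ga_ga N anti s) (ta N t) t
      (fun j => partV_ta_ga N anti s t j) (partV_ta_zero N anti sq s t) Q ht,
      ← partV_list_ts N s t (Q - 1 - t)]
    congr 1
    refine List.map_congr_left fun j _ => ?_
    rw [Function.comp_apply, partV_zz]
  have e3 : N 0 = f (nn 1) := by
    show f (nn (vx e 0)) = _
    rw [vx_zero]
  have e4 : N (2 * Q) = f (nn e.prod) := by
    show f (nn (vx e (2 * Q))) = _
    congr 2
    unfold vx
    rw [he]
    rcases Nat.eq_zero_or_pos Q with h | h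
    · omega
    · rw [Nat.div_self (by omega), Nat.mod_self]
      simp
  constructor
  · rw [← hS.L_f, ← hS.L_f, map_mul f, map_mul f, map_mul f, map_one f, map_pow f, map_mul f,
      partV_map_ta, partV_map_E, hzp, ← e3]
    have h1 := partV_pick L deg (2 * (m + 1)) hS.mul_deg hS.L_deg (partV_ga N s) hgdeg
      (partV_ga_ga N anti s) (partV_ga_sq N anti sq s) Q (m - 1) 4 (N 0 * ta N t) 1
      (fun j => by rw [one_mul, mul_one])
      (by rw [mul_one]; exact hS.mul_deg 1 3 _ _ (hNdeg 0) htdeg) (by omega)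
    rw [← partV_sum_ga] at h1
    have h2 : N 0 * ta N t * prodTo (partV_ga N s) Q * 1 =
        N 0 * (ta N t * prodTo (partV_ga N s) Q) := by rw [mul_one, mul_assoc]
    rw [h2] at h1
    exact h1
  · rw [← hS.L_f, ← hS.L_f, map_mul f, map_mul f, map_pow f, map_mul f,
      partV_map_ta, partV_map_E, hzp, ← e4]
    have h1 := partV_pick L deg (2 * (m + 1)) hS.mul_deg hS.L_deg (partV_ga N s) hgdeg
      (partV_ga_ga N anti s) (partV_ga_sq N anti sq s) Q (m - 1) 4 (ta N t) (N (2 * Q))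
      (fun j => ((partV_ga_comm N anti s j (2 * Q)).eq).symm)
      (hS.mul_deg 3 1 _ _ htdeg (hNdeg _)) (by omega)
    rw [← partV_sum_ga] at h1
    exact h1

open Nat in
/-- the words for (γ) -/
theorem partV_word2 (hω : IsAlt (2 * (m + 1)) ω) (s : ℕ → ℤ) (Q : ℕ) (hQ : 0 < Q)
    (e : List Γ) (he : e.length = 2 * Q) :
    Lc ω e.prod (nn (vx e 0) * (partV_E (fun j => nn (vx e j)) s Q) ^ m * nn (vx e (2 * Q))) =
      (m ! : S) * Lc ω e.prod (nn 1 * zp 1 (partV_xs s Q) e * nn e.prod) := by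
  obtain ⟨K, _, f, L, deg, hS⟩ := partV_alt hω e.prod
  set N : ℕ → K := fun j => f (nn (vx e j)) with hN
  have anti : ∀ a b, N a * N b = - (N b * N a) := fun a b => hS.anti _ _
  have sq : ∀ a, N a * N a = 0 := fun a => hS.sq _
  have hNdeg : ∀ a, N a ∈ deg 1 := fun a => hS.nn_deg _
  have h2deg : ∀ a b, N a * N b ∈ deg 2 := fun a b => hS.mul_deg 1 1 _ _ (hNdeg a) (hNdeg b)
  have hgdeg : ∀ j, partV_ga N s j ∈ deg 2 := fun j => by
    unfold partV_ga
    exact AddSubgroup.add_mem _ (AddSubgroup.zsmul_mem _ (h2deg _ _) (s j))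
      (AddSubgroup.add_mem _ (h2deg _ _) (h2deg _ _))
  have hlen : (partV_xs s Q).length = Q := by
    unfold partV_xs
    simp
  have hzp : f (zp 1 (partV_xs s Q) e) = prodTo (partV_ga N s) Q := by
    rw [zp_eq _ e (by rw [hlen, he]), hlen, map_list_prod f, List.map_map,
      ← partV_list_xs N s Q]
    congr 1
    refine List.map_congr_left fun j _ => ?_
    rw [Function.comp_apply, partV_zz]
  have e3 : N 0 = f (nn 1) := by
    show f (nn (vx e 0)) = _
    rw [vx_zero]
  have e4 : N (2 * Q) = f (nn e.prod) := by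
    show f (nn (vx e (2 * Q))) = _
    congr 2
    unfold vx
    rw [he, Nat.div_self (by omega), Nat.mod_self]
    simp
  rw [← hS.L_f, ← hS.L_f, map_mul f, map_mul f, map_pow f, map_mul f, map_mul f,
    partV_map_E, hzp, ← e3, ← e4]
  have h1 := partV_pick L deg (2 * (m + 1)) hS.mul_deg hS.L_deg (partV_ga N s) hgdeg
    (partV_ga_ga N anti s) (partV_ga_sq N anti sq s) Q m 2 (N 0) (N (2 * Q))
    (fun j => ((partV_ga_comm N anti s j (2 * Q)).eq).symm)
    (hS.mul_deg 1 1 _ _ (hNdeg 0) (hNdeg _)) (by omega)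
  rw [← partV_sum_ga] at h1
  exact h1

/-- (α) for the powers -/
theorem partV_a1 (hω : IsAlt (2 * (m + 1)) ω) (hm : 0 < m)
    (A B : Matrix (Fin n) (Fin n) (MonoidAlgebra S Γ)) (hAB : A * B = 1) (hBA : B * A = 1)
    (s : ℕ → ℤ) (Q t : ℕ) (ht : t < Q) :
    wsum B A Q (fun e => Lc ω e.prod (nn (vx e 0) * ta (fun j => nn (vx e j)) t *
      (partV_E (fun j => nn (vx e j)) s Q) ^ (m - 1) * 1)) = 0 := by
  rw [wsum_congr B A Q (fun e he => (partV_word1 hω hm s Q t ht e he).1), wsum_smul,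
    partV_sum_a hω.diag A B hAB hBA s Q t (Q - 1 - t) (by omega), mul_zero]

/-- (β) for the powers -/
theorem partV_b1 (hω : IsAlt (2 * (m + 1)) ω) (hm : 0 < m)
    (A B : Matrix (Fin n) (Fin n) (MonoidAlgebra S Γ)) (hAB : A * B = 1) (hBA : B * A = 1)
    (s : ℕ → ℤ) (Q t : ℕ) (ht : t < Q) :
    wsum B A Q (fun e => Lc ω e.prod (ta (fun j => nn (vx e j)) t *
      (partV_E (fun j => nn (vx e j)) s Q) ^ (m - 1) * nn (vx e (2 * Q)))) = 0 := by
  rw [wsum_congr B A Q (fun e he => (partV_word1 hω hm s Q t ht e he).2), wsum_smul,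
    partV_sum_b hω.diag A B hAB hBA s Q t (Q - 1 - t) (by omega), mul_zero]

/-- (γ) for the powers -/
theorem partV_c1 (hω : IsAlt (2 * (m + 1)) ω)
    (A B : Matrix (Fin n) (Fin n) (MonoidAlgebra S Γ)) (hAB : A * B = 1) (hBA : B * A = 1)
    (s : ℕ → ℤ) (Q : ℕ) (hQ : 0 < Q) :
    wsum B A Q (fun e => Lc ω e.prod (nn (vx e 0) *
      (partV_E (fun j => nn (vx e j)) s Q) ^ m * nn (vx e (2 * Q)))) = 0 := by
  rw [wsum_congr B A Q (fun e he => partV_word2 hω s Q hQ e he), wsum_smul,
    partV_sum_c hω.diag A B hAB hBA s Q, mul_zero]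

theorem partV_finsum {β : Type*} (B A : Matrix (Fin n) (Fin n) (MonoidAlgebra S Γ))
    (Q : ℕ) (t : Finset β) (F : β → List Γ → S) :
    wsum B A Q (fun w => ∑ a ∈ t, F a w) = ∑ a ∈ t, wsum B A Q (F a) := by
  classical
  induction t using Finset.induction_on with
  | empty =>
    have h := wsum_smul B A Q 0 (fun _ => (0 : S))
    simpa using h
  | insert a t ha ih =>
    rw [Finset.sum_insert ha, ← ih, ← wsum_add]
    refine wsum_congr B A Q fun w _ => ?_
    rw [Finset.sum_insert ha]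

/-- A polynomial of degree at most `k` vanishing at `0, ..., k` is zero. -/
theorem partV_vandermonde {k : ℕ} (h : Reg S k) (a : Fin (k + 1) → S)
    (ha : ∀ s : Fin (k + 1), ∑ i : Fin (k + 1), a i * ((s : ℕ) : S) ^ (i : ℕ) = 0) :
    ∀ i, a i = 0 := by
  set V : Matrix (Fin (k + 1)) (Fin (k + 1)) S :=
    Matrix.vandermonde (fun s : Fin (k + 1) => ((s : ℕ) : S)) with hV
  have h1 : V.mulVec a = 0 := by
    funext s
    rw [Matrix.mulVec, dotProduct]
    rw [Pi.zero_apply, ← ha s]
    refine Finset.sum_congr rfl fun k _ => ?_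
    rw [hV, Matrix.vandermonde_apply, mul_comm]
  have h2 : V.det • a = 0 := by
    have h3 : (V.adjugate * V).mulVec a = 0 := by
      rw [← Matrix.mulVec_mulVec, h1, Matrix.mulVec_zero]
    rw [Matrix.adjugate_mul, Matrix.smul_mulVec, Matrix.one_mulVec] at h3
    exact h3
  have hdet : ∀ x : S, V.det * x = 0 → x = 0 := by
    rw [hV, Matrix.det_vandermonde]
    intro x
    have hreg : ∀ i j : Fin (k + 1), j ∈ Finset.Ioi i →
        ∀ y : S, ((((j : ℕ) : S)) - ((i : ℕ) : S)) * y = 0 → y = 0 := by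
      intro i j hij y hy
      rw [Finset.mem_Ioi] at hij
      have hlt : (i : ℕ) < j := hij
      have e : (((j : ℕ) : S)) - ((i : ℕ) : S) = (((j : ℕ) - (i : ℕ) : ℕ) : S) := by
        rw [Nat.cast_sub hlt.le]
      rw [e] at hy
      exact h _ (by omega) (by omega) y hy
    have hmul : ∀ a b : S, (∀ y : S, a * y = 0 → y = 0) → (∀ y : S, b * y = 0 → y = 0) →
        ∀ y : S, a * b * y = 0 → y = 0 := fun a b ha hb y hy => hb y (ha _ (by rw [← mul_assoc, hy]))
    exact Finset.prod_induction _ (fun a : S => ∀ y : S, a * y = 0 → y = 0) hmul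
      (fun y hy => by simpa using hy) (fun i _ =>
        Finset.prod_induction _ (fun a : S => ∀ y : S, a * y = 0 → y = 0) hmul
          (fun y hy => by simpa using hy) fun j hj => hreg i j hj) x
  intro i
  refine hdet _ ?_
  have := congrFun h2 i
  simpa using this

/-- the coefficients of a polynomial identity -/
theorem partV_coeff (hreg : Reg S m) (B A : Matrix (Fin n) (Fin n) (MonoidAlgebra S Γ)) (Q k : ℕ)
    (hk : k ≤ m) (F : ℤ → List Γ → S) (q : ℕ → List Γ → S)
    (hF : ∀ s : ℤ, ∀ e : List Γ, e.length = 2 * Q →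
      F s e = ∑ i ∈ Finset.range (k + 1), ((k.choose i : S) * (s : S) ^ i) * q i e)
    (h0 : ∀ s : ℤ, wsum B A Q (F s) = 0) (i : ℕ) (hi : i ≤ k) : wsum B A Q (q i) = 0 := by
  have hs : ∀ s : ℤ, ∑ i ∈ Finset.range (k + 1),
      ((k.choose i : S) * wsum B A Q (q i)) * (s : S) ^ i = 0 := by
    intro s
    rw [← h0 s, wsum_congr B A Q (hF s), partV_finsum]
    refine Finset.sum_congr rfl fun i _ => ?_
    rw [wsum_smul]
    ring
  have h1 := partV_vandermonde (hreg.mono hk)
    (fun i : Fin (k + 1) => (k.choose (i : ℕ) : S) * wsum B A Q (q (i : ℕ))) (fun s => by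
      have h2 := hs ((s : ℕ) : ℤ)
      rw [Finset.sum_range] at h2
      simpa using h2)
  exact reg_choose hreg hk hi _ (h1 ⟨i, by omega⟩)

/-- the binomial theorem -/
theorem partV_binom {K : Type*} [Ring K] (L : K →+ S) (X Y : K) (hc : Commute X Y) (a b : K)
    (s : ℤ) (k : ℕ) :
    L (a * (s • X + Y) ^ k * b) = ∑ i ∈ Finset.range (k + 1),
      ((k.choose i : S) * (s : S) ^ i) * L (a * (X ^ i * Y ^ (k - i)) * b) := by
  rw [(hc.smul_left s).add_pow, Finset.mul_sum, Finset.sum_mul, map_sum]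
  refine Finset.sum_congr rfl fun i _ => ?_
  have e3 : ∀ y : S, ((k.choose i : S) * (s : S) ^ i) * y =
      ((k.choose i : ℤ) * s ^ i) • y := by
    intro y
    rw [zsmul_eq_mul]
    push_cast
    ring
  rw [e3, ← map_zsmul]
  congr 1
  have e4 : (s • X) ^ i * Y ^ (k - i) * ((k.choose i : ℕ) : K) =
      ((k.choose i : ℤ) * s ^ i) • (X ^ i * Y ^ (k - i)) := by
    rw [smul_pow, smul_mul_assoc, smul_mul_assoc, ← nsmul_eq_mul', ← natCast_zsmul, smul_smul,
      mul_comm]
  rw [e4, mul_smul_comm, smul_mul_assoc]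

theorem partV_E_const {K : Type*} [Ring K] (N : ℕ → K) (s : ℤ) (Q : ℕ) :
    partV_E N (fun _ => s) Q = s • pg (fun j => N (2 * j)) Q + pg N (2 * Q) := by
  unfold partV_E
  rw [← Finset.smul_sum]
  rfl

theorem partV_E_delta {K : Type*} [Ring K] (N : ℕ → K) (s : ℤ) (Q s0 : ℕ) (hs : s0 < Q) :
    partV_E N (fun j => s + if j = s0 then 1 else 0) Q =
      s • pg (fun j => N (2 * j)) Q + pg N (2 * Q) + ch N s0 := by
  unfold partV_E
  have h1 : ∑ j ∈ Finset.range Q, (s + if j = s0 then (1 : ℤ) else 0) • ch N j =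
      s • pg (fun j => N (2 * j)) Q + ch N s0 := by
    rw [Finset.sum_congr rfl (fun j _ => add_smul s (if j = s0 then (1 : ℤ) else 0) (ch N j)),
      Finset.sum_add_distrib, ← Finset.smul_sum]
    congr 1
    rw [Finset.sum_eq_single_of_mem s0 (Finset.mem_range.2 hs)]
    · rw [if_pos rfl, one_smul]
    · intro b _ hb
      rw [if_neg hb, zero_smul]
  rw [h1]
  abel

theorem partV_comm_pg {K : Type*} [Ring K] (N : ℕ → K) (anti : ∀ a b, N a * N b = - (N b * N a))
    (Q : ℕ) : (∀ x, (∀ a b, Commute (N a * N b) x) → Commute (pg (fun j => N (2 * j)) Q) x) ∧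
      (∀ x, (∀ a b, Commute (N a * N b) x) → Commute (pg N (2 * Q)) x) := by
  unfold pg
  exact ⟨fun x h => Commute.sum_left _ _ _ fun a _ => h _ _,
    fun x h => Commute.sum_left _ _ _ fun a _ => h _ _⟩

/-- the coefficients in (α) and (β) -/
theorem partV_a2 (hω : IsAlt (2 * (m + 1)) ω) (hreg : Reg S m) (hm : 2 ≤ m)
    (A B : Matrix (Fin n) (Fin n) (MonoidAlgebra S Γ)) (Q : ℕ)
    (x y : List Γ → MonoidAlgebra S (FreeMonoid Γ))
    (h0 : ∀ s : ℕ → ℤ, wsum B A Q (fun e => Lc ω e.prod (x e *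
      (partV_E (fun j => nn (vx e j)) s Q) ^ (m - 1) * y e)) = 0) (s0 : ℕ) (hs : s0 < Q)
    (i : ℕ) (hi : i ≤ m - 2) :
    wsum B A Q (fun e => Lc ω e.prod (x e * (ch (fun j => nn (vx e j)) s0 *
      ((pg (fun j => nn (vx e (2 * j))) Q) ^ i * (pg (fun j => nn (vx e j)) (2 * Q)) ^ (m - 2 - i))) *
        y e)) = 0 := by
  obtain ⟨k, rfl⟩ : ∃ k, m = k + 2 := ⟨m - 2, by omega⟩
  have hk : k + 2 - 2 = k := by omega
  have hk1 : k + 2 - 1 = k + 1 := by omega
  rw [hk] at hi
  rw [hk]
  rw [hk1] at h0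
  set q : ℕ → List Γ → S := fun i e => ((k + 1 : ℕ) : S) * Lc ω e.prod (x e *
    (ch (fun j => nn (vx e j)) s0 *
      ((pg (fun j => nn (vx e (2 * j))) Q) ^ i * (pg (fun j => nn (vx e j)) (2 * Q)) ^ (k - i))) *
        y e) with hq
  have h1 := partV_coeff hreg B A Q k (by omega)
    (fun s e => Lc ω e.prod (x e * (partV_E (fun j => nn (vx e j))
        (fun j => s + if j = s0 then 1 else 0) Q) ^ (k + 1) * y e) -
      Lc ω e.prod (x e * (partV_E (fun j => nn (vx e j)) (fun _ => s) Q) ^ (k + 1) * y e)) q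
    (fun s e he => by
      obtain ⟨K, _, f, L, deg, hS⟩ := partV_alt hω e.prod
      set N : ℕ → K := fun j => f (nn (vx e j)) with hN
      have anti : ∀ a b, N a * N b = - (N b * N a) := fun a b => hS.anti _ _
      have sq : ∀ a, N a * N a = 0 := fun a => hS.sq _
      have hqL : ∀ i, q i e = ((k + 1 : ℕ) : S) * L (f (x e) * ch N s0 *
          ((pg (fun j => N (2 * j)) Q) ^ i * (pg N (2 * Q)) ^ (k - i)) * f (y e)) := by
        intro i
        rw [hq]
        show ((k + 1 : ℕ) : S) * Lc ω e.prod _ = _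
        rw [← hS.L_f, map_mul f, map_mul f, map_mul f, map_mul f, map_pow f, map_pow f, map_pg,
          map_pg, partV_map_ch, mul_assoc (f (x e)) (ch N s0)]
      have hp2 : ∀ a b c d, Commute (N a * N b) (N c * N d) := fun a b c d =>
        (partV_pair_comm N anti a b c).mul_right (partV_pair_comm N anti a b d)
      have hXY : Commute (pg (fun j => N (2 * j)) Q) (pg N (2 * Q)) :=
        (partV_comm_pg N anti Q).1 _ fun a b =>
          ((partV_comm_pg N anti Q).2 _ fun c d => hp2 c d a b).symm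
      have hXc : Commute (pg (fun j => N (2 * j)) Q) (ch N s0) :=
        (partV_comm_pg N anti Q).1 _ fun a b => hp2 _ _ _ _
      have hYc : Commute (pg N (2 * Q)) (ch N s0) :=
        (partV_comm_pg N anti Q).2 _ fun a b => hp2 _ _ _ _
      have hE : Commute (s • pg (fun j => N (2 * j)) Q + pg N (2 * Q)) (ch N s0) :=
        (hXc.smul_left s).add_left hYc
      show Lc ω e.prod _ - Lc ω e.prod _ = _
      rw [← hS.L_f, ← hS.L_f, ← map_sub, map_mul f, map_mul f, map_mul f, map_mul f, map_pow f,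
        map_pow f, partV_map_E, partV_map_E]
      show L (f (x e) * (partV_E N _ Q) ^ (k + 1) * f (y e) -
        f (x e) * (partV_E N _ Q) ^ (k + 1) * f (y e)) = _
      rw [partV_E_const, partV_E_delta N s Q s0 hs, sq_add_pow _ _ hE.eq (partV_ch_sq N anti sq s0)]
      have e5 : ∀ P : K, f (x e) * ((s • pg (fun j => N (2 * j)) Q + pg N (2 * Q)) ^ (k + 1) + P) *
          f (y e) - f (x e) * (s • pg (fun j => N (2 * j)) Q + pg N (2 * Q)) ^ (k + 1) * f (y e) =
          f (x e) * P * f (y e) := by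
        intro P
        noncomm_ring
      rw [e5, (hE.pow_left k).eq]
      have e6 : f (x e) * (((k + 1 : ℕ) : K) *
          (ch N s0 * (s • pg (fun j => N (2 * j)) Q + pg N (2 * Q)) ^ k)) * f (y e) =
          (k + 1 : ℕ) • (f (x e) * ch N s0 *
            (s • pg (fun j => N (2 * j)) Q + pg N (2 * Q)) ^ k * f (y e)) := by
        rw [← nsmul_eq_mul, mul_smul_comm, smul_mul_assoc, ← mul_assoc (f (x e))]
      rw [e6, map_nsmul, nsmul_eq_mul, partV_binom L _ _ hXY, Finset.mul_sum]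
      refine Finset.sum_congr rfl fun i _ => ?_
      rw [hqL]
      ring)
    (fun s => by
      have h2 := wsum_smul B A Q (-1) (fun e => Lc ω e.prod (x e *
        (partV_E (fun j => nn (vx e j)) (fun _ => s) Q) ^ (k + 1) * y e))
      rw [h0, mul_zero] at h2
      have h3 := wsum_add B A Q (fun e => Lc ω e.prod (x e * (partV_E (fun j => nn (vx e j))
        (fun j => s + if j = s0 then 1 else 0) Q) ^ (k + 1) * y e))
        (fun e => -1 * Lc ω e.prod (x e *
        (partV_E (fun j => nn (vx e j)) (fun _ => s) Q) ^ (k + 1) * y e))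
      rw [h0, h2, add_zero] at h3
      rw [← h3]
      refine wsum_congr B A Q fun e _ => ?_
      ring) i hi
  rw [hq] at h1
  change wsum B A Q (fun e => ((k + 1 : ℕ) : S) * _) = 0 at h1
  rw [wsum_smul] at h1
  exact hreg (k + 1) (by omega) (by omega) _ h1

/-- the coefficients in (γ) -/
theorem partV_c2 (hω : IsAlt (2 * (m + 1)) ω) (hreg : Reg S m)
    (A B : Matrix (Fin n) (Fin n) (MonoidAlgebra S Γ)) (hAB : A * B = 1) (hBA : B * A = 1)
    (Q : ℕ) (hQ : 0 < Q) (i : ℕ) (hi : i ≤ m) :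
    wsum B A Q (fun e => Lc ω e.prod (nn (vx e 0) * (
      (pg (fun j => nn (vx e (2 * j))) Q) ^ i * (pg (fun j => nn (vx e j)) (2 * Q)) ^ (m - i)) *
        nn (vx e (2 * Q)))) = 0 := by
  refine partV_coeff hreg B A Q m le_rfl
    (fun s e => Lc ω e.prod (nn (vx e 0) *
      (partV_E (fun j => nn (vx e j)) (fun _ => s) Q) ^ m * nn (vx e (2 * Q))))
    (fun i e => Lc ω e.prod (nn (vx e 0) * (
      (pg (fun j => nn (vx e (2 * j))) Q) ^ i * (pg (fun j => nn (vx e j)) (2 * Q)) ^ (m - i)) *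
        nn (vx e (2 * Q))))
    (fun s e he => ?_) (fun s => partV_c1 hω A B hAB hBA _ Q hQ) i hi
  obtain ⟨K, _, f, L, deg, hS⟩ := partV_alt hω e.prod
  set N : ℕ → K := fun j => f (nn (vx e j)) with hN
  have anti : ∀ a b, N a * N b = - (N b * N a) := fun a b => hS.anti _ _
  have hp2 : ∀ a b c d, Commute (N a * N b) (N c * N d) := fun a b c d =>
    (partV_pair_comm N anti a b c).mul_right (partV_pair_comm N anti a b d)
  have hXY : Commute (pg (fun j => N (2 * j)) Q) (pg N (2 * Q)) :=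
    (partV_comm_pg N anti Q).1 _ fun a b =>
      ((partV_comm_pg N anti Q).2 _ fun c d => hp2 c d a b).symm
  rw [← hS.L_f, map_mul f, map_mul f, map_pow f, partV_map_E]
  show L (N 0 * (partV_E N _ Q) ^ m * N (2 * Q)) = _
  rw [partV_E_const, partV_binom L _ _ hXY]
  refine Finset.sum_congr rfl fun i _ => ?_
  rw [← hS.L_f, map_mul f, map_mul f, map_mul f, map_pow f, map_pow f, map_pg, map_pg]

/-- the correction term, sorted -/
theorem partV_exV {K : Type*} [Ring K] (N : ℕ → K) (anti : ∀ a b, N a * N b = - (N b * N a))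
    (sq : ∀ a, N a * N a = 0) (Q : ℕ) :
    exV m Q N = ∑ t ∈ Finset.range Q, ∑ s ∈ Finset.range Q, ∑ i ∈ Finset.range (m - 1),
      (-(Int.sign ((s : ℤ) - (t : ℤ)))) • (N 0 * ta N t * (ch N s *
        ((pg (fun j => N (2 * j)) Q) ^ i * (pg N (2 * Q)) ^ (m - 2 - i))) * 1 +
        ta N t * (ch N s * ((pg (fun j => N (2 * j)) Q) ^ i * (pg N (2 * Q)) ^ (m - 2 - i))) *
          N (2 * Q)) +
      (N 0 * ((pg (fun j => N (2 * j)) Q) ^ 0 * (pg N (2 * Q)) ^ (m - 0)) * N (2 * Q) -
        N 0 * ((pg (fun j => N (2 * j)) Q) ^ m * (pg N (2 * Q)) ^ (m - m)) * N (2 * Q)) := by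
  have hp1 : ∀ c, Commute (pg (fun j => N (2 * j)) Q) (N c) := fun c =>
    (partV_comm_pg N anti Q).1 _ fun a b => partV_pair_comm N anti a b c
  have hp2 : ∀ c, Commute (pg N (2 * Q)) (N c) := fun c =>
    (partV_comm_pg N anti Q).2 _ fun a b => partV_pair_comm N anti a b c
  generalize hX : pg (fun j => N (2 * j)) Q = X at *
  generalize hY : pg N (2 * Q) = Y at *
  have hZ : ∀ (i j : ℕ) c, Commute (X ^ i * Y ^ j) (N c) := fun i j c =>
    ((hp1 c).pow_left i).mul_left ((hp2 c).pow_left j)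
  have hW : ∀ (s i j : ℕ) c, Commute (ch N s * (X ^ i * Y ^ j)) (N c) := fun s i j c =>
    (partV_ch_comm N anti s c).mul_left (hZ i j c)
  have hta : ∀ t c, N c * ta N t = - (ta N t * N c) := by
    intro t c
    unfold ta
    have h1 : N c * (N (2 * t) * N (2 * t + 1) * N (2 * t + 2)) =
        N (2 * t) * N (2 * t + 1) * (N c * N (2 * t + 2)) := by
      rw [← mul_assoc, ← (partV_pair_comm N anti (2 * t) (2 * t + 1) c).eq, mul_assoc]
    rw [h1, anti c (2 * t + 2)]
    noncomm_ring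
  have h1 : ∀ t s i, N (2 * Q) * (ta N t * (ch N s * (X ^ i * Y ^ (m - 2 - i)))) =
      - (ta N t * (ch N s * (X ^ i * Y ^ (m - 2 - i))) * N (2 * Q)) := by
    intro t s i
    rw [← mul_assoc, hta, neg_mul, mul_assoc, ← (hW s i (m - 2 - i) (2 * Q)).eq, ← mul_assoc]
  have hOm : Om Q N * hh (m - 1) X Y = ∑ t ∈ Finset.range Q, ∑ s ∈ Finset.range Q,
      ∑ i ∈ Finset.range (m - 1), (Int.sign ((s : ℤ) - (t : ℤ))) •
        (ta N t * (ch N s * (X ^ i * Y ^ (m - 2 - i)))) := by
    unfold Om hh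
    rw [Finset.sum_mul]
    refine Finset.sum_congr rfl fun t _ => ?_
    rw [Finset.sum_mul]
    refine Finset.sum_congr rfl fun s _ => ?_
    rw [Finset.mul_sum]
    refine Finset.sum_congr rfl fun i _ => ?_
    rw [smul_mul_assoc, mul_assoc, show m - 1 - 1 - i = m - 2 - i by omega]
  have h2 : ∀ P : K, (N (2 * Q) - N 0) * P = N (2 * Q) * P - N 0 * P := fun P => sub_mul _ _ _
  have h3 : N (2 * Q) * (N 0 * (Y ^ m - X ^ m)) = - (N 0 * (Y ^ m - X ^ m) * N (2 * Q)) := by
    have h4 : Commute (Y ^ m - X ^ m) (N (2 * Q)) :=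
      ((hp2 _).pow_left m).sub_left ((hp1 _).pow_left m)
    rw [← mul_assoc, anti (2 * Q) 0, neg_mul, mul_assoc, ← h4.eq, ← mul_assoc]
  have h5 : N 0 * (N 0 * (Y ^ m - X ^ m)) = 0 := by
    rw [← mul_assoc, sq, zero_mul]
  unfold exV
  rw [hX, hY, mul_sub, h2 (Om Q N * hh (m - 1) X Y), h2 (N 0 * (Y ^ m - X ^ m)), h3, h5, hOm,
    Finset.mul_sum, Finset.mul_sum, ← Finset.sum_sub_distrib]
  have h6 : ∀ t ∈ Finset.range Q, (N (2 * Q) * ∑ s ∈ Finset.range Q,
      ∑ i ∈ Finset.range (m - 1), (Int.sign ((s : ℤ) - (t : ℤ))) •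
        (ta N t * (ch N s * (X ^ i * Y ^ (m - 2 - i)))) - N 0 * ∑ s ∈ Finset.range Q,
      ∑ i ∈ Finset.range (m - 1), (Int.sign ((s : ℤ) - (t : ℤ))) •
        (ta N t * (ch N s * (X ^ i * Y ^ (m - 2 - i))))) =
      ∑ s ∈ Finset.range Q, ∑ i ∈ Finset.range (m - 1),
      (-(Int.sign ((s : ℤ) - (t : ℤ)))) • (N 0 * ta N t * (ch N s *
        (X ^ i * Y ^ (m - 2 - i))) * 1 +
        ta N t * (ch N s * (X ^ i * Y ^ (m - 2 - i))) * N (2 * Q)) := by
    intro t _
    rw [Finset.mul_sum, Finset.mul_sum, ← Finset.sum_sub_distrib]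
    refine Finset.sum_congr rfl fun s _ => ?_
    rw [Finset.mul_sum, Finset.mul_sum, ← Finset.sum_sub_distrib]
    refine Finset.sum_congr rfl fun i _ => ?_
    rw [mul_smul_comm, mul_smul_comm, h1, mul_one, ← mul_assoc (N 0), smul_neg, neg_smul, smul_add]
    abel
  rw [Finset.sum_congr rfl h6, pow_zero, one_mul, Nat.sub_zero, Nat.sub_self, pow_zero, mul_one,
    mul_sub, sub_mul]
  abel

/-- PROOF (compare `MP_8f66f0_al_ChernS/PartA.lean`, `EvTr.lean`, `Alg.lean`). For a function `s : ℕ → ℤ` put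
`γ j = s j • (N (2j) N (2j+2)) + (N (2j) N (2j+1) + N (2j+1) N (2j+2))`, so that `Σ_{j<Q} γ j = Σ s j • ch N j + pg N (2Q)`.
With `W G = wsum B A Q (fun e => Lc ω e.prod G)`:
(α) `W (N 0 * ta N t * (Σ γ j)^(m-1)) = 0`, (β) `W (ta N t * (Σ γ j)^(m-1) * N (2Q)) = 0` (`m ≥ 1`),
(γ) `W (N 0 * (Σ γ j)^m * N (2Q)) = 0`. Proof: `sq_pick`, lists of types `X (s j)` with `T` at `t`; a last factor
`nn e.prod = nn (vx e (2Q))` corresponds to a last factor `nM` (`wsum_pp` with `Φ x = LM ω (x * nM)`), and in the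
matrices over the syntactic ring `N (1 + x + y)^k N = N (1 + y)^k N = 0` (`N x = 0`, `y x = 0`, `y N = 0`, `N N = 0`).
In (α), (β) take `s j = s' + u δ_{j s}`: the coefficient of `u` is `(m-1) W (.. ta N t * ch N s * (s' pg0 + pg)^(m-2) ..)`;
by `reg_vandermonde` in `s'` all `W (.. ta N t * ch N s * pg0^i * pg^(m-2-i) ..) = 0`. In (γ) take `s` constant: all
`W (N 0 * pg0^i * pg^(m-i) * N (2Q)) = 0`. -/
theorem partV (hω : IsAlt (2 * (m + 1)) ω) (hreg : Reg S m)
    (A B : Matrix (Fin n) (Fin n) (MonoidAlgebra S Γ)) (hAB : A * B = 1) (hBA : B * A = 1)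
    (Q : ℕ) (hQ : 0 < Q) :
    wsum B A Q (fun e => Lc ω e.prod (exV m Q fun j => nn (vx e j))) = 0 := by
  set qa : ℕ → ℕ → ℕ → List Γ → S := fun t s i e => Lc ω e.prod
    (nn (vx e 0) * ta (fun j => nn (vx e j)) t * (ch (fun j => nn (vx e j)) s *
      ((pg (fun j => nn (vx e (2 * j))) Q) ^ i * (pg (fun j => nn (vx e j)) (2 * Q)) ^ (m - 2 - i)))
        * 1) with hqa
  set qb : ℕ → ℕ → ℕ → List Γ → S := fun t s i e => Lc ω e.prod
    (ta (fun j => nn (vx e j)) t * (ch (fun j => nn (vx e j)) s *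
      ((pg (fun j => nn (vx e (2 * j))) Q) ^ i * (pg (fun j => nn (vx e j)) (2 * Q)) ^ (m - 2 - i)))
        * nn (vx e (2 * Q))) with hqb
  set qc : ℕ → List Γ → S := fun i e => Lc ω e.prod (nn (vx e 0) * (
      (pg (fun j => nn (vx e (2 * j))) Q) ^ i * (pg (fun j => nn (vx e j)) (2 * Q)) ^ (m - i)) *
        nn (vx e (2 * Q))) with hqc
  have key : ∀ e : List Γ, e.length = 2 * Q → Lc ω e.prod (exV m Q fun j => nn (vx e j)) =
      (∑ t ∈ Finset.range Q, ∑ s ∈ Finset.range Q, ∑ i ∈ Finset.range (m - 1),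
        ((-(Int.sign ((s : ℤ) - (t : ℤ))) : ℤ) : S) * (qa t s i e + qb t s i e)) +
      (qc 0 e + (-1) * qc m e) := by
    intro e he
    obtain ⟨K, _, f, L, deg, hS⟩ := partV_alt hω e.prod
    set N : ℕ → K := fun j => f (nn (vx e j)) with hN
    have anti : ∀ a b, N a * N b = - (N b * N a) := fun a b => hS.anti _ _
    have sq : ∀ a, N a * N a = 0 := fun a => hS.sq _
    have hV : f (exV m Q fun j => nn (vx e j)) = exV m Q N := by
      unfold exV Om hh
      simp only [map_mul, map_sub, map_sum, map_pow, map_zsmul, map_pg, partV_map_ta,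
        partV_map_ch]
      rfl
    have ha : ∀ t s i, qa t s i e = L (N 0 * ta N t * (ch N s *
        ((pg (fun j => N (2 * j)) Q) ^ i * (pg N (2 * Q)) ^ (m - 2 - i))) * 1) := by
      intro t s i
      rw [hqa]
      show Lc ω e.prod _ = _
      rw [← hS.L_f]
      simp only [map_mul, map_pow, map_pg, partV_map_ta, partV_map_ch, map_one]
      rfl
    have hb : ∀ t s i, qb t s i e = L (ta N t * (ch N s *
        ((pg (fun j => N (2 * j)) Q) ^ i * (pg N (2 * Q)) ^ (m - 2 - i))) * N (2 * Q)) := by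
      intro t s i
      rw [hqb]
      show Lc ω e.prod _ = _
      rw [← hS.L_f]
      simp only [map_mul, map_pow, map_pg, partV_map_ta, partV_map_ch]
      rfl
    have hc : ∀ i, qc i e = L (N 0 * ((pg (fun j => N (2 * j)) Q) ^ i *
        (pg N (2 * Q)) ^ (m - i)) * N (2 * Q)) := by
      intro i
      rw [hqc]
      show Lc ω e.prod _ = _
      rw [← hS.L_f]
      simp only [map_mul, map_pow, map_pg]
      rfl
    rw [← hS.L_f, hV, partV_exV N anti sq Q, map_add, map_sub, ← hc 0, ← hc m, map_sum]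
    congr 1
    · refine Finset.sum_congr rfl fun t _ => ?_
      rw [map_sum]
      refine Finset.sum_congr rfl fun s _ => ?_
      rw [map_sum]
      refine Finset.sum_congr rfl fun i _ => ?_
      rw [map_zsmul, map_add, ← ha, ← hb, zsmul_eq_mul]
    · ring
  rw [wsum_congr B A Q key, wsum_add, wsum_add, wsum_smul, partV_finsum]
  have hc := fun i hi => partV_c2 hω hreg A B hAB hBA Q hQ i hi
  have hc0 : wsum B A Q (qc 0) = 0 := hc 0 (Nat.zero_le _)
  have hcm : wsum B A Q (qc m) = 0 := hc m le_rfl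
  rw [hc0, hcm, mul_zero, add_zero, add_zero]
  refine Finset.sum_eq_zero fun t ht => ?_
  rw [partV_finsum]
  refine Finset.sum_eq_zero fun s hs => ?_
  rw [partV_finsum]
  refine Finset.sum_eq_zero fun i hi => ?_
  rw [Finset.mem_range] at ht hs hi
  rw [wsum_smul, wsum_add]
  have h1 : wsum B A Q (qa t s i) = 0 :=
    partV_a2 hω hreg (by omega) A B Q (fun e => nn (vx e 0) * ta (fun j => nn (vx e j)) t)
      (fun _ => 1) (fun s => partV_a1 hω (by omega) A B hAB hBA s Q t ht) s hs i (by omega)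
  have h2 : wsum B A Q (qb t s i) = 0 :=
    partV_a2 hω hreg (by omega) A B Q (fun e => ta (fun j => nn (vx e j)) t)
      (fun e => nn (vx e (2 * Q))) (fun s => partV_b1 hω (by omega) A B hAB hBA s Q t ht) s hs i
      (by omega)
  rw [h1, h2, add_zero, mul_zero]

end sums

end Pool.Agent.Lib.MP_8f66f0_al_Mixed
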