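import Mathlib
import Pool.Agent.Lib.MP_8f66f0_al_ChernS.PartB
import Pool.Agent.Lib.MP_8f66f0_al_Mixed.PartV

/-! # The sum of `exF` over all words, for alternating cochains. -/

set_option autoImplicit false
set_option linter.unusedSectionVars false
set_option linter.unusedVariables false

namespace Pool.Agent.Lib.MP_8f66f0_al_Mixed

open Pool.Agent.Lib.MP_8f66f0_al_FinQ Pool.Agent.Lib.MP_8f66f0_al_Uni
  Pool.Agent.Lib.MP_8f66f0_al_ChernS

variable {Γ : Type*} [Group Γ] {S : Type*} [CommRing S] {ω : Γ → List Γ → S} {n m : ℕ}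

/-! ### Copies of `evB`, `evT`, `partA`, `partB` for alternating cochains -/

theorem tF_evB {m : ℕ} (hω : IsAlt (2 * (m + 1)) ω)
    (A B : Matrix (Fin n) (Fin n) (MonoidAlgebra S Γ)) (hAB : A * B = 1) (hBA : B * A = 1)
    (Q : ℕ) (hQ : 0 < Q) :
    LM ω (Matrix.trace (ext2 B A (yy Ty.E) * (ext2 B A (yy (Ty.X 0))) ^ (Q - 1))) =
      ((Q - 1).choose m : S) * chern m A B ω := by
  obtain ⟨K, hK, f, L, _, hL, hf⟩ := exists_syn (fun x : MW Γ => ω x.tot x.marks)
  have hN1 : f nM * f nM = 0 := by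
    rw [← map_mul, hf]
    exact evTr_crit hω.diag
  have hN : Matrix.scalar (Fin n) (f nM) * Matrix.scalar (Fin n) (f nM) = 0 := by
    rw [← map_mul, hN1, map_zero]
  have hLL : ∀ M : Matrix (Fin n) (Fin n) (RM S Γ),
      LM ω (Matrix.trace M) = L (Matrix.trace (f.mapMatrix M)) := by
    intro M
    rw [← evTr_trace, hL]
    rfl
  have hE : f.mapMatrix (ext2 B A (yy Ty.E)) = Matrix.scalar (Fin n) (f nM) *
      f.mapMatrix (B.map upHom) * Matrix.scalar (Fin n) (f nM) * f.mapMatrix (A.map upHom) := by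
    rw [ext2_E, map_mul, map_mul, map_mul, evTr_scalar]
  rw [hLL, map_mul, map_pow, evTr_X f A B hBA hN, hE,
    alg_x _ _ _ (evTr_one f B A hBA) (evTr_one f A B hAB) hN, ← hE]
  have hpow : ∀ k : ℕ, L (Matrix.trace (f.mapMatrix (ext2 B A (yy Ty.E)) ^ (k + 1))) =
      if k = m then chern m A B ω else 0 := by
    intro k
    rw [← map_pow, ← hLL, trE]
    split_ifs with hk
    · rw [hk]
      rfl
    · refine wsum_eq_zero_of_support B A (k + 1) Set.univ (fun _ _ _ _ => Set.mem_univ _)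
        (fun _ _ _ _ => Set.mem_univ _) fun w hw _ => ?_
      refine hω.len _ _ ?_
      have h1 : (verts w).length = w.length := by
        unfold verts
        rw [List.length_map, List.length_range]
      rw [h1, hw]
      omega
  rw [add_comm (1 : Matrix (Fin n) (Fin n) K) (f.mapMatrix (ext2 B A (yy Ty.E))),
    (Commute.one_right _).add_pow, Finset.mul_sum, Matrix.trace_sum, map_sum]
  have h2 : ∀ k ∈ Finset.range (Q - 1 + 1),
      L (Matrix.trace (f.mapMatrix (ext2 B A (yy Ty.E)) *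
        (f.mapMatrix (ext2 B A (yy Ty.E)) ^ k * 1 ^ (Q - 1 - k) *
          (((Q - 1).choose k : ℕ) : Matrix (Fin n) (Fin n) K)))) =
      ((Q - 1).choose k : S) * (if k = m then chern m A B ω else 0) := by
    intro k _
    rw [← hpow k, one_pow, mul_one, ← mul_assoc, ← pow_succ', ← nsmul_eq_mul', Matrix.trace_smul,
      map_nsmul, nsmul_eq_mul]
  rw [Finset.sum_congr rfl h2]
  by_cases hm : m ∈ Finset.range (Q - 1 + 1)
  · rw [Finset.sum_eq_single_of_mem m hm]
    · rw [if_pos rfl]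
    · intro b _ hb
      rw [if_neg hb, mul_zero]
  · have h3 : Q - 1 < m := by
      rw [Finset.mem_range] at hm
      omega
    rw [Nat.choose_eq_zero_of_lt h3, Nat.cast_zero, zero_mul]
    refine Finset.sum_eq_zero fun k hk => ?_
    rw [if_neg, mul_zero]
    rintro rfl
    exact hm hk

theorem tF_evT {r : ℕ} (hω : IsAlt r ω) (A B : Matrix (Fin n) (Fin n) (MonoidAlgebra S Γ))
    (hAB : A * B = 1) (hBA : B * A = 1) (s : ℤ) (i k : ℕ) :
    LM ω (nM * Matrix.trace ((ext2 B A (yy (Ty.X s))) ^ i * ext2 B A (yy Ty.T) *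
      (ext2 B A (yy (Ty.X s))) ^ k)) = 0 := by
  obtain ⟨K, hK, f, L, _, hL, hf⟩ := exists_syn (fun x : MW Γ => ω x.tot x.marks)
  have hN1 : f nM * f nM = 0 := by
    rw [← map_mul, hf]
    exact evTr_crit hω.diag
  have hN : Matrix.scalar (Fin n) (f nM) * Matrix.scalar (Fin n) (f nM) = 0 := by
    rw [← map_mul, hN1, map_zero]
  have hT : f.mapMatrix (ext2 B A (yy Ty.T)) = Matrix.scalar (Fin n) (f nM) *
      f.mapMatrix (B.map upHom) * Matrix.scalar (Fin n) (f nM) * f.mapMatrix (A.map upHom) *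
      Matrix.scalar (Fin n) (f nM) := by
    rw [ext2_T, map_mul, map_mul, map_mul, map_mul, evTr_scalar]
  have h0 : LM ω (nM * Matrix.trace ((ext2 B A (yy (Ty.X s))) ^ i * ext2 B A (yy Ty.T) *
      (ext2 B A (yy (Ty.X s))) ^ k)) = L (f (nM * Matrix.trace ((ext2 B A (yy (Ty.X s))) ^ i *
        ext2 B A (yy Ty.T) * (ext2 B A (yy (Ty.X s))) ^ k))) := by
    rw [hL]
    rfl
  rw [h0, map_mul, evTr_trace, evTr_scalar_trace, map_mul, map_mul, map_pow, map_pow,
    evTr_X f A B hBA hN, hT, ← mul_assoc, ← mul_assoc,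
    alg_T _ _ _ (evTr_one f B A hBA) (evTr_one f A B hAB) hN, zero_mul, Matrix.trace_zero,
    map_zero]

section tF_A_ring

variable {K : Type*} [Ring K] (N : ℕ → K)

def tF_A_ga (s : ℤ) (j : ℕ) : K :=
  s • (N (2 * j) * N (2 * j + 2)) + (N (2 * j) * N (2 * j + 1) + N (2 * j + 1) * N (2 * j + 2))

def tF_A_ta (j : ℕ) : K := N (2 * j) * N (2 * j + 1) * N (2 * j + 2)

variable (anti : ∀ a b, N a * N b = - (N b * N a)) (sq : ∀ a, N a * N a = 0)

include anti in
theorem tF_A_pair_comm (a b c : ℕ) : Commute (N a * N b) (N c) := by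
  show N a * N b * N c = N c * (N a * N b)
  rw [mul_assoc, anti b c, mul_neg, ← mul_assoc, anti a c, neg_mul, neg_neg, mul_assoc]

include anti in
theorem tF_A_ga_comm (s : ℤ) (j c : ℕ) : Commute (tF_A_ga N s j) (N c) := by
  unfold tF_A_ga
  exact ((tF_A_pair_comm N anti _ _ _).smul_left s).add_left
    ((tF_A_pair_comm N anti _ _ _).add_left (tF_A_pair_comm N anti _ _ _))

include anti in
theorem tF_A_ga_ga (s : ℤ) (i j : ℕ) :
    tF_A_ga N s i * tF_A_ga N s j = tF_A_ga N s j * tF_A_ga N s i := by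
  have h : ∀ c, Commute (tF_A_ga N s i) (N c) := tF_A_ga_comm N anti s i
  have h2 : Commute (tF_A_ga N s i) (tF_A_ga N s j) := by
    nth_rewrite 2 [tF_A_ga]
    exact (((h _).mul_right (h _)).smul_right s).add_right
      (((h _).mul_right (h _)).add_right ((h _).mul_right (h _)))
  exact h2

include anti in
theorem tF_A_ta_ga (s : ℤ) (i j : ℕ) :
    tF_A_ta N i * tF_A_ga N s j = tF_A_ga N s j * tF_A_ta N i := by
  have h : ∀ c, Commute (N c) (tF_A_ga N s j) := fun c => (tF_A_ga_comm N anti s j c).symm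
  have h2 : Commute (tF_A_ta N i) (tF_A_ga N s j) := by
    unfold tF_A_ta
    exact ((h _).mul_left (h _)).mul_left (h _)
  exact h2

include sq in
theorem tF_A_q1 (a b d : ℕ) : N a * N b * (N b * N d) = 0 := by
  rw [mul_assoc, ← mul_assoc (N b), sq, zero_mul, mul_zero]

include anti sq in
theorem tF_A_q2 (a b d : ℕ) : N a * N b * (N a * N d) = 0 := by
  rw [anti a b, neg_mul, tF_A_q1 N sq, neg_zero]

include anti sq in
theorem tF_A_q3 (a b d : ℕ) : N a * N b * (N d * N b) = 0 := by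
  rw [anti d b, mul_neg, tF_A_q1 N sq, neg_zero]

include anti sq in
theorem tF_A_q4 (a b d : ℕ) : N a * N b * (N d * N a) = 0 := by
  rw [anti a b, neg_mul, tF_A_q3 N anti sq, neg_zero]

include anti sq in
theorem tF_A_ga_sq (s : ℤ) (j : ℕ) : tF_A_ga N s j * tF_A_ga N s j = 0 := by
  unfold tF_A_ga
  simp only [add_mul, mul_add, smul_mul_assoc, mul_smul_comm, tF_A_q1 N sq, tF_A_q2 N anti sq,
    tF_A_q3 N anti sq, tF_A_q4 N anti sq, smul_zero, add_zero]

include anti sq in
theorem tF_A_ta_zero (s : ℤ) (j : ℕ) : tF_A_ta N j * tF_A_ga N s j = 0 := by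
  unfold tF_A_ta tF_A_ga
  have h1 : N (2 * j) * N (2 * j + 1) * N (2 * j + 2) * (N (2 * j) * N (2 * j + 2)) = 0 := by
    rw [mul_assoc (N (2 * j)) (N (2 * j + 1)), mul_assoc, tF_A_q3 N anti sq, mul_zero]
  have h2 : N (2 * j) * N (2 * j + 1) * N (2 * j + 2) * (N (2 * j) * N (2 * j + 1)) = 0 := by
    rw [mul_assoc (N (2 * j)) (N (2 * j + 1)), mul_assoc, tF_A_q4 N anti sq, mul_zero]
  have h3 : N (2 * j) * N (2 * j + 1) * N (2 * j + 2) * (N (2 * j + 1) * N (2 * j + 2)) = 0 := by
    rw [mul_assoc (N (2 * j)) (N (2 * j + 1)), mul_assoc, tF_A_q2 N anti sq, mul_zero]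
  rw [mul_add, mul_add, mul_smul_comm, h1, h2, h3, smul_zero, add_zero, add_zero]

theorem tF_A_pg_two (Q : ℕ) : pg N (2 * Q) =
    ∑ j ∈ Finset.range Q, (N (2 * j) * N (2 * j + 1) + N (2 * j + 1) * N (2 * j + 2)) := by
  unfold pg
  induction Q with
  | zero => simp
  | succ Q ih =>
    rw [Finset.sum_range_succ, ← ih, show 2 * (Q + 1) = 2 * Q + 1 + 1 by ring,
      Finset.sum_range_succ, Finset.sum_range_succ, add_assoc]

theorem tF_A_sum_ga (s : ℤ) (Q : ℕ) :
    s • pg (fun j => N (2 * j)) Q + pg N (2 * Q) = ∑ j ∈ Finset.range Q, tF_A_ga N s j := by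
  rw [tF_A_pg_two]
  unfold pg tF_A_ga
  rw [Finset.smul_sum, ← Finset.sum_add_distrib]
  rfl

theorem tF_A_tri (Q : ℕ) : tri N Q = ∑ j ∈ Finset.range Q, tF_A_ta N j := rfl

theorem tF_A_prodTo (γ : ℕ → K) (k : ℕ) :
    prodTo γ k = ((List.range k).map fun j => 1 + γ j).prod := by
  induction k with
  | zero => simp [prodTo]
  | succ k ih =>
    rw [List.range_succ, List.map_append, List.prod_append, ← ih]
    simp [prodTo]

end tF_A_ring

theorem tF_A_zz {K K' : Type*} [Ring K] [Ring K'] (f : K →+* K') (t : Ty) (a b c : K) :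
    f (zz t a b c) = zz t (f a) (f b) (f c) := by
  cases t with
  | E => exact map_mul f a b
  | T => show f (a * b * c) = _; rw [map_mul, map_mul]; rfl
  | X s =>
    show f (1 + (s • (a * c) + (a * b + b * c))) = _
    rw [map_add, map_one, map_add, map_zsmul, map_add, map_mul, map_mul, map_mul]
    rfl

theorem tF_A_list {K : Type*} [Ring K] (N : ℕ → K) (s : ℤ) (i k : ℕ) :
    ((List.range (i + 1 + k)).map fun j =>
      zz ((List.replicate i (Ty.X s) ++ Ty.T :: List.replicate k (Ty.X s)).getD j Ty.E)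
        (N (2 * j)) (N (2 * j + 1)) (N (2 * j + 2))).prod =
      prodTo (tF_A_ga N s) i * tF_A_ta N i *
        prodTo (fun j => tF_A_ga N s (i + 1 + j)) k := by
  rw [List.range_add, List.map_append, List.prod_append, List.range_succ, List.map_append,
    List.prod_append, tF_A_prodTo, tF_A_prodTo, List.map_map]
  congr 1
  · congr 1
    · congr 1
      refine List.map_congr_left fun j hj => ?_
      rw [List.mem_range] at hj
      rw [List.getD_append _ _ _ _ (by rw [List.length_replicate]; exact hj),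
        List.getD_eq_getElem _ _ (by rw [List.length_replicate]; exact hj), List.getElem_replicate]
      rfl
    · rw [List.map_singleton, List.prod_singleton,
        List.getD_append_right _ _ _ _ (by rw [List.length_replicate]), List.length_replicate,
        Nat.sub_self]
      rfl
  · congr 1
    refine List.map_congr_left fun j hj => ?_
    rw [List.mem_range] at hj
    rw [Function.comp_apply,
      List.getD_append_right _ _ _ _ (by rw [List.length_replicate]; omega),
      List.length_replicate, show i + 1 + j - i = j + 1 by omega, List.getD_cons_succ,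
      List.getD_eq_getElem _ _ (by rw [List.length_replicate]; exact hj), List.getElem_replicate]
    rfl

open Nat in
theorem tF_A_word (hω : IsAlt (2 * (m + 1)) ω) (hm : 0 < m) (s : ℤ) (Q : ℕ) (hQ : 0 < Q)
    (e : List Γ) (he : e.length = 2 * Q) :
    Lc ω e.prod (nn (vx e 0) * (tri (fun j => nn (vx e j)) Q *
      (s • pg (fun j => nn (vx e (2 * j))) Q + pg (fun j => nn (vx e j)) (2 * Q)) ^ (m - 1))) =
      ((m - 1)! : S) * ∑ i ∈ Finset.range Q, Lc ω e.prod (nn 1 *
        zp 1 (List.replicate i (Ty.X s) ++ Ty.T :: List.replicate (Q - 1 - i) (Ty.X s)) e) := by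
  obtain ⟨K, _, f, L, deg, hS⟩ := exists_alt hω e.prod
  set N : ℕ → K := fun j => f (nn (vx e j)) with hN
  have anti : ∀ a b, N a * N b = - (N b * N a) := fun a b => hS.anti _ _
  have sq : ∀ a, N a * N a = 0 := fun a => hS.sq _
  have hNdeg : ∀ a, N a ∈ deg 1 := fun a => hS.nn_deg _
  have h2deg : ∀ a b, N a * N b ∈ deg 2 := fun a b => hS.mul_deg 1 1 _ _ (hNdeg a) (hNdeg b)
  have hgdeg : ∀ j, tF_A_ga N s j ∈ deg 2 := fun j => by
    unfold tF_A_ga
    exact AddSubgroup.add_mem _ (AddSubgroup.zsmul_mem _ (h2deg _ _) s)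
      (AddSubgroup.add_mem _ (h2deg _ _) (h2deg _ _))
  have htdeg : ∀ i, N 0 * tF_A_ta N i ∈ deg 4 := fun i => by
    unfold tF_A_ta
    exact hS.mul_deg 1 3 _ _ (hNdeg 0) (hS.mul_deg 2 1 _ _ (h2deg _ _) (hNdeg _))
  rw [← hS.L_f]
  have e1 : f (nn (vx e 0) * (tri (fun j => nn (vx e j)) Q *
      (s • pg (fun j => nn (vx e (2 * j))) Q + pg (fun j => nn (vx e j)) (2 * Q)) ^ (m - 1))) =
      ∑ i ∈ Finset.range Q, N 0 * tF_A_ta N i *
        (∑ j ∈ Finset.range Q, tF_A_ga N s j) ^ (m - 1) := by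
    rw [map_mul, map_mul, map_pow, map_add, map_zsmul, map_pg, map_pg, map_tri,
      ← tF_A_sum_ga N s Q]
    have e2 : tri (fun j => f (nn (vx e j))) Q = ∑ j ∈ Finset.range Q, tF_A_ta N j := rfl
    rw [e2, Finset.sum_mul, Finset.mul_sum]
    refine Finset.sum_congr rfl fun i _ => ?_
    rw [mul_assoc]
  rw [e1, map_sum, Finset.mul_sum]
  refine Finset.sum_congr rfl fun i hi => ?_
  rw [Finset.mem_range] at hi
  rw [sq_pick L deg (2 * (m + 1)) hS.mul_deg hS.L_deg (tF_A_ga N s) hgdeg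
    (tF_A_ga_ga N anti s) (tF_A_ga_sq N anti sq s) Q (m - 1) 4 _ (htdeg i) (by omega)]
  congr 1
  have hlen : (List.replicate i (Ty.X s) ++ Ty.T :: List.replicate (Q - 1 - i) (Ty.X s)).length =
      i + 1 + (Q - 1 - i) := by
    rw [List.length_append, List.length_cons, List.length_replicate, List.length_replicate]
    ring
  rw [← hS.L_f, map_mul f, zp_eq _ e (by rw [hlen, he]; omega), hlen, map_list_prod f,
    List.map_map]
  congr 1
  rw [mul_assoc, prodTo_split (tF_A_ga N s) (tF_A_ga_ga N anti s) (tF_A_ta N i) i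
    (fun j => tF_A_ta_ga N anti s i j) (tF_A_ta_zero N anti sq s i) Q hi]
  have e3 : N 0 = f (nn 1) := by
    show f (nn (vx e 0)) = _
    rw [vx_zero]
  rw [e3]
  congr 1
  rw [show Q - 1 - i = Q - 1 - i from rfl, ← tF_A_list N s i (Q - 1 - i)]
  congr 1
  refine List.map_congr_left fun j _ => ?_
  rw [Function.comp_apply, tF_A_zz]

theorem tF_A_finsum {β : Type*} (B A : Matrix (Fin n) (Fin n) (MonoidAlgebra S Γ))
    (Q : ℕ) (t : Finset β) (F : β → List Γ → S) :
    wsum B A Q (fun w => ∑ a ∈ t, F a w) = ∑ a ∈ t, wsum B A Q (F a) := by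
  classical
  induction t using Finset.induction_on with
  | empty =>
    have h := wsum_smul B A Q 0 (fun _ => (0 : S))
    simpa using h
  | insert a t ha ih =>
    rw [Finset.sum_insert ha, ← ih, ← wsum_add]
    refine wsum_congr B A Q fun w _ => ?_
    rw [Finset.sum_insert ha]

theorem tF_A_s (hω : IsAlt (2 * (m + 1)) ω) (hm : 0 < m)
    (A B : Matrix (Fin n) (Fin n) (MonoidAlgebra S Γ)) (hAB : A * B = 1) (hBA : B * A = 1)
    (s : ℤ) (Q : ℕ) (hQ : 0 < Q) :
    wsum B A Q (fun e => Lc ω e.prod (nn (vx e 0) * (tri (fun j => nn (vx e j)) Q *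
      (s • pg (fun j => nn (vx e (2 * j))) Q + pg (fun j => nn (vx e j)) (2 * Q)) ^ (m - 1)))) =
      0 := by
  rw [wsum_congr B A Q (fun e he => tF_A_word hω hm s Q hQ e he), wsum_smul, tF_A_finsum]
  rw [Finset.sum_eq_zero, mul_zero]
  intro i hi
  rw [Finset.mem_range] at hi
  set ts : List Ty := List.replicate i (Ty.X s) ++ Ty.T :: List.replicate (Q - 1 - i) (Ty.X s)
    with hts
  have hlen : ts.length = Q := by
    rw [hts, List.length_append, List.length_cons, List.length_replicate, List.length_replicate]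
    omega
  have e1 : wsum B A Q (fun e => Lc ω e.prod (nn 1 * zp 1 ts e)) =
      wsum B A (ts.map (yy (Γ := Γ) (S := S))).length
        (fun e => LM ω (nM * pp (ts.map (yy (Γ := Γ) (S := S))) e)) := by
    rw [List.length_map, hlen]
    refine wsum_congr B A Q fun e he => ?_
    exact (bridge (ω := ω) ts e (by rw [hlen]; exact he)).2.symm
  rw [e1, wsum_pp A B (LM ω) (fun s x => lin_smul _ s x) nM (ts.map (yy (Γ := Γ) (S := S)))]
  have e2 : ((ts.map (yy (Γ := Γ) (S := S))).map (ext2 B A)).prod =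
      (ext2 B A (yy (Γ := Γ) (S := S) (Ty.X s))) ^ i * ext2 B A (yy (Γ := Γ) (S := S) Ty.T) *
        (ext2 B A (yy (Γ := Γ) (S := S) (Ty.X s))) ^ (Q - 1 - i) := by
    rw [hts, List.map_append, List.map_append, List.map_cons, List.map_cons, List.prod_append,
      List.prod_cons, List.map_replicate, List.map_replicate, List.prod_replicate,
      List.map_replicate, List.map_replicate, List.prod_replicate, mul_assoc]
  rw [e2]
  exact tF_evT hω A B hAB hBA s i (Q - 1 - i)

theorem tF_partA (hω : IsAlt (2 * (m + 1)) ω) (hreg : Reg S m)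
    (A B : Matrix (Fin n) (Fin n) (MonoidAlgebra S Γ)) (hAB : A * B = 1) (hBA : B * A = 1)
    (Q : ℕ) (hQ : 0 < Q) :
    wsum B A Q (fun e => Lc ω e.prod (nn (vx e 0) * hmt m Q fun j => nn (vx e j))) = 0 := by
  set q : ℕ → List Γ → S := fun k e => Lc ω e.prod (nn (vx e 0) * (tri (fun j => nn (vx e j)) Q *
    ((pg (fun j => nn (vx e (2 * j))) Q) ^ k * (pg (fun j => nn (vx e j)) (2 * Q)) ^ (m - 1 - k))))
    with hq
  have e1 : wsum B A Q (fun e => Lc ω e.prod (nn (vx e 0) * hmt m Q fun j => nn (vx e j))) =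
      ∑ k ∈ Finset.range m, wsum B A Q (q k) := by
    rw [← tF_A_finsum]
    refine wsum_congr B A Q fun e _ => ?_
    unfold hmt
    rw [Finset.mul_sum, Finset.mul_sum, map_sum]
  rw [e1]
  rcases Nat.eq_zero_or_pos m with h0 | hm
  · subst h0
    simp
  have hs : ∀ s : ℤ, ∑ k ∈ Finset.range m,
      (((m - 1).choose k : S) * wsum B A Q (q k)) * (s : S) ^ k = 0 := by
    intro s
    rw [← tF_A_s hω hm A B hAB hBA s Q hQ]
    have e2 : ∀ k, (((m - 1).choose k : S) * wsum B A Q (q k)) * (s : S) ^ k =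
        wsum B A Q (fun e => (((m - 1).choose k : S) * (s : S) ^ k) * q k e) := by
      intro k
      rw [wsum_smul]
      ring
    rw [Finset.sum_congr rfl (fun k _ => e2 k), ← tF_A_finsum]
    refine wsum_congr B A Q fun e he => ?_
    obtain ⟨K, _, f, L, deg, hS⟩ := exists_alt hω e.prod
    set N : ℕ → K := fun j => f (nn (vx e j)) with hN
    have anti : ∀ a b, N a * N b = - (N b * N a) := fun a b => hS.anti _ _
    have hc : Commute (pg (fun j => N (2 * j)) Q) (pg N (2 * Q)) := by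
      unfold pg
      refine Commute.sum_left _ _ _ fun a _ => Commute.sum_right _ _ _ fun b _ => ?_
      exact (tF_A_pair_comm N anti _ _ _).mul_right (tF_A_pair_comm N anti _ _ _)
    have hLk : ∀ k, q k e = L (N 0 * (tri N Q * ((pg (fun j => N (2 * j)) Q) ^ k *
        (pg N (2 * Q)) ^ (m - 1 - k)))) := by
      intro k
      show Lc ω e.prod _ = _
      rw [← hS.L_f, map_mul f, map_mul f, map_mul f, map_pow f, map_pow f, map_pg, map_pg,
        map_tri]
    rw [← hS.L_f, map_mul f, map_mul f, map_pow f, map_add f, map_zsmul f, map_pg, map_pg,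
      map_tri]
    show _ = L (N 0 * (tri N Q * (s • pg (fun j => N (2 * j)) Q + pg N (2 * Q)) ^ (m - 1)))
    rw [(hc.smul_left s).add_pow, Finset.mul_sum, Finset.mul_sum, map_sum,
      show m - 1 + 1 = m by omega]
    refine Finset.sum_congr rfl fun k _ => ?_
    have e3 : ∀ y : S, (((m - 1).choose k : S) * (s : S) ^ k) * y =
        (((m - 1).choose k : ℤ) * s ^ k) • y := by
      intro y
      rw [zsmul_eq_mul]
      push_cast
      ring
    rw [hLk k, e3, ← map_zsmul]
    congr 1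
    rw [smul_pow, smul_mul_assoc, smul_mul_assoc, mul_smul_comm, mul_smul_comm]
    rw [mul_comm (((m - 1).choose k : ℕ) : ℤ), mul_smul]
    congr 1
    rw [← nsmul_eq_mul', natCast_zsmul, mul_smul_comm, mul_smul_comm]
  have hz : ∀ k ∈ Finset.range m, wsum B A Q (q k) = 0 := by
    have h1 := reg_vandermonde hreg
      (fun k : Fin m => ((m - 1).choose (k : ℕ) : S) * wsum B A Q (q (k : ℕ))) (fun s => by
        have h2 := hs ((s : ℕ) : ℤ)
        rw [Finset.sum_range] at h2
        simpa using h2)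
    intro k hk
    rw [Finset.mem_range] at hk
    exact reg_choose hreg (by omega : m - 1 ≤ m) (by omega : k ≤ m - 1) _ (h1 ⟨k, hk⟩)
  exact Finset.sum_eq_zero hz

open Nat in
theorem tF_partB_word (hω : IsAlt (2 * (m + 1)) ω) (Q : ℕ) (hQ : 0 < Q) (e : List Γ)
    (he : e.length = 2 * Q) :
    Lc ω e.prod (exE m (2 * Q) fun j => nn (vx e j)) =
      (m ! : S) * Lc ω e.prod (zp 1 (Ty.E :: List.replicate (Q - 1) (Ty.X 0)) e) := by
  obtain ⟨q, rfl⟩ : ∃ q, Q = q + 1 := ⟨Q - 1, by omega⟩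
  obtain ⟨K, _, f, L, deg, hS⟩ := exists_alt hω e.prod
  set N : ℕ → K := fun j => f (nn (vx e j)) with hN
  have hanti : ∀ i j, N i * N j = - (N j * N i) := fun i j => hS.anti _ _
  have hsq0 : ∀ i, N i * N i = 0 := fun i => hS.sq _
  have hNdeg : ∀ i, N i ∈ deg 1 := fun i => hS.nn_deg _
  have hbdeg : ∀ j, partB_be N j ∈ deg 2 := fun j =>
    add_mem (hS.mul_deg 1 1 _ _ (hNdeg _) (hNdeg _)) (hS.mul_deg 1 1 _ _ (hNdeg _) (hNdeg _))
  have hleft : Lc ω e.prod (exE m (2 * (q + 1)) fun j => nn (vx e j)) =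
      (m ! : S) * L (N 0 * N 1 * prodTo (partB_be N) (q + 1)) := by
    rw [← hS.L_f, map_exE]
    have h1 : pg (fun j => f (nn (vx e j))) (2 * (q + 1)) =
        ∑ j ∈ Finset.range (q + 1), partB_be N j := by
      unfold pg
      rw [partB_sum_even]
      rfl
    unfold exE
    rw [h1]
    exact sq_pick L deg (2 * (m + 1)) hS.mul_deg hS.L_deg (partB_be N) hbdeg
      (partB_be_comm N hanti) (partB_be_sq N hanti hsq0) (q + 1) m 2 (N 0 * N 1)
      (hS.mul_deg 1 1 _ _ (hNdeg _) (hNdeg _)) (by ring)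
  rw [hleft]
  congr 1
  rw [← hS.L_f]
  congr 1
  rw [partB_prodTo_succ, ← mul_assoc, partB_first N hanti hsq0]
  rw [zp_eq _ _ (by rw [he]; simp), map_list_prod, List.map_map]
  have hlen : (Ty.E :: List.replicate (q + 1 - 1) (Ty.X 0)).length = q + 1 := by simp
  rw [hlen, List.range_succ_eq_map, List.map_cons, List.prod_cons, List.map_map]
  have h0 : (⇑f ∘ fun j => zz ((Ty.E :: List.replicate (q + 1 - 1) (Ty.X 0)).getD j Ty.E)
      (nn (vx e (2 * j))) (nn (vx e (2 * j + 1))) (nn (vx e (2 * j + 2)))) 0 = N 0 * N 1 := by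
    rw [Function.comp_apply, partB_zz]
    rfl
  rw [h0]
  congr 2
  refine List.map_congr_left fun j hj => ?_
  rw [List.mem_range] at hj
  rw [Function.comp_apply, Function.comp_apply, partB_zz]
  have h1 : (Ty.E :: List.replicate (q + 1 - 1) (Ty.X 0)).getD (j + 1) Ty.E = Ty.X 0 := by
    simp [hj]
  rw [Nat.succ_eq_add_one, h1]
  simp only [zz, zero_smul, zero_add]
  rfl

theorem tF_partB (hω : IsAlt (2 * (m + 1)) ω)
    (A B : Matrix (Fin n) (Fin n) (MonoidAlgebra S Γ)) (hAB : A * B = 1) (hBA : B * A = 1)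
    (Q : ℕ) (hQ : 0 < Q) :
    wsum B A Q (fun e => Lc ω e.prod (exE m (2 * Q) fun j => nn (vx e j))) =
      ((Q - 1).descFactorial m : S) * chern m A B ω := by
  have h1 : wsum B A Q (fun e => Lc ω e.prod (exE m (2 * Q) fun j => nn (vx e j))) =
      wsum B A Q (fun e => (m.factorial : S) *
        (LM ω (1 * pp ((Ty.E :: List.replicate (Q - 1) (Ty.X 0)).map yy) e))) := by
    refine wsum_congr B A Q fun e he => ?_
    have h2 : e.length = 2 * (Ty.E :: List.replicate (Q - 1) (Ty.X 0)).length := by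
      rw [he]
      simp only [List.length_cons, List.length_replicate]
      omega
    rw [tF_partB_word hω Q hQ e he, one_mul, (bridge (ω := ω) _ e h2).1]
  have hlen : ((Ty.E :: List.replicate (Q - 1) (Ty.X 0)).map (yy (Γ := Γ) (S := S))).length = Q := by
    simp only [List.length_map, List.length_cons, List.length_replicate]
    omega
  have h3 := wsum_pp A B (LM ω) (fun s x => lin_smul _ s x) 1 ((Ty.E :: List.replicate (Q - 1) (Ty.X 0)).map (yy (Γ := Γ)))
  rw [hlen] at h3
  rw [h1, wsum_smul, h3, one_mul, List.map_map, List.map_cons, List.prod_cons,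
    List.map_replicate, List.prod_replicate]
  simp only [Function.comp_apply]
  rw [tF_evB hω A B hAB hBA Q hQ, Nat.descFactorial_eq_factorial_mul_choose]
  push_cast
  ring


theorem tF_Lc_trans {r : ℕ} {ω : Γ → List Γ → S} (hω : IsAlt r ω) (x c : Γ)
    (z : MonoidAlgebra S (FreeMonoid Γ)) : Lc ω (x * c * x⁻¹) (MP_8f66f0_al_ChernS.trans x z) = Lc ω c z := by
  have h : (Lc ω (x * c * x⁻¹)).comp (MP_8f66f0_al_ChernS.trans x).toAddMonoidHom = Lc ω c := by
    refine MonoidAlgebra.addMonoidHom_ext fun w a => ?_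
    change Lc ω (x * c * x⁻¹) (MP_8f66f0_al_ChernS.trans x (MonoidAlgebra.single w a)) = _
    rw [vx_trans_single]
    unfold Lc
    rw [lin_single, lin_single, FreeMonoid.toList_map, hω.equivariant]
  rw [← h]
  rfl

/-- PROOF. Copy of `wsum_FF` (`MP_8f66f0_al_ChernS/Eval.lean`, `PartA`, `PartB`, `EvTr`); the
periodicity and the cocycle condition are not used there. -/
theorem wsum_exF (hω : IsAlt (2 * (m + 1)) ω) (hreg : Reg S m)
    (A B : Matrix (Fin n) (Fin n) (MonoidAlgebra S Γ)) (hAB : A * B = 1) (hBA : B * A = 1)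
    (Q : ℕ) (hQ : 0 < Q) :
    wsum B A Q (fun e => Lc ω e.prod (exF m Q fun j => nn (vx e j))) =
      ((Q - 1).descFactorial m : S) * chern m A B ω := by
  have h1 : wsum B A Q (fun e => Lc ω e.prod (exF m Q fun j => nn (vx e j))) =
      wsum B A Q (fun e => Lc ω e.prod (exE m (2 * Q) fun j => nn (vx e j))) +
      (wsum B A Q (fun e => Lc ω e.prod (nn (vx e 1) * hmt m Q fun j => nn (vx e (j + 1)))) +
      (-1) * wsum B A Q (fun e => Lc ω e.prod (nn (vx e 0) * hmt m Q fun j => nn (vx e j)))) := by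
    rw [← wsum_smul, ← wsum_add, ← wsum_add]
    congr 1
    funext e
    unfold exF
    rw [map_sub, map_add]
    ring
  have h2 : wsum B A Q (fun e => Lc ω e.prod (nn (vx e 1) * hmt m Q fun j => nn (vx e (j + 1)))) =
      0 := by
    rw [← tF_partA (ω := ω) hω hreg B A hBA hAB Q hQ, ← wsum_rotate_one B A Q
      (fun e => Lc ω e.prod (nn (vx e 0) * hmt m Q fun j => nn (vx e j)))]
    refine wsum_congr B A Q fun e he => ?_
    cases e with
    | nil =>
      simp only [List.length_nil] at he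
      omega
    | cons a e =>
      rw [prod_rotate_one]
      have h3 : (nn (vx (a :: e) 1) : MonoidAlgebra S (FreeMonoid Γ)) * (hmt m Q fun j => nn (vx (a :: e) (j + 1))) =
          MP_8f66f0_al_ChernS.trans a (nn (vx ((a :: e).rotate 1) 0) *
            hmt m Q fun j => nn (vx ((a :: e).rotate 1) j)) := by
        rw [map_mul, map_hmt, trans_nn]
        congr 2
        · rw [vx_rotate_one, mul_inv_cancel_left]
        · funext j
          rw [trans_nn, vx_rotate_one, mul_inv_cancel_left]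
      have h4 := tF_Lc_trans hω a (a⁻¹ * (a :: e).prod * a)
        (nn (vx ((a :: e).rotate 1) 0) * hmt m Q fun j => nn (vx ((a :: e).rotate 1) j))
      rw [← h4, ← h3]
      congr 2
      group
  rw [h1, h2, tF_partA hω hreg A B hAB hBA Q hQ, tF_partB hω A B hAB hBA Q hQ]
  ring

section tF_maps

variable {K K' : Type*} [Ring K] [Ring K']

lemma tF_map_hh (f : K →+* K') (k : ℕ) (x y : K) : f (hh k x y) = hh k (f x) (f y) := by
  unfold hh
  rw [map_sum]
  exact Finset.sum_congr rfl fun i _ => by rw [map_mul, map_pow, map_pow]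

lemma tF_map_Om (f : K →+* K') (Q : ℕ) (N : ℕ → K) : f (Om Q N) = Om Q (fun j => f (N j)) := by
  unfold Om ta ch
  rw [map_sum]
  refine Finset.sum_congr rfl fun t _ => ?_
  rw [map_sum]
  refine Finset.sum_congr rfl fun s _ => ?_
  rw [map_zsmul, map_mul, map_mul, map_mul, map_mul]

lemma tF_map_exV (f : K →+* K') (m Q : ℕ) (N : ℕ → K) :
    f (exV m Q N) = exV m Q (fun j => f (N j)) := by
  unfold exV
  rw [map_mul, map_sub, map_sub, map_mul, map_mul, map_sub, map_pow, map_pow, tF_map_Om, tF_map_hh,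
    map_pg, map_pg]

end tF_maps

/-- the rotated correction term -/
theorem tF_exV_shift (hω : IsAlt (2 * (m + 1)) ω) (hreg : Reg S m)
    (A B : Matrix (Fin n) (Fin n) (MonoidAlgebra S Γ)) (hAB : A * B = 1) (hBA : B * A = 1)
    (Q : ℕ) (hQ : 0 < Q) :
    wsum B A Q (fun e => Lc ω e.prod (exV m Q fun j => nn (vx e (j + 1)))) = 0 := by
  rw [← partV (ω := ω) hω hreg B A hBA hAB Q hQ, ← wsum_rotate_one B A Q
    (fun e => Lc ω e.prod (exV m Q fun j => nn (vx e j)))]
  refine wsum_congr B A Q fun e he => ?_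
  cases e with
  | nil =>
    simp only [List.length_nil] at he
    omega
  | cons a e =>
    rw [prod_rotate_one]
    have h3 : ((exV m Q fun j => nn (vx (a :: e) (j + 1))) : MonoidAlgebra S (FreeMonoid Γ)) =
        MP_8f66f0_al_ChernS.trans a (exV m Q fun j => nn (vx ((a :: e).rotate 1) j)) := by
      rw [tF_map_exV]
      congr 1
      funext j
      rw [trans_nn, vx_rotate_one, mul_inv_cancel_left]
    have h4 := tF_Lc_trans hω a (a⁻¹ * (a :: e).prod * a)
      (exV m Q fun j => nn (vx ((a :: e).rotate 1) j))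
    rw [← h4, ← h3]
    congr 2
    group

/-- PROOF. `exG = 2 exF + exV - exV (shifted)`; `partV` for `B A` and, after a rotation by one
letter (as in `wsum_FF`), for `A B`. -/
theorem wsum_exG (hω : IsAlt (2 * (m + 1)) ω) (hreg : Reg S m)
    (A B : Matrix (Fin n) (Fin n) (MonoidAlgebra S Γ)) (hAB : A * B = 1) (hBA : B * A = 1)
    (Q : ℕ) (hQ : 0 < Q) :
    wsum B A Q (fun e => Lc ω e.prod (exG m Q fun j => nn (vx e j))) =
      2 * ((Q - 1).descFactorial m : S) * chern m A B ω := by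
  have h1 : wsum B A Q (fun e => Lc ω e.prod (exG m Q fun j => nn (vx e j))) =
      2 * wsum B A Q (fun e => Lc ω e.prod (exF m Q fun j => nn (vx e j))) +
      (wsum B A Q (fun e => Lc ω e.prod (exV m Q fun j => nn (vx e j))) +
      (-1) * wsum B A Q (fun e => Lc ω e.prod (exV m Q fun j => nn (vx e (j + 1))))) := by
    rw [← wsum_smul, ← wsum_smul, ← wsum_add, ← wsum_add]
    congr 1
    funext e
    unfold exG
    rw [two_mul, map_add, map_add, map_sub]
    ring
  rw [h1, wsum_exF hω hreg A B hAB hBA Q hQ, partV hω hreg A B hAB hBA Q hQ,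
    tF_exV_shift hω hreg A B hAB hBA Q hQ]
  ring

section tF_deg

variable {Γ : Type*} {S : Type*} [CommRing S] {N : ℕ → MonoidAlgebra S (FreeMonoid Γ)}

lemma tF_one_mem : (1 : MonoidAlgebra S (FreeMonoid Γ)) ∈ syn_w S Γ 0 :=
  AddSubgroup.subset_closure ⟨1, 1, rfl, rfl⟩

lemma tF_pow_mem {a : ℕ} {x : MonoidAlgebra S (FreeMonoid Γ)} (hx : x ∈ syn_w S Γ a) (k : ℕ) :
    x ^ k ∈ syn_w S Γ (a * k) := by
  induction k with
  | zero => rw [pow_zero, Nat.mul_zero]; exact tF_one_mem
  | succ k ih => rw [pow_succ, Nat.mul_succ]; exact syn_w_mul ih hx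

lemma tF_mul_mem {a b c : ℕ} {x y : MonoidAlgebra S (FreeMonoid Γ)} (hx : x ∈ syn_w S Γ a)
    (hy : y ∈ syn_w S Γ b) (h : a + b = c) : x * y ∈ syn_w S Γ c := by
  subst h
  exact syn_w_mul hx hy

lemma tF_pg_mem (h : ∀ j, N j ∈ syn_w S Γ 1) (k : ℕ) : pg N k ∈ syn_w S Γ 2 :=
  sum_mem fun j _ => tF_mul_mem (h _) (h _) rfl

lemma tF_ta_mem (h : ∀ j, N j ∈ syn_w S Γ 1) (k : ℕ) :
    N (2 * k) * N (2 * k + 1) * N (2 * k + 2) ∈ syn_w S Γ 3 :=
  tF_mul_mem (tF_mul_mem (h _) (h _) rfl) (h _) rfl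

lemma tF_hh_mem {x y : MonoidAlgebra S (FreeMonoid Γ)} (hx : x ∈ syn_w S Γ 2)
    (hy : y ∈ syn_w S Γ 2) (k : ℕ) : hh (k + 1) x y ∈ syn_w S Γ (2 * k) := by
  refine sum_mem fun i hi => ?_
  rw [Finset.mem_range] at hi
  exact tF_mul_mem (tF_pow_mem hx i) (tF_pow_mem hy _) (by omega)

lemma tF_hmt_mem (h : ∀ j, N j ∈ syn_w S Γ 1) (m Q : ℕ) : hmt m Q N ∈ syn_w S Γ (2 * m + 1) := by
  unfold hmt
  rcases m with _ | m
  · rw [Finset.range_zero, Finset.sum_empty, mul_zero (tri N Q)]
    exact (syn_w S Γ _).zero_mem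
  · have h1 : ∑ k ∈ Finset.range (m + 1), (pg (fun j => N (2 * j)) Q) ^ k *
        (pg N (2 * Q)) ^ (m + 1 - 1 - k) ∈ syn_w S Γ (2 * m) := by
      refine AddSubgroup.sum_mem _ fun i hi => ?_
      rw [Finset.mem_range] at hi
      exact tF_mul_mem (tF_pow_mem (tF_pg_mem (fun j => h _) Q) i)
        (tF_pow_mem (tF_pg_mem h (2 * Q)) _) (by omega)
    have h2 : tri N Q ∈ syn_w S Γ 3 := AddSubgroup.sum_mem _ fun t _ => tF_ta_mem h t
    exact tF_mul_mem h2 h1 (by omega)

lemma tF_exF_mem (h : ∀ j, N j ∈ syn_w S Γ 1) (m Q : ℕ) : exF m Q N ∈ syn_w S Γ (2 * (m + 1)) := by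
  unfold exF exE
  refine sub_mem (add_mem ?_ ?_) ?_
  · exact tF_mul_mem (tF_mul_mem (h _) (h _) rfl) (tF_pow_mem (tF_pg_mem h _) m) (by omega)
  · exact tF_mul_mem (h _) (tF_hmt_mem (fun j => h (j + 1)) m Q) (by omega)
  · exact tF_mul_mem (h _) (tF_hmt_mem h m Q) (by omega)

lemma tF_Om_mem (h : ∀ j, N j ∈ syn_w S Γ 1) (Q : ℕ) : Om Q N ∈ syn_w S Γ 5 := by
  unfold Om ta ch
  exact sum_mem fun t _ => sum_mem fun s _ => zsmul_mem
    (tF_mul_mem (tF_ta_mem h t) (tF_mul_mem (h _) (h _) rfl) rfl) _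

lemma tF_exV_mem (h : ∀ j, N j ∈ syn_w S Γ 1) (m Q : ℕ) : exV m Q N ∈ syn_w S Γ (2 * (m + 1)) := by
  unfold exV
  refine tF_mul_mem (a := 1) (b := 2 * m + 1) (sub_mem (h _) (h _)) (sub_mem ?_ ?_) (by omega)
  · rcases m with _ | m
    · have e : hh (0 - 1) (pg (fun j => N (2 * j)) Q) (pg N (2 * Q)) = 0 := by
        unfold hh
        simp
      rw [e, mul_zero (Om Q N)]
      exact (syn_w S Γ _).zero_mem
    · rcases m with _ | m
      · have e : hh (0 + 1 - 1) (pg (fun j => N (2 * j)) Q) (pg N (2 * Q)) = 0 := by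
          unfold hh
          simp
        rw [e, mul_zero (Om Q N)]
        exact (syn_w S Γ _).zero_mem
      · exact tF_mul_mem (tF_Om_mem h Q)
          (tF_hh_mem (tF_pg_mem (fun j => h _) Q) (tF_pg_mem h (2 * Q)) m) (by omega)
  · exact tF_mul_mem (h _) (sub_mem (tF_pow_mem (tF_pg_mem h _) m)
      (tF_pow_mem (tF_pg_mem (fun j => h _) _) m)) (by omega)

lemma tF_exG_mem (h : ∀ j, N j ∈ syn_w S Γ 1) (m Q : ℕ) : exG m Q N ∈ syn_w S Γ (2 * (m + 1)) := by
  have e : exG m Q N = exF m Q N + exF m Q N + (exV m Q N - exV m Q fun j => N (j + 1)) := by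
    unfold exG
    rw [two_mul]
  rw [e]
  exact add_mem (add_mem (tF_exF_mem h m Q) (tF_exF_mem h m Q))
    (sub_mem (tF_exV_mem h m Q) (tF_exV_mem (fun j => h (j + 1)) m Q))

end tF_deg

lemma tF_nn_mem (a : Γ) : (nn a : MonoidAlgebra S (FreeMonoid Γ)) ∈ syn_w S Γ 1 :=
  AddSubgroup.subset_closure ⟨FreeMonoid.of a, 1, rfl, rfl⟩

lemma tF_Lc_comp (b : Γ → List Γ → S) (c : Γ) (r : ℕ) {x : MonoidAlgebra S (FreeMonoid Γ)}
    (hx : x ∈ syn_w S Γ r) : Lc b c x = Lc (comp r b) c x := by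
  unfold syn_w at hx
  refine AddSubgroup.closure_induction (p := fun x _ => Lc b c x = Lc (comp r b) c x)
    ?_ ?_ ?_ ?_ hx
  · rintro _ ⟨w, t, hw, rfl⟩
    unfold Lc comp
    rw [lin_single, lin_single, if_pos hw]
  · rw [map_zero, map_zero]
  · intro y z _ _ h1 h2
    rw [map_add, map_add, h1, h2]
  · intro y _ h1
    rw [map_neg, map_neg, h1]

lemma tF_comp {k : ℕ} {b : Γ → List Γ → S} (hb : IsMixed k b) (r : ℕ) : IsAlt r (comp r b) where
  len c u hu := if_neg hu
  equivariant x c u := by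
    unfold comp
    rw [List.length_map, hb.equivariant]
  alternating c u a a' v := by
    unfold comp
    rw [hb.alternating]
    have e : (u ++ a :: a' :: v).length = (u ++ a' :: a :: v).length := by simp
    rw [e]
    split_ifs
    · rfl
    · rw [neg_zero]
  diag c u a v := by
    unfold comp
    rw [hb.diag, ite_self]

/-- PROOF. `exG m` is a combination of words of length `2 (m + 1)` so only `comp (2 (m + 1)) b` counts. -/
theorem wsum_FM {k : ℕ} {b : Γ → List Γ → ℤ} (hb : IsMixed k b)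
    (A B : Matrix (Fin n) (Fin n) (MonoidAlgebra ℤ Γ)) (hAB : A * B = 1) (hBA : B * A = 1)
    (Q : ℕ) (hQ : 0 < Q) :
    wsum B A Q (FM k b Q) =
      2 * ∑ m ∈ Finset.range k, GG k m * ((Q - 1).descFactorial m : ℤ) * chern m A B b := by
  have h1 : wsum B A Q (FM k b Q) = ∑ m ∈ Finset.range k, GG k m *
      wsum B A Q (fun e => Lc (comp (2 * (m + 1)) b) e.prod (exG m Q fun j => nn (vx e j))) := by
    have h2 : ∀ m : ℕ, GG k m * wsum B A Q
        (fun e => Lc (comp (2 * (m + 1)) b) e.prod (exG m Q fun j => nn (vx e j))) =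
        wsum B A Q (fun e => GG k m * Lc b e.prod (exG m Q fun j => nn (vx e j))) := by
      intro m
      rw [← wsum_smul]
      congr 1
      funext e
      rw [tF_Lc_comp b e.prod (2 * (m + 1)) (tF_exG_mem (fun j => tF_nn_mem (vx e j)) m Q)]
    rw [Finset.sum_congr rfl fun m _ => h2 m, ← tF_A_finsum]
    rfl
  rw [h1, Finset.mul_sum]
  refine Finset.sum_congr rfl fun m _ => ?_
  rw [wsum_exG (tF_comp hb _) (reg_int m) A B hAB hBA Q hQ]
  have h3 : chern m A B (comp (2 * (m + 1)) b) = chern m A B b := by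
    refine wsum_congr B A (m + 1) fun w hw => ?_
    unfold comp
    rw [if_pos]
    unfold verts
    rw [List.length_map, List.length_range, hw]
  rw [h3]
  ring

end Pool.Agent.Lib.MP_8f66f0_al_Mixed
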