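import Mathlib
import Pool.Agent.Lib.MP_8f66f0_al_ChernS.Split
import Pool.Agent.Lib.MP_8f66f0_al_Dennis.ClassDefs
import Pool.Agent.Lib.MP_8f66f0_al_Mixed.MixCore
import Pool.Agent.Lib.MP_8f66f0_al_Mixed.RootB
import Pool.Agent.Lib.MP_8f66f0_al_Mixed.RootC
import Pool.Agent.Lib.MP_8f66f0_al_Mixed.TF

/-! # The main theorem. -/

set_option autoImplicit false
set_option linter.unusedSectionVars false
set_option linter.unusedVariables false

namespace Pool.Agent.Lib.MP_8f66f0_al_Mixed

open Pool.Agent.Lib.MP_8f66f0_al_FinQ Pool.Agent.Lib.MP_8f66f0_al_Uni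
  Pool.Agent.Lib.MP_8f66f0_al_ChernS Pool.Agent.Lib.MP_8f66f0_al_Dennis

variable {Γ : Type*} [Group Γ] {n k : ℕ}

lemma final_desc (N m : ℕ) :
    ((N.descFactorial (m + 1) : ℕ) : ℤ) = ((N : ℤ) - m) * (N.descFactorial m : ℕ) := by
  rw [Nat.descFactorial_succ]
  rcases Nat.lt_or_ge N m with h | h
  · rw [Nat.descFactorial_eq_zero_iff_lt.2 h]
    simp
  · push_cast [Nat.cast_sub h]
    ring

lemma final_desc_mod (q : ℤ) (N : ℕ) (hN : q ∣ (N : ℤ) + 1) (m : ℕ) :
    q ∣ ((N.descFactorial m : ℕ) : ℤ) - (-1) ^ m * (m.factorial : ℤ) := by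
  induction m with
  | zero => simp
  | succ m ih =>
    rw [final_desc, Nat.factorial_succ]
    push_cast
    have h1 : ((N : ℤ) - m) * (N.descFactorial m : ℕ) - (-1) ^ (m + 1) * (((m : ℤ) + 1) *
        (m.factorial : ℤ)) = ((N : ℤ) + 1) * (N.descFactorial m : ℕ) +
        (-((m : ℤ) + 1)) * ((N.descFactorial m : ℕ) - (-1) ^ m * (m.factorial : ℤ)) := by
      ring
    rw [h1]
    exact dvd_add (hN.mul_right _) (ih.mul_left _)

lemma final_Lc_zero (ω : Γ → List Γ → ℤ) (c : Γ) (h : ∀ u, ω c u = 0)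
    (x : MonoidAlgebra ℤ (FreeMonoid Γ)) : Lc ω c x = 0 := by
  unfold Lc
  rw [lin_apply]
  refine Finset.sum_eq_zero fun w _ => ?_
  beta_reduce
  rw [h, mul_zero]

lemma final_lift_nil (k p : ℕ) (b : Γ → List Γ → ℤ) (c : Γ) : (p : ℤ) ^ k ∣ lift k p b c [] := by
  unfold lift
  split_ifs with h
  · have h1 : k - ([] : List Γ).length / 2 = k := by simp
    rw [h1]
    exact Dvd.intro _ rfl
  · exact dvd_zero _

lemma final_lift_chern (A B : Matrix (Fin n) (Fin n) (MonoidAlgebra ℤ Γ)) (b : Γ → List Γ → ℤ)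
    {p m : ℕ} (hm : m < k) (T : Set Γ)
    (hB : ∀ i j g, (B i j).coeff g ≠ 0 → g ∈ T) (hA : ∀ i j g, (A i j).coeff g ≠ 0 → g ∈ T)
    (hT : ∀ w : List Γ, w.length ≤ 2 * k → (∀ g ∈ w, g ∈ T) → ∀ v : Γ, v ^ p = w.prod →
      ∀ u, b v u = 0) : chern m A B (lift k p b) = 0 := by
  unfold chern
  refine wsum_eq_zero_of_support B A (m + 1) T hB hA fun w hw hwT => ?_
  show lift k p b w.prod (verts w) = 0
  unfold lift
  split_ifs with h
  · rw [hT w (by omega) hwT _ h.choose_spec, mul_zero]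
  · rfl

/-- One prime. PROOF. `b'' = lift k p b`, `ε = epsM k b''`, `F = FM k b'' (p^k)`, `coreM`. P1 by `epsM_sum`, as
`b'' c [] = p^k b (root) []`; P2 by `FM_diff`; `ε (1,..,1) = 0` as `b'' 1 = 0`. `wsum B A (p^k) F = 0` by `wsum_FM`, because
`chern m A B b'' = 0` for `m < k` by `hT` (`wsum_eq_zero_of_support`). By `FM_repeat` and `wsum_FM` the other sum is
`p^(k-1) * 2 Σ GG k m (p^(k-1) - 1)_m chern m A B b`, and `(p^(k-1) - 1)_m ≡ (-1)^m m! mod p` for `m < k` (for `k = 1` only `m = 0`). -/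
theorem prime_dvd (A B : Matrix (Fin n) (Fin n) (MonoidAlgebra ℤ Γ)) (hAB : A * B = 1)
    (hBA : B * A = 1) (hk : 0 < k) {b : Γ → List Γ → ℤ} (hb : IsMixed k b)
    (hb1 : ∀ u, b 1 u = 0) {p : ℕ} (hp : p.Prime) (hodd : Odd p)
    (hroot : ∀ x y : Γ, x ^ p = y ^ p → x = y) (T : Set Γ)
    (hB : ∀ i j g, (B i j).coeff g ≠ 0 → g ∈ T) (hA : ∀ i j g, (A i j).coeff g ≠ 0 → g ∈ T)
    (hT : ∀ w : List Γ, w.length ≤ 2 * k → (∀ g ∈ w, g ∈ T) → ∀ v : Γ, v ^ p = w.prod →
      ∀ u, b v u = 0) :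
    (p : ℤ) ∣ 2 * mixedChern k A B b := by
  have hpk : 0 < p ^ k := pow_pos hp.pos k
  have hpk1 : 0 < p ^ (k - 1) := pow_pos hp.pos _
  have hpp : p * p ^ (k - 1) = p ^ k := by
    rw [← pow_succ', Nat.sub_add_cancel hk]
  have hb'' : IsMixed k (lift k p b) := lift_mixed hp.pos hroot hb
  have hlift1 : ∀ u, lift k p b 1 u = 0 := by
    intro u
    have h1 := lift_pow (k := k) (b := b) hroot (1 : Γ) u
    rw [one_pow] at h1
    rw [h1, hb1, mul_zero]
  have P1 : ∀ x : List Γ, x.length = p ^ k →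
      ((p : ℤ) ^ k) ∣ ∑ t ∈ Finset.range (p ^ k), epsM k (lift k p b) (x.rotate t) := by
    intro x hx
    have hx0 : x ≠ [] := by
      rintro rfl
      rw [List.length_nil] at hx
      omega
    have h1 := epsM_sum hb'' hk x hx0
    rw [hx] at h1
    rw [h1]
    exact ((final_lift_nil k p b _).mul_left _).mul_left _
  have P2 : ∀ e : List Γ, e.length = 2 * p ^ k →
      FM k (lift k p b) (p ^ k) (e.rotate 2) - FM k (lift k p b) (p ^ k) e =
        epsM k (lift k p b) (d0 (e.rotate 1)) - epsM k (lift k p b) (d0 e) :=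
    fun e he => FM_diff hb'' (p ^ k) hpk e he
  have h1 : epsM k (lift k p b) (List.replicate (p ^ k) 1) = 0 := by
    unfold epsM
    rw [List.prod_replicate, one_pow, Finset.sum_eq_zero, mul_zero]
    intro m _
    rw [final_Lc_zero _ _ hlift1, mul_zero]
  have key := coreM A B hAB hBA p k hp hodd hk _ _ P1 P2 h1
  have h2 : wsum B A (p ^ k) (FM k (lift k p b) (p ^ k)) = 0 := by
    rw [wsum_FM hb'' A B hAB hBA (p ^ k) hpk, Finset.sum_eq_zero, mul_zero]
    intro m hm
    rw [final_lift_chern A B b (Finset.mem_range.1 hm) T hB hA hT, mul_zero]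
  have h3 : wsum B A (p ^ (k - 1)) (fun f => FM k (lift k p b) (p ^ k) (List.replicate p f).flatten) =
      (p : ℤ) ^ (k - 1) * (2 * ∑ m ∈ Finset.range k,
        GG k m * ((p ^ (k - 1) - 1).descFactorial m : ℤ) * chern m A B b) := by
    rw [← wsum_FM hb A B hAB hBA (p ^ (k - 1)) hpk1, ← wsum_smul]
    refine wsum_congr B A _ fun w hw => ?_
    rw [← hpp]
    exact FM_repeat hp.pos hroot hb (p ^ (k - 1)) hpk1 w hw
  rw [h2, h3, zero_sub, dvd_neg] at key
  have hpz : (p : ℤ) ≠ 0 := by exact_mod_cast hp.ne_zero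
  have h4 : (p : ℤ) ∣ 2 * ∑ m ∈ Finset.range k,
      GG k m * ((p ^ (k - 1) - 1).descFactorial m : ℤ) * chern m A B b := by
    have h5 : (p : ℤ) ^ k = (p : ℤ) ^ (k - 1) * p := by
      rw [← pow_succ, Nat.sub_add_cancel hk]
    rw [h5] at key
    exact (mul_dvd_mul_iff_left (pow_ne_zero _ hpz)).1 key
  have h6 : (p : ℤ) ∣ 2 * (∑ m ∈ Finset.range k,
      GG k m * ((p ^ (k - 1) - 1).descFactorial m : ℤ) * chern m A B b) +
      2 * mixedChern k A B b := by
    rw [← mul_add]
    refine Dvd.dvd.mul_left ?_ 2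
    unfold mixedChern
    rw [← Finset.sum_add_distrib]
    refine Finset.dvd_sum fun m hm => ?_
    have hm' := Finset.mem_range.1 hm
    have h7 : (p : ℤ) ∣ (((p ^ (k - 1) - 1).descFactorial m : ℕ) : ℤ) -
        (-1) ^ m * (m.factorial : ℤ) := by
      rcases Nat.eq_or_lt_of_le (Nat.succ_le_of_lt hk) with h8 | h8
      · have hm0 : m = 0 := by omega
        subst hm0
        simp
      · refine final_desc_mod _ _ ?_ m
        have h9 : ((p ^ (k - 1) - 1 : ℕ) : ℤ) + 1 = (p : ℤ) ^ (k - 1) := by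
          rw [Nat.cast_sub hpk1]
          push_cast
          ring
        rw [h9]
        exact dvd_pow_self _ (by omega)
    have h10 : GG k m * ((p ^ (k - 1) - 1).descFactorial m : ℤ) * chern m A B b +
        (m.factorial : ℤ) * (∏ j ∈ Finset.Ico (m + 1) k, (2 * (j : ℤ) + 1)) * chern m A B b =
        ((((p ^ (k - 1) - 1).descFactorial m : ℕ) : ℤ) - (-1) ^ m * (m.factorial : ℤ)) *
          (GG k m * chern m A B b) := by
      unfold GG
      have h11 : ((-1 : ℤ) ^ m) * (-1) ^ (m + 1) = -1 := by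
        rw [← pow_add]
        exact Odd.neg_one_pow ⟨m, by ring⟩
      linear_combination ((m.factorial : ℤ) *
        (∏ j ∈ Finset.Ico (m + 1) k, (2 * (j : ℤ) + 1)) * chern m A B b) * h11
    rw [h10]
    exact h7.mul_right _
  exact (dvd_add_right h4).1 h6

/-- Restriction of a mixed cocycle to a conjugacy class. -/
theorem final_cls {b : Γ → List Γ → ℤ} (hb : IsMixed k b) (c0 : Γ) : IsMixed k (clsR c0 b) where
  len c u hu := by
    unfold clsR
    split_ifs
    · exact hb.len c u hu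
    · rfl
  odd c u hu := by
    unfold clsR
    split_ifs
    · exact hb.odd c u hu
    · rfl
  equivariant x c u := by
    have h1 : IsConj c0 (x * c * x⁻¹) ↔ IsConj c0 c := by
      have h2 : IsConj c (x * c * x⁻¹) := isConj_iff.2 ⟨x, rfl⟩
      exact ⟨fun h => h.trans h2.symm, fun h => h.trans h2⟩
    unfold clsR
    by_cases h : IsConj c0 c
    · rw [if_pos (h1.2 h), if_pos h, hb.equivariant]
    · rw [if_neg (fun h2 => h (h1.1 h2)), if_neg h]
  alternating c u a a' v := by
    unfold clsR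
    split_ifs
    · exact hb.alternating c u a a' v
    · rw [neg_zero]
  diag c u a v := by
    unfold clsR
    split_ifs
    · exact hb.diag c u a v
    · rfl
  mixed c a u := by
    unfold clsR
    split_ifs
    · exact hb.mixed c a u
    · simp

/-- It is enough to consider the restrictions to the conjugacy classes. -/
theorem final_split (A B : Matrix (Fin n) (Fin n) (MonoidAlgebra ℤ Γ)) (b : Γ → List Γ → ℤ)
    (h : ∀ c0 : Γ, mixedChern k A B (clsR c0 b) = 0) : mixedChern k A B b = 0 := by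
  classical
  set X : ℕ → MonoidAlgebra ℤ (FreeMonoid Γ) :=
    fun m => Matrix.trace ((letM B * letM A) ^ (m + 1)) with hX
  set C : Finset (ConjClasses Γ) := (Finset.range k).biUnion fun m =>
    (X m).coeff.support.image fun w : FreeMonoid Γ => ConjClasses.mk w.toList.prod with hC
  have h1 : ∀ m ∈ Finset.range k, chern m A B b =
      ∑ c ∈ C, chern m A B (clsR (Quotient.out c) b) := by
    intro m hm
    have h2 : chern m A B b = ∑ w ∈ (X m).coeff.support,
      (X m).coeff w * b w.toList.prod (verts w.toList) := rfl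
    rw [h2, ← Finset.sum_fiberwise_of_maps_to (t := C)
      (g := fun w : FreeMonoid Γ => ConjClasses.mk w.toList.prod)
      (fun w hw => Finset.mem_biUnion.2 ⟨m, hm, Finset.mem_image_of_mem
        (fun w : FreeMonoid Γ => ConjClasses.mk w.toList.prod) hw⟩)]
    refine Finset.sum_congr rfl fun c _ => ?_
    have h3 : chern m A B (clsR (Quotient.out c) b) = ∑ w ∈ (X m).coeff.support,
      (X m).coeff w * clsR (Quotient.out c) b w.toList.prod (verts w.toList) := rfl
    rw [h3, Finset.sum_filter]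
    refine Finset.sum_congr rfl fun w _ => ?_
    unfold clsR
    have h4 : ConjClasses.mk (Quotient.out c) = c := Quotient.out_eq c
    have h5 : ConjClasses.mk w.toList.prod = c ↔ IsConj (Quotient.out c) w.toList.prod := by
      rw [← ConjClasses.mk_eq_mk_iff_isConj, h4]
      exact eq_comm
    by_cases h6 : IsConj (Quotient.out c) w.toList.prod
    · rw [if_pos (h5.2 h6), if_pos h6]
    · rw [if_neg (fun h7 => h6 (h5.1 h7)), if_neg h6, mul_zero]
  unfold mixedChern at h ⊢
  have h8 : ∀ m ∈ Finset.range k, (m.factorial : ℤ) *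
      (∏ j ∈ Finset.Ico (m + 1) k, (2 * (j : ℤ) + 1)) * chern m A B b =
      ∑ c ∈ C, (m.factorial : ℤ) * (∏ j ∈ Finset.Ico (m + 1) k, (2 * (j : ℤ) + 1)) *
        chern m A B (clsR (Quotient.out c) b) := by
    intro m hm
    rw [h1 m hm, Finset.mul_sum]
  rw [Finset.sum_congr rfl h8, Finset.sum_comm]
  exact Finset.sum_eq_zero fun c _ => h _

/-- The main theorem. PROOF. It is enough to take `b` supported on one conjugacy class `v ≠ 1` (`Split.lean`,
only finitely many classes contain products of at most `2k` letters from the supports). For all large primes `p` the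
roots are unique and no such product is conjugate to `v^p`; so `prime_dvd` gives `p ∣ 2 mixedChern` for all large `p`. -/
theorem mixed_zero (hΓ : PowerSeparated Γ) (A B : Matrix (Fin n) (Fin n) (MonoidAlgebra ℤ Γ))
    (hAB : A * B = 1) (hBA : B * A = 1) {b : Γ → List Γ → ℤ} (hb : IsMixed k b)
    (hb1 : ∀ u, b 1 u = 0) : mixedChern k A B b = 0 := by
  rcases Nat.eq_zero_or_pos k with hk0 | hk
  · subst hk0
    unfold mixedChern
    simp
  refine final_split A B b fun c0 => ?_
  by_cases hc0 : c0 = 1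
  · unfold mixedChern
    refine Finset.sum_eq_zero fun m _ => ?_
    have h0 : chern m A B (clsR c0 b) = 0 := by
      unfold chern
      refine wsum_eq_zero_of_support B A (m + 1) Set.univ (fun _ _ _ _ => Set.mem_univ _)
        (fun _ _ _ _ => Set.mem_univ _) fun w _ _ => ?_
      show clsR c0 b w.prod (verts w) = 0
      unfold clsR
      split_ifs with h
      · rw [hc0, isConj_one_right] at h
        rw [h, hb1]
      · rfl
    rw [h0, mul_zero]
  classical
  obtain ⟨N, hN⟩ := hΓ.roots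
  let T : Finset Γ := (Finset.univ.biUnion fun i => Finset.univ.biUnion fun j =>
    (A i j).coeff.support) ∪ (Finset.univ.biUnion fun i => Finset.univ.biUnion fun j =>
    (B i j).coeff.support)
  have hTA : ∀ i j g, (A i j).coeff g ≠ 0 → g ∈ (T : Set Γ) := fun i j g hg =>
    Finset.mem_coe.2 (Finset.mem_union_left _ (Finset.mem_biUnion.2 ⟨i, Finset.mem_univ _,
      Finset.mem_biUnion.2 ⟨j, Finset.mem_univ _, Finsupp.mem_support_iff.2 hg⟩⟩))
  have hTB : ∀ i j g, (B i j).coeff g ≠ 0 → g ∈ (T : Set Γ) := fun i j g hg =>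
    Finset.mem_coe.2 (Finset.mem_union_right _ (Finset.mem_biUnion.2 ⟨i, Finset.mem_univ _,
      Finset.mem_biUnion.2 ⟨j, Finset.mem_univ _, Finsupp.mem_support_iff.2 hg⟩⟩))
  have hW : {w : List Γ | w.length ≤ 2 * k ∧ ∀ g ∈ w, g ∈ (T : Set Γ)}.Finite := by
    have h1 : {w : List T | w.length ≤ 2 * k}.Finite := List.finite_length_le T (2 * k)
    refine (h1.image (List.map Subtype.val)).subset ?_
    rintro w ⟨hw, hwT⟩
    refine ⟨w.attach.map fun x => ⟨x.1, hwT x.1 x.2⟩, ?_, ?_⟩
    · show (w.attach.map _).length ≤ 2 * k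
      rw [List.length_map, List.length_attach]
      exact hw
    · rw [List.map_map]
      exact List.attach_map_subtype_val w
  have hbad : (⋃ w ∈ {w : List Γ | w.length ≤ 2 * k ∧ ∀ g ∈ w, g ∈ (T : Set Γ)},
      {p : ℕ | p.Prime ∧ IsConj w.prod (c0 ^ p)}).Finite :=
    hW.biUnion fun w _ => hΓ.conj w.prod c0 hc0
  obtain ⟨M, hM⟩ := hbad.bddAbove
  obtain ⟨p, hpL, hp⟩ := Nat.exists_infinite_primes
    (N + M + (2 * mixedChern k A B (clsR c0 b)).natAbs + 3)
  have hodd : Odd p := hp.odd_of_ne_two (by omega)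
  have hdvd : (p : ℤ) ∣ 2 * mixedChern k A B (clsR c0 b) := by
    refine prime_dvd A B hAB hBA hk (final_cls hb c0) ?_ hp hodd (hN p hp (by omega)) (T : Set Γ)
      hTB hTA ?_
    · intro u
      unfold clsR
      split_ifs
      · exact hb1 u
      · rfl
    · intro w hw hwT v hv u
      unfold clsR
      split_ifs with hcv
      · exfalso
        have h1 : p ∈ ⋃ w ∈ {w : List Γ | w.length ≤ 2 * k ∧ ∀ g ∈ w, g ∈ (T : Set Γ)},
            {p : ℕ | p.Prime ∧ IsConj w.prod (c0 ^ p)} := by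
          refine Set.mem_biUnion (show w ∈ {w : List Γ | w.length ≤ 2 * k ∧
            ∀ g ∈ w, g ∈ (T : Set Γ)} from ⟨hw, hwT⟩) ⟨hp, ?_⟩
          rw [← hv]
          exact (hcv.pow p).symm
        have h2 := hM h1
        omega
      · rfl
  have h0 : 2 * mixedChern k A B (clsR c0 b) = 0 := by
    refine Int.eq_zero_of_abs_lt_dvd hdvd ?_
    rw [Int.abs_eq_natAbs]
    exact_mod_cast (by omega : (2 * mixedChern k A B (clsR c0 b)).natAbs < p)
  omega

end Pool.Agent.Lib.MP_8f66f0_al_Mixed
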