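import Mathlib
import Pool.Agent.Lib.MP_8f66f0_al_ChernS.Main
import Pool.Agent.Lib.MP_8f66f0_al_Dennis.Separated
import Pool.Agent.Lib.MP_8f66f0_al_Mixed.Final

/-! # The negative cyclic Chern character is that of a group element. -/

set_option autoImplicit false
set_option linter.unusedSectionVars false
set_option linter.unusedVariables false

namespace Pool.Agent.Lib.MP_8f66f0_al_Mixed

open Pool.Agent.Lib.MP_8f66f0_al_FinQ Pool.Agent.Lib.MP_8f66f0_al_Uni
  Pool.Agent.Lib.MP_8f66f0_al_ChernS Pool.Agent.Lib.MP_8f66f0_al_Dennis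

universe u v

section restrict

variable {Γ : Type*} [Group Γ] {S : Type*} [CommRing S] {k : ℕ} {b : Γ → List Γ → S}

theorem resH_mixed (hb : IsMixed k b) (H : Subgroup Γ) : IsMixed k (resH H b) where
  len c u hu := hb.len _ _ (by rwa [List.length_map])
  odd c u hu := hb.odd _ _ (by rwa [List.length_map])
  equivariant x c u := by
    have h1 : (u.map (x * ·)).map Subtype.val = (u.map Subtype.val).map ((x : Γ) * ·) := by
      rw [List.map_map, List.map_map]
      rfl
    unfold resH
    rw [h1]
    exact hb.equivariant (x : Γ) (c : Γ) (u.map Subtype.val)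
  alternating c u a a' v := by
    unfold resH
    rw [List.map_append, List.map_cons, List.map_cons, List.map_append, List.map_cons,
      List.map_cons]
    exact hb.alternating (c : Γ) (u.map Subtype.val) (a : Γ) (a' : Γ) (v.map Subtype.val)
  diag c u a v := by
    unfold resH
    rw [List.map_append, List.map_cons, List.map_cons]
    exact hb.diag (c : Γ) (u.map Subtype.val) (a : Γ) (v.map Subtype.val)
  mixed c a u := by
    have h := hb.mixed (c : Γ) (a : Γ) (u.map Subtype.val)
    rw [List.length_map] at h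
    unfold resH
    rw [List.map_cons, List.map_cons]
    refine h.trans ?_
    congr 1
    refine Finset.sum_congr rfl fun i _ => ?_
    rw [split_map_eraseIdx]

/-- The restriction to a set of conjugacy classes. -/
theorem mixed_of_classes (hb : IsMixed k b) (P : Γ → Prop) [DecidablePred P]
    (hP : ∀ x c : Γ, P (x * c * x⁻¹) ↔ P c) : IsMixed k (fun c u => if P c then b c u else 0) where
  len c u hu := by
    rw [hb.len c u hu, ite_self]
  odd c u hu := by
    rw [hb.odd c u hu, ite_self]
  equivariant x c u := by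
    rw [hb.equivariant]
    simp only [hP]
  alternating c u a a' v := by
    split_ifs
    · exact hb.alternating c u a a' v
    · rw [neg_zero]
  diag c u a v := by
    rw [hb.diag, ite_self]
  mixed c a u := by
    split_ifs
    · exact hb.mixed c a u
    · simp

end restrict

section chern

variable {Γ : Type u} [Group Γ] {n k : ℕ}

lemma top_verts_length (w : List Γ) : (verts w).length = w.length := by
  unfold verts
  rw [List.length_map, List.length_range]

lemma mixedChern_add (A B : Matrix (Fin n) (Fin n) (MonoidAlgebra ℤ Γ)) (b b' : Γ → List Γ → ℤ) :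
    mixedChern k A B (fun c u => b c u + b' c u) = mixedChern k A B b + mixedChern k A B b' := by
  unfold mixedChern
  rw [← Finset.sum_add_distrib]
  refine Finset.sum_congr rfl fun m _ => ?_
  rw [← mul_add]
  congr 1
  exact wsum_add B A (m + 1) (fun w => b w.prod (verts w)) (fun w => b' w.prod (verts w))

/-- The component at `c = 1` in the degrees `m > 0`. -/
lemma top_one (htf : ∀ g : Γ, ∀ l : ℕ, 0 < l → g ^ l = 1 → g = 1)
    (A B : Matrix (Fin n) (Fin n) (MonoidAlgebra ℤ Γ)) (hAB : A * B = 1)
    (hBA : B * A = 1) {b : Γ → List Γ → ℤ} (hb : IsMixed k b)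
    (hb1 : ∀ c u, c ≠ 1 → b c u = 0) (m : ℕ) (hm : 0 < m) : chern m A B b = 0 := by
  have h0 : IsCyclicCocycle (2 * (m + 1)) (comp (2 * (m + 1)) b) :=
    { len := fun c u hu => by
        unfold comp
        rw [if_neg hu]
      equivariant := fun x c u => by
        unfold comp
        rw [List.length_map, hb.equivariant]
      periodic := fun c u a v => by
        unfold comp
        by_cases hc : c = 1
        · rw [hc, one_mul]
        · rw [hb1 c _ hc, hb1 c _ hc, ite_self, ite_self]
      alternating := fun c u a a' v => by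
        unfold comp
        rw [hb.alternating]
        simp only [List.length_append, List.length_cons]
        split_ifs <;> simp
      diag := fun c u a v => by
        unfold comp
        rw [hb.diag, ite_self]
      cocycle := fun c u => by
        by_cases hu : u.length = 2 * (m + 1) + 1
        · have h1 : ∀ i ∈ Finset.range u.length, (-1 : ℤ) ^ i • comp (2 * (m + 1)) b c (u.eraseIdx i) =
              (-1) ^ i * b c (u.eraseIdx i) := by
            intro i hi
            rw [Finset.mem_range] at hi
            unfold comp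
            rw [if_pos (by rw [List.length_eraseIdx, if_pos hi, hu]; rfl), smul_eq_mul]
          rw [Finset.sum_congr rfl h1]
          by_cases hc : c = 1
          · have h2 := hb.mixed c 1 u
            rw [hc, one_mul] at h2
            rw [hc]
            linarith
          · refine Finset.sum_eq_zero fun i _ => ?_
            rw [hb1 c _ hc, mul_zero]
        · refine Finset.sum_eq_zero fun i hi => ?_
          rw [Finset.mem_range] at hi
          unfold comp
          rw [if_neg, smul_zero]
          rw [List.length_eraseIdx, if_pos hi]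
          omega }
  have h1 : chern m A B b = chern m A B (comp (2 * (m + 1)) b) := by
    unfold chern
    refine wsum_congr B A (m + 1) fun w hw => ?_
    unfold comp
    rw [if_pos (by rw [top_verts_length, hw])]
  rw [h1, chern_int]
  exact main_int htf A B hAB hBA h0 fun c u hcu => by
    left
    refine ⟨?_, hm⟩
    by_contra hc
    refine hcu ?_
    unfold comp
    rw [hb1 c u hc, ite_self]

lemma top_value {α : Type*} (s : Finset α) (a : α → ℤ) (g : α → Γ) :
    ∃ γ : Γ, ∀ φ : Γ → ℤ, (∀ x y, φ (x * y) = φ x + φ y) → ∑ w ∈ s, a w * φ (g w) = φ γ := by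
  classical
  have hone : ∀ φ : Γ → ℤ, (∀ x y, φ (x * y) = φ x + φ y) → φ 1 = 0 := by
    intro φ hφ
    have h := hφ 1 1
    rw [mul_one] at h
    linarith
  induction s using Finset.induction_on with
  | empty =>
    refine ⟨1, fun φ hφ => ?_⟩
    rw [Finset.sum_empty, hone φ hφ]
  | insert x s hx ih =>
    obtain ⟨γ, hγ⟩ := ih
    refine ⟨g x ^ a x * γ, fun φ hφ => ?_⟩
    rw [Finset.sum_insert hx, hγ φ hφ, hφ]
    congr 1
    have h1 := map_zpow (⟨⟨fun x => Multiplicative.ofAdd (φ x), by rw [hone φ hφ]; rfl⟩,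
      fun x y => by
        show Multiplicative.ofAdd (φ (x * y)) = _
        rw [hφ]
        rfl⟩ : Γ →* Multiplicative ℤ) (g x) (a x)
    have h2 : φ (g x ^ a x) = a x • φ (g x) := h1
    rw [h2, smul_eq_mul]

/-- The component at `c = 1` in degree `0`. -/
lemma top_zero (A B : Matrix (Fin n) (Fin n) (MonoidAlgebra ℤ Γ)) :
    ∃ γ : Γ, ∀ (k : ℕ) (b : Γ → List Γ → ℤ), IsMixed k b → (∀ c u, c ≠ 1 → b c u = 0) →
      chern 0 A B b = b 1 [1, γ⁻¹] := by
  classical
  set X := Matrix.trace ((letM B * letM A) ^ (0 + 1)) with hX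
  obtain ⟨γ, hγ⟩ := top_value X.coeff.support (fun w => if w.toList.prod = 1 then X.coeff w else 0)
    (fun w => (w.toList.take 1).prod)
  refine ⟨γ⁻¹, fun k b hb hb1 => ?_⟩
  have hφ : ∀ x y : Γ, b 1 [1, x * y] = b 1 [1, x] + b 1 [1, y] := by
    intro x y
    have h1 := hb.mixed 1 1 [1, x, x * y]
    rw [one_mul] at h1
    simp only [List.length_cons, List.length_nil, Finset.sum_range_succ, Finset.sum_range_zero,
      List.eraseIdx_zero, List.tail_cons, List.eraseIdx_cons_succ] at h1
    have h2 := hb.equivariant x 1 [1, y]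
    rw [mul_one, mul_inv_cancel] at h2
    simp only [List.map_cons, List.map_nil, mul_one] at h2
    rw [h2] at h1
    linarith
  have h3 := hγ (fun x => b 1 [1, x]) hφ
  rw [inv_inv, ← h3]
  have h4 : chern 0 A B b = wsum B A 1 (fun w => if w.prod = 1 then b 1 [1, (w.take 1).prod] else 0) := by
    unfold chern
    refine wsum_congr B A (0 + 1) fun w hw => ?_
    have h5 : verts w = [1, (w.take 1).prod] := by
      unfold verts
      rw [hw]
      simp [List.range_succ]
    rw [h5]
    split_ifs with h6
    · rw [h6]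
    · exact hb1 _ _ h6
  rw [h4]
  unfold wsum
  rw [lin_apply, Finsupp.sum]
  refine Finset.sum_congr rfl fun w _ => ?_
  beta_reduce
  split_ifs
  · rfl
  · rw [mul_zero, zero_mul]

end chern

section element

variable {Γ : Type u} [Group Γ] {k : ℕ}

lemma top_elem_pow (γ : Γ) (m : ℕ) :
    ((letM (S := ℤ) !![MonoidAlgebra.single γ⁻¹ (1 : ℤ)] *
      letM (S := ℤ) !![MonoidAlgebra.single γ (1 : ℤ)]) ^ m) =
      !![MonoidAlgebra.single ((FreeMonoid.of γ⁻¹ * FreeMonoid.of γ) ^ m) (1 : ℤ)] := by
  have h1 : letM (S := ℤ) !![MonoidAlgebra.single γ⁻¹ (1 : ℤ)] *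
      letM (S := ℤ) !![MonoidAlgebra.single γ (1 : ℤ)] =
      !![MonoidAlgebra.single (FreeMonoid.of γ⁻¹ * FreeMonoid.of γ) (1 : ℤ)] := by
    refine Matrix.ext fun i j => ?_
    fin_cases i
    fin_cases j
    simp [letM, letter_single, Matrix.mul_apply, MonoidAlgebra.single_mul_single]
  rw [h1]
  induction m with
  | zero =>
    rw [pow_zero, pow_zero]
    refine Matrix.ext fun i j => ?_
    fin_cases i
    fin_cases j
    simp [MonoidAlgebra.one_def]
  | succ m ih =>
    rw [pow_succ, ih, pow_succ]
    refine Matrix.ext fun i j => ?_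
    fin_cases i
    fin_cases j
    simp [Matrix.mul_apply, MonoidAlgebra.single_mul_single]

lemma top_elem (γ : Γ) (m : ℕ) (b : Γ → List Γ → ℤ) :
    chern m !![MonoidAlgebra.single γ (1 : ℤ)] !![MonoidAlgebra.single γ⁻¹ (1 : ℤ)] b =
      b 1 (verts (((FreeMonoid.of γ⁻¹ * FreeMonoid.of γ) ^ (m + 1)).toList)) := by
  unfold chern wsum
  rw [top_elem_pow]
  have h1 : Matrix.trace !![MonoidAlgebra.single ((FreeMonoid.of γ⁻¹ * FreeMonoid.of γ) ^ (m + 1))
      (1 : ℤ)] = MonoidAlgebra.single ((FreeMonoid.of γ⁻¹ * FreeMonoid.of γ) ^ (m + 1)) (1 : ℤ) := by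
    rw [Matrix.trace_fin_one]
    rfl
  have h2 : ∀ l : ℕ, (((FreeMonoid.of γ⁻¹ * FreeMonoid.of γ) ^ l).toList).prod = 1 := by
    intro l
    induction l with
    | zero => simp
    | succ l ih =>
      rw [pow_succ, FreeMonoid.toList_mul, List.prod_append, ih]
      simp
  rw [h1, lin_single, one_mul]
  show b (((FreeMonoid.of γ⁻¹ * FreeMonoid.of γ) ^ (m + 1)).toList).prod _ = _
  rw [h2]

lemma top_elem_zero (γ : Γ) {b : Γ → List Γ → ℤ} (hb : IsMixed k b) (m : ℕ) (hm : 0 < m) :
    chern m !![MonoidAlgebra.single γ (1 : ℤ)] !![MonoidAlgebra.single γ⁻¹ (1 : ℤ)] b = 0 := by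
  obtain ⟨m, rfl⟩ : ∃ l, m = l + 1 := ⟨m - 1, by omega⟩
  rw [top_elem]
  set w : List Γ := ((FreeMonoid.of γ⁻¹ * FreeMonoid.of γ) ^ (m + 1 + 1)).toList with hw
  have h1 : w = γ⁻¹ :: γ :: ((FreeMonoid.of γ⁻¹ * FreeMonoid.of γ) ^ (m + 1)).toList := by
    rw [hw, pow_succ', FreeMonoid.toList_mul]
    rfl
  have h2 : w.length = (((FreeMonoid.of γ⁻¹ * FreeMonoid.of γ) ^ m).toList).length + 4 := by
    rw [h1, pow_succ', FreeMonoid.toList_mul]
    simp
  have h3 : verts w = [] ++ 1 :: γ⁻¹ :: 1 ::
      (List.range ((((FreeMonoid.of γ⁻¹ * FreeMonoid.of γ) ^ m).toList).length + 1)).map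
        (fun j => (w.take (j + 3)).prod) := by
    unfold verts
    rw [h2, List.range_succ_eq_map, List.map_cons, List.map_map, List.range_succ_eq_map,
      List.map_cons, List.map_map, List.range_succ_eq_map, List.map_cons, List.map_map]
    rw [List.nil_append]
    congr 1
    congr 1
    · simp [h1]
    · congr 1
      simp [h1]
  rw [h3]
  have h4 := hb.alternating 1 [1] γ⁻¹ 1
    ((List.range ((((FreeMonoid.of γ⁻¹ * FreeMonoid.of γ) ^ m).toList).length + 1)).map
        (fun j => (w.take (j + 3)).prod))
  have h5 := hb.diag 1 [] 1 (γ⁻¹ ::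
    ((List.range ((((FreeMonoid.of γ⁻¹ * FreeMonoid.of γ) ^ m).toList).length + 1)).map
        (fun j => (w.take (j + 3)).prod)))
  rw [List.nil_append] at h5 ⊢
  rw [List.cons_append, List.nil_append, List.cons_append, List.nil_append, h5, neg_zero] at h4
  exact h4

end element

/-- For an invertible matrix `A` over the integral group ring of an admissible group there is an
element `γ` of the group such that the Chern character of `A` in (every truncation of) negative
cyclic homology agrees with that of `γ`. -/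
theorem top {Γ : Type u} [Group Γ] (hΓ : Admissible.{v} Γ) (n : ℕ)
    (A B : Matrix (Fin n) (Fin n) (MonoidAlgebra ℤ Γ)) (hAB : A * B = 1) (hBA : B * A = 1) :
    ∃ γ : Γ, ∀ (k : ℕ) (b : Γ → List Γ → ℤ), IsMixed k b →
      mixedChern k A B b =
        mixedChern k !![MonoidAlgebra.single γ (1 : ℤ)] !![MonoidAlgebra.single γ⁻¹ (1 : ℤ)] b := by
  classical
  obtain ⟨γ, hγ⟩ := top_zero A B
  refine ⟨γ, fun k b hb => ?_⟩
  obtain ⟨H, A', B', hH, hAB', hBA', hres⟩ := exists_restrict A B hAB hBA
  set b1 : Γ → List Γ → ℤ := fun c u => if c = 1 then b c u else 0 with hb1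
  set b2 : Γ → List Γ → ℤ := fun c u => if c ≠ 1 then b c u else 0 with hb2
  have hP : ∀ x c : Γ, x * c * x⁻¹ = 1 ↔ c = 1 := by
    intro x c
    rw [mul_inv_eq_one, mul_eq_left]
  have hm1 : IsMixed k b1 := mixed_of_classes hb (fun c => c = 1) hP
  have hm2 : IsMixed k b2 := mixed_of_classes hb (fun c => c ≠ 1) (fun x c => not_congr (hP x c))
  have hsum : b = fun c u => b1 c u + b2 c u := by
    funext c u
    rw [hb1, hb2]
    by_cases hc : c = 1
    · simp [hc]
    · simp [hc]
  have h2 : mixedChern k A B b2 = 0 := by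
    have h3 : mixedChern k A B b2 = mixedChern k A' B' (resH H b2) := by
      unfold mixedChern
      refine Finset.sum_congr rfl fun m _ => ?_
      rw [hres]
    rw [h3]
    refine mixed_zero (hΓ.separated H hH) A' B' hAB' hBA' (resH_mixed hm2 H) fun u => ?_
    unfold resH
    rw [hb2]
    simp
  have hc1 : ∀ c u, c ≠ 1 → b1 c u = 0 := fun c u hc => if_neg hc
  have hM : ∀ m, 0 < m → chern m A B b1 = 0 := fun m hm =>
    top_one hΓ.torsionFree A B hAB hBA hm1 hc1 m hm
  rw [hsum, mixedChern_add, h2, add_zero, ← hsum]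
  unfold mixedChern
  refine Finset.sum_congr rfl fun m _ => ?_
  congr 1
  rcases Nat.eq_zero_or_pos m with rfl | hm
  · rw [hγ k b1 hm1 hc1, top_elem]
    show (if (1 : Γ) = 1 then b 1 _ else 0) = _
    rw [if_pos rfl]
    congr 1
    simp [verts, List.range_succ]
  · rw [hM m hm, top_elem_zero γ hb m hm]

end Pool.Agent.Lib.MP_8f66f0_al_Mixed
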